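import Pool.Agent.H287R3.LR.Split
import Pool.Agent.H630R2.LR.Bounds

/-!
# Alternating sums, rank, and the bound on the number of commuting sensitive elements
-/

set_option autoImplicit false
set_option linter.unusedSectionVars false

namespace Pool.Agent.H287R3.LR

open Module Finset Pool.Agent.H630R2.LR

section reg

variable {Γ : Type*} [Group Γ]

/-- the left regular action on functions: `(g φ)(y) = φ(g⁻¹ y)` -/
noncomputable def lreg (Γ : Type*) [Group Γ] : Γ →* Module.End ℂ (Γ → ℂ) where
  toFun g :=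
    { toFun := fun φ y => φ (g⁻¹ * y)
      map_add' := fun _ _ => rfl
      map_smul' := fun _ _ => rfl }
  map_one' := by
    ext φ y
    simp
  map_mul' g h := by
    ext φ y
    simp [mul_assoc]

theorem lreg_apply (g : Γ) (φ : Γ → ℂ) (y : Γ) : lreg Γ g φ y = φ (g⁻¹ * y) := rfl

/-- the complex indicator function -/
noncomputable def chi (f : Γ → Bool) : Γ → ℂ := fun y => if f y then 1 else 0

/-- iterated differences -/
noncomputable def altD (φ : Γ → ℂ) : List Γ → Γ → ℂ
  | [], σ => φ σ
  | π :: L, σ => altD φ L σ - altD φ L (π * σ)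

theorem altD_eq (φ : Γ → ℂ) : ∀ (L : List Γ) (σ : Γ),
    altD φ L σ = prodOp (lreg Γ) (L.map (fun π => π⁻¹)) φ σ
  | [], σ => rfl
  | π :: L, σ => by
    rw [altD, altD_eq φ L, altD_eq φ L]
    show _ = ((1 - lreg Γ π⁻¹) * prodOp (lreg Γ) (L.map (fun π => π⁻¹))) φ σ
    rw [Module.End.mul_apply, LinearMap.sub_apply, Pi.sub_apply, Module.End.one_apply, lreg_apply,
      inv_inv]

/-- the row space -/
noncomputable def rowSpace (f : Γ → Bool) : Submodule ℂ (Γ → ℂ) :=
  Submodule.span ℂ (Set.range fun x => lreg Γ x (chi f))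

theorem rowSpace_inv (f : Γ → Bool) (g : Γ) (w : Γ → ℂ) (hw : w ∈ rowSpace f) :
    lreg Γ g w ∈ rowSpace f := by
  have h : rowSpace f ≤ (rowSpace f).comap (lreg Γ g) := by
    unfold rowSpace
    rw [Submodule.span_le]
    rintro _ ⟨x, rfl⟩
    show lreg Γ g (lreg Γ x (chi f)) ∈ Submodule.span ℂ _
    rw [← Module.End.mul_apply, ← map_mul]
    exact Submodule.subset_span ⟨g * x, rfl⟩
  exact h hw

theorem chi_mem (f : Γ → Bool) : chi f ∈ rowSpace f := by
  apply Submodule.subset_span
  exact ⟨1, by simp⟩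

end reg

theorem finrank_rowSpace_le {Γ : Type} [Group Γ] [Fintype Γ] (f : Γ → Bool) :
    finrank ℂ (rowSpace f) ≤ (comm (fun x y : Γ => f (x⁻¹ * y))).rank := by
  refine le_trans (le_of_eq ?_) (RANK.rank_map_le (comm (fun x y : Γ => f (x⁻¹ * y))))
  rw [Matrix.rank_eq_finrank_span_row]
  have e : rowSpace f = Submodule.span ℂ (Set.range
      ((comm (fun x y : Γ => f (x⁻¹ * y))).map (fun r : ℝ => (r : ℂ))).row) := by
    unfold rowSpace
    congr 2
    funext x y
    rw [lreg_apply]
    show chi f (x⁻¹ * y) = ((if f (x⁻¹ * y) then (1 : ℝ) else 0 : ℝ) : ℂ)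
    unfold chi
    split_ifs <;> simp
  rw [e]

theorem rank_ge {Γ : Type} [Group Γ] [Fintype Γ] (f : Γ → Bool) (L : List (Subgroup Γ × Γ))
    (hL : ∀ p ∈ L, p.2 ∈ ⁅p.1, p.1⁆)
    (hpw : L.Pairwise (fun p q => ∀ g ∈ p.1, ∀ h ∈ q.1, Commute g h)) (σ : Γ)
    (h : altD (chi f) (L.map Prod.snd) σ ≠ 0) :
    2 ^ L.length ≤ (comm (fun x y : Γ => f (x⁻¹ * y))).rank := by
  refine le_trans ?_ (finrank_rowSpace_le f)
  have h1 := splitting (lreg Γ) (L.map (fun p => (p.1, p.2⁻¹))) (rowSpace f) ?_ ?_ ?_ ?_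
  · simpa using h1
  · intro p hp
    rw [List.mem_map] at hp
    obtain ⟨q, hq, rfl⟩ := hp
    exact inv_mem (hL q hq)
  · rw [List.pairwise_map]
    exact hpw
  · intro p _ g _ w hw
    exact rowSpace_inv f g w hw
  · refine ⟨chi f, chi_mem f, ?_⟩
    intro h0
    apply h
    rw [altD_eq]
    have e : (L.map Prod.snd).map (fun π => π⁻¹) =
        (L.map (fun p => ((p.1, p.2⁻¹) : Subgroup Γ × Γ))).map Prod.snd := by
      rw [List.map_map, List.map_map]
      rfl
    rw [e, h0]
    rfl

section altsum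

variable {Γ : Type*} [Group Γ] {ι : Type*} [DecidableEq ι]

theorem mobius (h : Finset ι → ℝ) (Y : Finset ι) :
    ∑ S ∈ Y.powerset, (-1 : ℝ) ^ S.card * ∑ T ∈ S.powerset, (-1 : ℝ) ^ T.card * h T = h Y := by
  induction Y using Finset.induction_on generalizing h with
  | empty => simp
  | insert a Y ha ih =>
    rw [Finset.sum_powerset_insert ha, ← Finset.sum_add_distrib]
    have key : ∀ S ∈ Y.powerset, (-1 : ℝ) ^ S.card * ∑ T ∈ S.powerset, (-1 : ℝ) ^ T.card * h T +
        (-1 : ℝ) ^ (insert a S).card * ∑ T ∈ (insert a S).powerset, (-1 : ℝ) ^ T.card * h T =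
        (-1 : ℝ) ^ S.card * ∑ T ∈ S.powerset, (-1 : ℝ) ^ T.card * h (insert a T) := by
      intro S hS
      have haS : a ∉ S := fun hh => ha (Finset.mem_powerset.1 hS hh)
      rw [Finset.sum_powerset_insert haS, Finset.card_insert_of_notMem haS]
      have e : ∑ T ∈ S.powerset, (-1 : ℝ) ^ (insert a T).card * h (insert a T) =
          - ∑ T ∈ S.powerset, (-1 : ℝ) ^ T.card * h (insert a T) := by
        rw [← Finset.sum_neg_distrib]
        apply Finset.sum_congr rfl
        intro T hT
        have haT : a ∉ T := fun hh => haS (Finset.mem_powerset.1 hT hh)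
        rw [Finset.card_insert_of_notMem haT, pow_succ]
        ring
      rw [e, pow_succ]
      ring
    rw [Finset.sum_congr rfl key]
    exact ih (fun T => h (insert a T))

variable (π : ι → Γ) (hc : ∀ i j, i ≠ j → Commute (π i) (π j))

/-- the product of the elements `π i`, `i ∈ T` -/
noncomputable def P (T : Finset ι) : Γ := T.noncommProd π (fun i _ j _ hij => hc i j hij)

theorem P_empty : P π hc ∅ = 1 := Finset.noncommProd_empty _ _

theorem P_insert {i : ι} {T : Finset ι} (hi : i ∉ T) :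
    P π hc (insert i T) = π i * P π hc T :=
  Finset.noncommProd_insert_of_notMem _ _ _ _ hi

theorem P_singleton (i : ι) : P π hc {i} = π i := Finset.noncommProd_singleton _ _

theorem P_comm {i : ι} {T : Finset ι} (hi : i ∉ T) : π i * P π hc T = P π hc T * π i := by
  have : Commute (π i) (P π hc T) := by
    apply Finset.noncommProd_commute
    intro j hj
    exact hc i j (fun h => hi (h ▸ hj))
  exact this

theorem altsum_eq (φ : Γ → ℂ) : ∀ (L : List ι), L.Nodup → ∀ σ : Γ,
    ∑ T ∈ L.toFinset.powerset, (-1 : ℂ) ^ T.card * φ (P π hc T * σ) = altD φ (L.map π) σ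
  | [], _, σ => by simp [altD, P_empty]
  | i :: L, hL, σ => by
    rw [List.nodup_cons] at hL
    have hi : i ∉ L.toFinset := by simpa using hL.1
    rw [List.toFinset_cons, Finset.sum_powerset_insert hi, List.map_cons, altD,
      ← altsum_eq φ L hL.2, ← altsum_eq φ L hL.2, sub_eq_add_neg, ← Finset.sum_neg_distrib]
    congr 1
    apply Finset.sum_congr rfl
    intro T hT
    have hiT : i ∉ T := fun hh => hi (Finset.mem_powerset.1 hT hh)
    rw [Finset.card_insert_of_notMem hiT, P_insert π hc hiT, P_comm π hc hiT, pow_succ,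
      mul_assoc (P π hc T)]
    ring

end altsum

/-- **Block sensitivity bound.** If `b` pairwise commuting subgroups `G i` contain commutator
elements `π i` with `f (π i * σ) ≠ f σ`, then `b ≤ (log₂ rank)²`. -/
theorem bs_bound {Γ : Type} [Group Γ] [Fintype Γ] (f : Γ → Bool) (σ : Γ) {b : ℕ}
    (G : Fin b → Subgroup Γ) (π : Fin b → Γ) (hπ : ∀ i, π i ∈ ⁅G i, G i⁆)
    (hG : ∀ i j, i ≠ j → ∀ g ∈ G i, ∀ h ∈ G j, Commute g h) (hs : ∀ i, f (π i * σ) ≠ f σ) :
    b ≤ (Nat.log 2 (comm (fun x y : Γ => f (x⁻¹ * y))).rank) ^ 2 := by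
  classical
  set r := (comm (fun x y : Γ => f (x⁻¹ * y))).rank with hr
  have hself : ∀ i, π i ∈ G i := by
    intro i
    have h3 : ⁅G i, G i⁆ ≤ G i := by
      rw [Subgroup.commutator_le]
      intro x hx y hy
      exact (G i).mul_mem ((G i).mul_mem ((G i).mul_mem hx hy) ((G i).inv_mem hx)) ((G i).inv_mem hy)
    exact h3 (hπ i)
  have hc : ∀ i j, i ≠ j → Commute (π i) (π j) := fun i j hij =>
    hG i j hij _ (hself i) _ (hself j)
  set h : Finset (Fin b) → ℝ := fun T => if f (P π hc T * σ) then 1 else 0 with hh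
  have h01 : ∀ T, h T = 0 ∨ h T = 1 := by
    intro T
    simp only [hh]
    split_ifs
    · right; rfl
    · left; rfl
  refine MARKOV.block_bound (k := Nat.log 2 r)
    (fun S => (-1 : ℝ) ^ S.card * ∑ T ∈ S.powerset, (-1 : ℝ) ^ T.card * h T)
    (fun j : Fin b => ({j} : Finset (Fin b))) ?_ ?_ ?_ ?_
  · intro i j hij
    simpa using hij
  · intro S hS
    by_contra hne
    have hne' : ∑ T ∈ S.powerset, (-1 : ℝ) ^ T.card * h T ≠ 0 := by
      intro h0
      apply hne
      rw [h0, mul_zero]
    have hne2 : ∑ T ∈ S.toList.toFinset.powerset, (-1 : ℂ) ^ T.card * chi f (P π hc T * σ) ≠ 0 := by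
      rw [Finset.toList_toFinset]
      intro h0
      apply hne'
      have e : ((∑ T ∈ S.powerset, (-1 : ℝ) ^ T.card * h T : ℝ) : ℂ) =
          ∑ T ∈ S.powerset, (-1 : ℂ) ^ T.card * chi f (P π hc T * σ) := by
        push_cast
        apply Finset.sum_congr rfl
        intro T _
        congr 1
        simp only [hh, chi]
        split_ifs <;> simp
      rw [h0] at e
      exact_mod_cast e
    rw [altsum_eq π hc (chi f) S.toList (Finset.nodup_toList S) σ] at hne2
    have key := rank_ge f (S.toList.map (fun i => (G i, π i))) ?_ ?_ σ ?_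
    · rw [List.length_map, Finset.length_toList] at key
      have := Nat.le_log_of_pow_le (b := 2) (by norm_num) key
      exact absurd hS (not_lt.2 this)
    · intro p hp
      rw [List.mem_map] at hp
      obtain ⟨i, _, rfl⟩ := hp
      exact hπ i
    · rw [List.pairwise_map]
      exact (Finset.nodup_toList S).imp (fun {i j} hij => hG i j hij)
    · rw [List.map_map]
      exact hne2
  · intro Y
    have e : Y.biUnion (fun j : Fin b => ({j} : Finset (Fin b))) = Y := by
      ext x
      simp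
    rw [e, mobius]
    exact h01 Y
  · intro j
    rw [mobius]
    have e1 : (-1 : ℝ) ^ (∅ : Finset (Fin b)).card *
        ∑ T ∈ (∅ : Finset (Fin b)).powerset, (-1 : ℝ) ^ T.card * h T = h ∅ := by simp
    rw [e1]
    simp only [hh, P_singleton, P_empty, one_mul]
    intro heq
    apply hs j
    by_cases h1 : f (π j * σ) = true <;> by_cases h2 : f σ = true <;> simp_all

end Pool.Agent.H287R3.LR
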