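import Pool.Agent.H287R3.LR.SymC

/-!
# Final forms: symmetric groups, products of perfect groups
-/

set_option autoImplicit false
set_option linter.unusedSectionVars false

namespace Pool.Agent.H287R3.LR

open Finset Pool.Agent.H630R2.LR Equiv Equiv.Perm Module

/-- reduction of invariant matrices with few orbits to the regular action -/
theorem orbit_reduction {Γ : Type} [Group Γ] [Fintype Γ] {X Y : Type} [Fintype X] [Fintype Y]
    [MulAction Γ X] [MulAction Γ Y] (F : X → Y → Bool)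
    (hF : ∀ (g : Γ) (x : X) (y : Y), F (g • x) (g • y) = F x y) (t : ℕ)
    (hX : Nat.card (MulAction.orbitRel.Quotient Γ X) ≤ t)
    (hY : Nat.card (MulAction.orbitRel.Quotient Γ Y) ≤ t) (N : ℕ)
    (hN : ∀ f : Γ → Bool, (comm (fun x y : Γ => f (x⁻¹ * y))).rank ≤ (comm F).rank →
      Proto (fun x y : Γ => f (x⁻¹ * y)) N) :
    Proto F (N + Nat.clog 2 t + Nat.clog 2 t) := by
  classical
  have : Fintype (MulAction.orbitRel.Quotient Γ X) := Fintype.ofFinite _
  have : Fintype (MulAction.orbitRel.Quotient Γ Y) := Fintype.ofFinite _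
  have hX' : ∀ x : X, ∃ g : Γ, x = g • (Quotient.mk'' x : MulAction.orbitRel.Quotient Γ X).out := by
    intro x
    have h := (MulAction.orbitRel Γ X).symm (Quotient.mk_out (s := MulAction.orbitRel Γ X) x)
    obtain ⟨g, hg⟩ := (MulAction.orbitRel_apply.1 h)
    exact ⟨g, hg.symm⟩
  have hY' : ∀ y : Y, ∃ g : Γ, y = g • (Quotient.mk'' y : MulAction.orbitRel.Quotient Γ Y).out := by
    intro x
    have h := (MulAction.orbitRel Γ Y).symm (Quotient.mk_out (s := MulAction.orbitRel Γ Y) x)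
    obtain ⟨g, hg⟩ := (MulAction.orbitRel_apply.1 h)
    exact ⟨g, hg.symm⟩
  choose γ hγ using hX'
  choose δ hδ using hY'
  refine Proto.sendX F (fun x => (Quotient.mk'' x : MulAction.orbitRel.Quotient Γ X)) (Nat.clog 2 t)
    ?_ (fun q x y => F (γ x • q.out) y) _ (fun q => ?_) (fun x y => by rw [← hγ x])
  · rw [← Nat.card_eq_fintype_card]
    exact hX.trans (Nat.le_pow_clog (by norm_num) _)
  refine Proto.sendY _ (fun y => (Quotient.mk'' y : MulAction.orbitRel.Quotient Γ Y)) (Nat.clog 2 t)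
    ?_ (fun q' x y => F (γ x • q.out) (δ y • q'.out)) _ (fun q' => ?_)
    (fun x y => by rw [← hδ y])
  · rw [← Nat.card_eq_fintype_card]
    exact hY.trans (Nat.le_pow_clog (by norm_num) _)
  have e1 : ∀ z w : Γ, F q.out ((z⁻¹ * w) • q'.out) = F (z • q.out) (w • q'.out) := by
    intro z w
    rw [← hF z q.out ((z⁻¹ * w) • q'.out), smul_smul, mul_inv_cancel_left]
  have key := hN (fun z => F q.out (z • q'.out)) (by
    have : comm (fun x y : Γ => (fun z => F q.out (z • q'.out)) (x⁻¹ * y)) =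
        (comm F).submatrix (fun z : Γ => z • q.out) (fun w : Γ => w • q'.out) := by
      ext z w
      show (if F q.out ((z⁻¹ * w) • q'.out) then (1 : ℝ) else 0) =
        if F (z • q.out) (w • q'.out) then (1 : ℝ) else 0
      rw [e1]
    rw [this]
    exact Matrix.rank_submatrix_le _ _ _)
  have key2 := key.comap (fun x : X => γ x) (fun y : Y => δ y)
  have e2 : (fun (x : X) (y : Y) => F q.out (((γ x)⁻¹ * δ y) • q'.out))
      = fun x y => F (γ x • q.out) (δ y • q'.out) := by
    funext x y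
    rw [e1]
  rw [← e2]
  exact key2

/-! ### The symmetric group -/

/-- certificate size in terms of the rank -/
def cbb (r : ℕ) : ℕ := ((Nat.log 2 r) ^ 2 + 1) * (6 * (Nat.log 2 r) ^ 2 + 5)

/-- number of bits -/
def scost (r : ℕ) : ℕ := (cbb r * (4 * (Nat.clog 2 (6 * r + 2) * (2 * cbb r + 2)))) + 3

theorem cbb_mono {r r' : ℕ} (h : r ≤ r') : cbb r ≤ cbb r' := by
  unfold cbb
  have := Nat.log_mono_right (b := 2) h
  gcongr

theorem scost_mono {r r' : ℕ} (h : r ≤ r') : scost r ≤ scost r' := by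
  unfold scost
  have h1 := cbb_mono h
  have h2 : Nat.clog 2 (6 * r + 2) ≤ Nat.clog 2 (6 * r' + 2) := Nat.clog_mono_right _ (by omega)
  gcongr

theorem proto_sym {α : Type} [Fintype α] [DecidableEq α] (f : Perm α → Bool) :
    Proto (fun σ τ : Perm α => f (σ⁻¹ * τ)) (scost (rk f)) := by
  by_cases h : ∃ σ π : Perm α, sign π = 1 ∧ f (π * σ) ≠ f σ
  · obtain ⟨σ, π, hπ, hf⟩ := h
    have hc := card_le f σ π hπ hf
    refine (proto_perm f).mono ?_
    unfold pc scost
    have h1 : cb f = cbb (rk f) := rfl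
    rw [h1]
    have h2 : Nat.clog 2 (Fintype.card α) ≤ Nat.clog 2 (6 * rk f + 2) := Nat.clog_mono_right _ hc
    gcongr
  · push Not at h
    have hcard : Fintype.card ℤˣ ≤ 2 ^ 1 := by decide
    -- the value depends only on the signs
    have hconst : ∀ g g' : Perm α, sign g = sign g' → f g = f g' := by
      intro g g' hgg
      have := h g' (g * g'⁻¹) (by rw [map_mul, hgg, ← map_mul, mul_inv_cancel, map_one])
      rwa [inv_mul_cancel_right] at this
    classical
    let φ : ℤˣ → Bool := fun e => if hex : ∃ v : Perm α, sign v = e then f hex.choose else false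
    have hφ : ∀ g, f g = φ (sign g) := by
      intro g
      have hex : ∃ v : Perm α, sign v = sign g := ⟨g, rfl⟩
      simp only [φ, dif_pos hex]
      exact hconst _ _ hex.choose_spec.symm
    have p1 : ∀ e, Proto (fun (_ : Perm α) (τ : Perm α) => φ (e⁻¹ * sign τ)) (0 + 1) := fun e =>
      Proto.sendY _ (fun τ : Perm α => sign τ) 1 hcard (fun e' _ _ => φ (e⁻¹ * e')) 0
        (fun e' => Proto.const _ (φ (e⁻¹ * e')) (fun _ _ => rfl)) (fun _ _ => rfl)
    have p2 : Proto (fun σ τ : Perm α => φ ((sign σ)⁻¹ * sign τ)) (0 + 1 + 1) :=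
      Proto.sendX _ (fun σ : Perm α => sign σ) 1 hcard (fun e _ τ => φ (e⁻¹ * sign τ)) _
        p1 (fun _ _ => rfl)
    have e : (fun σ τ : Perm α => f (σ⁻¹ * τ)) = fun σ τ : Perm α => φ ((sign σ)⁻¹ * sign τ) := by
      funext σ τ
      rw [hφ, map_mul, map_inv]
    rw [e]
    refine p2.mono ?_
    unfold scost
    omega

theorem scost_le (r : ℕ) : (scost r : ℝ) ≤ 1347 * (Real.logb 2 r + 1) ^ 9 := by
  have hl := logb_nonneg r
  set L : ℝ := Real.logb 2 r + 1 with hL
  have hL1 : 1 ≤ L := by linarith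
  have hd : (Nat.log 2 r : ℝ) ≤ L - 1 := by
    have := log_le r
    linarith
  have hd0 : (0 : ℝ) ≤ (Nat.log 2 r : ℝ) := Nat.cast_nonneg _
  have hd2 : (Nat.log 2 r : ℝ) ^ 2 ≤ L ^ 2 - 1 := by nlinarith
  have hcb : (cbb r : ℝ) ≤ 6 * L ^ 4 := by
    unfold cbb
    push_cast
    have h1 : (Nat.log 2 r : ℝ) ^ 2 + 1 ≤ L ^ 2 := by linarith
    have h2 : 6 * (Nat.log 2 r : ℝ) ^ 2 + 5 ≤ 6 * L ^ 2 := by linarith
    calc ((Nat.log 2 r : ℝ) ^ 2 + 1) * (6 * (Nat.log 2 r : ℝ) ^ 2 + 5) ≤ L ^ 2 * (6 * L ^ 2) := by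
          gcongr
      _ = 6 * L ^ 4 := by ring
  have hcb0 : (0 : ℝ) ≤ (cbb r : ℝ) := Nat.cast_nonneg _
  have hlog : (Nat.clog 2 (6 * r + 2) : ℝ) ≤ 4 * L := by
    have h1 := clog_le (6 * r + 2)
    have h2 : Real.logb 2 ((6 * r + 2 : ℕ) : ℝ) ≤ 3 + Real.logb 2 r := by
      rcases Nat.eq_zero_or_pos r with h0 | h0
      · rw [h0]
        simp
      · have h3 : (0 : ℝ) < r := by exact_mod_cast h0
        have h4 : (3 : ℝ) + Real.logb 2 r = Real.logb 2 (8 * r) := by
          rw [Real.logb_mul (by norm_num) (by positivity)]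
          congr 1
          rw [show (8 : ℝ) = 2 ^ (3 : ℕ) by norm_num, Real.logb_pow]
          simp
        rw [h4]
        refine Real.logb_le_logb_of_le (by norm_num) (by positivity) ?_
        push_cast
        have : (1 : ℝ) ≤ r := by exact_mod_cast h0
        linarith
    linarith
  have hlog0 : (0 : ℝ) ≤ (Nat.clog 2 (6 * r + 2) : ℝ) := Nat.cast_nonneg _
  have hL4 : 1 ≤ L ^ 4 := one_le_pow₀ hL1
  have hL9 : 1 ≤ L ^ 9 := one_le_pow₀ hL1
  unfold scost
  push_cast
  calc (cbb r : ℝ) * (4 * ((Nat.clog 2 (6 * r + 2) : ℝ) * (2 * (cbb r : ℝ) + 2))) + 3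
      ≤ (6 * L ^ 4) * (4 * ((4 * L) * (2 * (6 * L ^ 4) + 2 * L ^ 4))) + 3 * L ^ 9 := by
        gcongr
        · linarith
        · linarith
    _ = 1347 * L ^ 9 := by ring

/-- **Symmetric group symmetry.** -/
theorem final_sym (n : ℕ) {X Y : Type} [Fintype X] [Fintype Y] [MulAction (Perm (Fin n)) X]
    [MulAction (Perm (Fin n)) Y] (F : X → Y → Bool)
    (hF : ∀ (g : Perm (Fin n)) (x : X) (y : Y), F (g • x) (g • y) = F x y) (t : ℕ)
    (hX : Nat.card (MulAction.orbitRel.Quotient (Perm (Fin n)) X) ≤ t)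
    (hY : Nat.card (MulAction.orbitRel.Quotient (Perm (Fin n)) Y) ≤ t) :
    ∃ c : ℕ, Proto F c ∧
      (c : ℝ) ≤ 1347 * (Real.logb 2 ((comm F).rank : ℝ) + 1) ^ 9 + 2 * (Real.logb 2 t + 1) := by
  classical
  refine ⟨_, orbit_reduction F hF t hX hY (scost (comm F).rank) (fun f hf => ?_), ?_⟩
  · exact (proto_sym f).mono (scost_mono hf)
  · have h1 := scost_le (comm F).rank
    have h2 := clog_le t
    push_cast
    linarith

/-! ### Products of perfect groups -/

section prod

variable {I : Type} [Fintype I] [DecidableEq I] {G : I → Type} [∀ i, Group (G i)]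

theorem P_piecewise (u v : ∀ i, G i)
    (hc : ∀ i j, i ≠ j → Commute (Pi.mulSingle (M := G) i (v i * (u i)⁻¹))
      (Pi.mulSingle (M := G) j (v j * (u j)⁻¹))) (T : Finset I) :
    P (fun i => Pi.mulSingle (M := G) i (v i * (u i)⁻¹)) hc T * u = T.piecewise v u := by
  induction T using Finset.induction_on with
  | empty => rw [P_empty, one_mul, Finset.piecewise_empty]
  | insert i T hi ih =>
    rw [P_insert _ _ hi, mul_assoc, ih]
    funext j
    rw [Pi.mul_apply]
    by_cases hj : j = i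
    · subst hj
      rw [Pi.mulSingle_eq_same, Finset.piecewise_eq_of_notMem _ _ _ hi,
        Finset.piecewise_insert_self, inv_mul_cancel_right]
    · rw [Pi.mulSingle_eq_of_ne hj, one_mul]
      by_cases hjT : j ∈ T
      · rw [Finset.piecewise_eq_of_mem _ _ _ hjT, Finset.piecewise_eq_of_mem _ _ _
          (Finset.mem_insert_of_mem hjT)]
      · rw [Finset.piecewise_eq_of_notMem _ _ _ hjT, Finset.piecewise_eq_of_notMem]
        rw [Finset.mem_insert, not_or]
        exact ⟨hj, hjT⟩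

theorem vanish_of_rank [∀ i, Fintype (G i)] (hperf : ∀ i, commutator (G i) = ⊤)
    (f : (∀ i, G i) → Bool) :
    Vanish f (Nat.log 2 (comm (fun x y : ∀ i, G i => f (x⁻¹ * y))).rank) := by
  classical
  intro S u v hS
  by_contra hne
  set π : I → (∀ i, G i) := fun i => Pi.mulSingle (M := G) i (v i * (u i)⁻¹) with hπ
  set H : I → Subgroup (∀ i, G i) := fun i => Subgroup.map (MonoidHom.mulSingle G i) ⊤ with hH
  have hHcomm : ∀ i j, i ≠ j → ∀ g ∈ H i, ∀ h ∈ H j, Commute g h := by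
    rintro i j hij g ⟨g', -, rfl⟩ h ⟨h', -, rfl⟩
    exact Pi.mulSingle_commute hij g' h'
  have hmem : ∀ i, π i ∈ H i := fun i => ⟨v i * (u i)⁻¹, Subgroup.mem_top _, rfl⟩
  have hc : ∀ i j, i ≠ j → Commute (π i) (π j) := fun i j hij =>
    hHcomm i j hij _ (hmem i) _ (hmem j)
  have hdiff : ((diff f S u v : ℤ) : ℂ) = (-1 : ℂ) ^ S.card *
      ∑ T ∈ S.powerset, (-1 : ℂ) ^ T.card * chi f (P π hc T * u) := by
    unfold diff
    push_cast
    rw [Finset.mul_sum]
    apply Finset.sum_congr rfl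
    intro T hT
    rw [Finset.mem_powerset] at hT
    rw [P_piecewise u v hc T, ← mul_assoc]
    have e1 : (-1 : ℂ) ^ (S \ T).card = (-1 : ℂ) ^ S.card * (-1 : ℂ) ^ T.card := by
      rw [Finset.card_sdiff_of_subset hT, ← pow_add]
      have hle := Finset.card_le_card hT
      have e : S.card + T.card = (S.card - T.card) + 2 * T.card := by omega
      rw [e, pow_add, pow_mul]
      simp
    rw [e1]
    rfl
  have hne2 : ∑ T ∈ S.toList.toFinset.powerset, (-1 : ℂ) ^ T.card * chi f (P π hc T * u) ≠ 0 := by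
    rw [Finset.toList_toFinset]
    intro h0
    apply hne
    rw [h0, mul_zero] at hdiff
    exact_mod_cast hdiff
  rw [altsum_eq π hc (chi f) S.toList (Finset.nodup_toList S) u] at hne2
  have key := rank_ge f (S.toList.map (fun i => (H i, π i))) ?_ ?_ u ?_
  · rw [List.length_map, Finset.length_toList] at key
    have := Nat.le_log_of_pow_le (b := 2) (by norm_num) key
    exact absurd hS (not_lt.2 this)
  · intro p hp
    rw [List.mem_map] at hp
    obtain ⟨i, _, rfl⟩ := hp
    show π i ∈ ⁅Subgroup.map (MonoidHom.mulSingle G i) ⊤, Subgroup.map (MonoidHom.mulSingle G i) ⊤⁆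
    rw [← Subgroup.map_commutator, ← commutator_def, hperf i]
    exact hmem i
  · rw [List.pairwise_map]
    exact (Finset.nodup_toList S).imp (fun {i j} hij => hHcomm i j hij)
  · rw [List.map_map]
    exact hne2

/-- number of bits -/
def pcost (q r : ℕ) : ℕ := 2 * Nat.clog 2 q * ∑ j ∈ range (Nat.log 2 r + 1), j ^ 3

theorem proto_prod [∀ i, Fintype (G i)] (hperf : ∀ i, commutator (G i) = ⊤) (q r : ℕ)
    (hq : ∀ i, Fintype.card (G i) ≤ q) (f : (∀ i, G i) → Bool)
    (hr : (comm (fun x y : ∀ i, G i => f (x⁻¹ * y))).rank ≤ r) :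
    Proto (fun x y : ∀ i, G i => f (x⁻¹ * y)) (pcost q r) := by
  have h1 := dt_of_vanish f _ (vanish_of_rank hperf f)
  have h2 := DT.proto h1 (Nat.clog 2 q) (fun i => (hq i).trans (Nat.le_pow_clog (by norm_num) _))
    (fun (x : ∀ i, G i) i => x i) (fun (y : ∀ i, G i) i => y i) (fun i a b => a⁻¹ * b)
  refine h2.mono ?_
  unfold pcost
  apply Nat.mul_le_mul_left
  apply Finset.sum_le_sum_of_subset
  intro j hj
  rw [Finset.mem_range] at hj ⊢
  have := Nat.log_mono_right (b := 2) hr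
  omega

theorem pcost_le (q r : ℕ) : (pcost q r : ℝ) ≤
    2 * (Real.logb 2 q + 1) * (Real.logb 2 r) ^ 4 := by
  have hl := logb_nonneg r
  have hq := logb_nonneg q
  have h4 : ((∑ j ∈ range (Nat.log 2 r + 1), j ^ 3 : ℕ) : ℝ) ≤ (Real.logb 2 r) ^ 4 := by
    have h5 : (∑ j ∈ range (Nat.log 2 r + 1), j ^ 3 : ℕ) ≤ (Nat.log 2 r) ^ 4 := by
      rw [Finset.sum_range_succ']
      simp only [ne_eq, OfNat.ofNat_ne_zero, not_false_eq_true, zero_pow, add_zero]
      calc ∑ k ∈ range (Nat.log 2 r), (k + 1) ^ 3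
          ≤ ∑ k ∈ range (Nat.log 2 r), (Nat.log 2 r) ^ 3 := by
            refine Finset.sum_le_sum fun k hk => ?_
            have := Finset.mem_range.1 hk
            exact Nat.pow_le_pow_left (by omega) 3
        _ = (Nat.log 2 r) ^ 4 := by
            rw [Finset.sum_const, Finset.card_range, smul_eq_mul]; ring
    have h6 : ((∑ j ∈ range (Nat.log 2 r + 1), j ^ 3 : ℕ) : ℝ) ≤ ((Nat.log 2 r : ℝ)) ^ 4 := by
      exact_mod_cast h5
    refine h6.trans ?_
    have := log_le r
    gcongr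
  have h1 := clog_le q
  unfold pcost
  rw [Nat.cast_mul]
  push_cast at h4 ⊢
  gcongr

/-- **Products of perfect groups.** -/
theorem final_prod [∀ i, Fintype (G i)] (hperf : ∀ i, commutator (G i) = ⊤) (q : ℕ)
    (hq : ∀ i, Fintype.card (G i) ≤ q) {X Y : Type} [Fintype X] [Fintype Y]
    [MulAction (∀ i, G i) X] [MulAction (∀ i, G i) Y] (F : X → Y → Bool)
    (hF : ∀ (g : ∀ i, G i) (x : X) (y : Y), F (g • x) (g • y) = F x y) (t : ℕ)
    (hX : Nat.card (MulAction.orbitRel.Quotient (∀ i, G i) X) ≤ t)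
    (hY : Nat.card (MulAction.orbitRel.Quotient (∀ i, G i) Y) ≤ t) :
    ∃ c : ℕ, Proto F c ∧
      (c : ℝ) ≤ 2 * (Real.logb 2 q + 1) * (Real.logb 2 ((comm F).rank : ℝ)) ^ 4 +
        2 * (Real.logb 2 t + 1) := by
  classical
  refine ⟨_, orbit_reduction F hF t hX hY (pcost q (comm F).rank) (fun f hf => ?_), ?_⟩
  · exact proto_prod hperf q _ hq f hf
  · have h1 := pcost_le q (comm F).rank
    have h2 := clog_le t
    push_cast
    linarith

end prod

end Pool.Agent.H287R3.LR
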