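import Pool.Agent.H287R3.LR.Quasi

/-!
# From protocols to colourings
-/

set_option autoImplicit false
set_option linter.unusedSectionVars false

namespace Pool.Agent.H287R3.LR

open Finset Pool.Agent.H630R2.LR Equiv Equiv.Perm

section transcripts

variable {X Y : Type*} (owner : List Bool → Bool) (a : List Bool → X → Bool)
  (b : List Bool → Y → Bool)

/-- the transcript after `k` bits -/
def tr (x : X) (y : Y) (k : ℕ) : List Bool :=
  Nat.iterate (fun t : List Bool => t ++ [if owner t then a t x else b t y]) k []

theorem tr_succ (x : X) (y : Y) (k : ℕ) : tr owner a b x y (k + 1) =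
    tr owner a b x y k ++ [if owner (tr owner a b x y k) then a (tr owner a b x y k) x
      else b (tr owner a b x y k) y] := by
  unfold tr
  rw [Function.iterate_succ_apply']

theorem tr_length (x : X) (y : Y) (k : ℕ) : (tr owner a b x y k).length = k := by
  induction k with
  | zero => rfl
  | succ k ih => rw [tr_succ, List.length_append, ih]; rfl

theorem tr_take (x : X) (y : Y) (k m : ℕ) :
    (tr owner a b x y (k + m)).take k = tr owner a b x y k := by
  induction m with
  | zero => rw [Nat.add_zero]; exact List.take_of_length_le (tr_length owner a b x y k).le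
  | succ m ih =>
    rw [← Nat.add_assoc, tr_succ, List.take_append_of_le_length, ih]
    rw [tr_length]
    omega

/-- the rectangle property -/
theorem tr_rect (x x' : X) (y y' : Y) (c : ℕ)
    (h : tr owner a b x y c = tr owner a b x' y' c) :
    tr owner a b x y' c = tr owner a b x y c := by
  have hk : ∀ k ≤ c, tr owner a b x y k = tr owner a b x' y' k := by
    intro k hk
    obtain ⟨m, rfl⟩ := Nat.exists_eq_add_of_le hk
    rw [← tr_take owner a b x y k m, h, tr_take]
  have key : ∀ k ≤ c, tr owner a b x y' k = tr owner a b x y k := by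
    intro k
    induction k with
    | zero => intro _; rfl
    | succ k ih =>
      intro hkc
      have h1 := ih (by omega)
      have h2 := hk k (by omega)
      have h3 := hk (k + 1) hkc
      have e1 := tr_succ owner a b x y' k
      rw [h1] at e1
      by_cases ho : owner (tr owner a b x y k) = true
      · rw [e1, tr_succ owner a b x y k]
        simp only [ho, if_true]
      · rw [e1, h3, tr_succ owner a b x' y' k, ← h2]
        simp only [ho, Bool.false_eq_true, if_false]
  exact key c le_rfl

end transcripts

/-- A protocol for adjacency with `c` bits gives a proper colouring with `2 ^ c` colours. -/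
theorem colorable_of_proto {V : Type*} (G : SimpleGraph V) [DecidableRel G.Adj] {c : ℕ}
    (h : Proto (fun u v : V => decide (G.Adj u v)) c) : G.Colorable (2 ^ c) := by
  obtain ⟨owner, a, b, out, hout⟩ := h
  have hcol : G.Coloring (List.Vector Bool c) := by
    refine SimpleGraph.Coloring.mk (fun v => ⟨tr owner a b v v c, tr_length owner a b v v c⟩) ?_
    intro u v huv heq
    have h1 : tr owner a b u u c = tr owner a b v v c := congrArg Subtype.val heq
    have h2 := tr_rect owner a b u v u v c h1
    have h3 := hout u v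
    have h4 := hout u u
    change out (tr owner a b u v c) = _ at h3
    change out (tr owner a b u u c) = _ at h4
    rw [h2, h4] at h3
    simp [huv] at h3
  have := hcol.colorable
  rw [card_vector, Fintype.card_bool] at this
  exact this

/-- The same as an inequality for the logarithm of the chromatic number. -/
theorem logb_chromatic_le {V : Type} [Fintype V] (G : SimpleGraph V) [DecidableRel G.Adj] {c : ℕ}
    (h : Proto (fun u v : V => decide (G.Adj u v)) c) :
    Real.logb 2 (G.chromaticNumber.toNat : ℝ) ≤ c := by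
  have h1 := colorable_of_proto G h
  have h2 : G.chromaticNumber ≤ ((2 ^ c : ℕ) : ℕ∞) := h1.chromaticNumber_le
  have h3 : G.chromaticNumber.toNat ≤ 2 ^ c := by
    have := ENat.toNat_le_toNat h2 (ENat.natCast_ne_top _)
    rwa [ENat.toNat_coe] at this
  rcases Nat.eq_zero_or_pos G.chromaticNumber.toNat with h0 | h0
  · rw [h0]
    simp
  · rw [Real.logb_le_iff_le_rpow (by norm_num) (by exact_mod_cast h0), Real.rpow_natCast]
    exact_mod_cast h3

theorem comm_adj {V : Type} [Fintype V] (G : SimpleGraph V) [DecidableRel G.Adj] :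
    comm (fun u v : V => decide (G.Adj u v)) = G.adjMatrix ℝ := by
  ext u v
  show (if decide (G.Adj u v) = true then (1 : ℝ) else 0) = _
  rw [SimpleGraph.adjMatrix_apply]
  simp

/-- graphs with symmetric group symmetry -/
theorem graph_sym (n : ℕ) {V : Type} [Fintype V] [MulAction (Perm (Fin n)) V] (G : SimpleGraph V)
    [DecidableRel G.Adj] (hG : ∀ (g : Perm (Fin n)) (u v : V), G.Adj (g • u) (g • v) ↔ G.Adj u v)
    (t : ℕ) (ht : Nat.card (MulAction.orbitRel.Quotient (Perm (Fin n)) V) ≤ t) :
    Real.logb 2 (G.chromaticNumber.toNat : ℝ) ≤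
      1347 * (Real.logb 2 ((G.adjMatrix ℝ).rank : ℝ) + 1) ^ 9 + 2 * (Real.logb 2 t + 1) := by
  obtain ⟨c, h1, h2⟩ := final_sym n (fun u v : V => decide (G.Adj u v))
    (fun g u v => by simp only [hG]) t ht ht
  rw [comm_adj] at h2
  exact (logb_chromatic_le G h1).trans h2

/-- graphs with a product of perfect groups as symmetries -/
theorem graph_quasi {I : Type} [Fintype I] [DecidableEq I] {H : I → Type} [∀ i, Group (H i)]
    [∀ i, Fintype (H i)] (hperf : ∀ i, commutator (H i) = ⊤) (κ : ℝ) (hκ : 0 ≤ κ)
    (s : ℕ) (hrep : ∀ (i : I) (d : ℕ) (ρ : H i →* Matrix.GeneralLinearGroup (Fin d) ℂ), ρ ≠ 1 →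
      Real.logb 2 (Nat.card (H i)) ≤ κ * (Real.logb 2 d) ^ s) {V : Type} [Fintype V]
    [MulAction (∀ i, H i) V] (G : SimpleGraph V)
    [DecidableRel G.Adj] (hG : ∀ (g : ∀ i, H i) (u v : V), G.Adj (g • u) (g • v) ↔ G.Adj u v)
    (t : ℕ) (ht : Nat.card (MulAction.orbitRel.Quotient (∀ i, H i) V) ≤ t) :
    Real.logb 2 (G.chromaticNumber.toNat : ℝ) ≤
      2 * (κ * (Real.logb 2 ((G.adjMatrix ℝ).rank : ℝ)) ^ s + 1) *
        (Real.logb 2 ((G.adjMatrix ℝ).rank : ℝ)) ^ 4 + 2 * (Real.logb 2 t + 1) := by
  obtain ⟨c, h1, h2⟩ := final_quasi hperf κ hκ s hrep (fun u v : V => decide (G.Adj u v))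
    (fun g u v => by simp only [hG]) t ht ht
  rw [comm_adj] at h2
  exact (logb_chromatic_le G h1).trans h2

end Pool.Agent.H287R3.LR
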