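import Pool.Agent.H287R3.LR.Quasi

/-!
# Products of alternating groups and quasirandom groups: sensitivity bound
-/

set_option autoImplicit false
set_option linter.unusedSectionVars false

namespace Pool.Agent.H287R3.LR

open Finset Pool.Agent.H630R2.LR Equiv Equiv.Perm Module
open scoped commutatorElement

section tw

variable {β : Type} [Fintype β] [DecidableEq β]

/-- permutations supported in `B`, possibly times the involution `c` -/
def tw (B : Finset β) (c : Perm β) (hc : c * c = 1) (hcomm : ∀ a ∈ symOn B, Commute a c) :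
    Subgroup (Perm β) where
  carrier := {g | ∃ a ∈ symOn B, g = a ∨ g = a * c}
  one_mem' := ⟨1, one_mem _, Or.inl rfl⟩
  mul_mem' := by
    rintro x y ⟨a, ha, hx⟩ ⟨b, hb, hy⟩
    have hbc : c * b = b * c := (hcomm b hb).symm
    refine ⟨a * b, mul_mem ha hb, ?_⟩
    rcases hx with rfl | rfl <;> rcases hy with rfl | rfl
    · left; rfl
    · right; rw [mul_assoc]
    · right; rw [mul_assoc, hbc, ← mul_assoc]
    · left
      calc a * c * (b * c) = a * (c * b) * c := by group
        _ = a * b * (c * c) := by rw [hbc]; group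
        _ = a * b := by rw [hc, mul_one]
  inv_mem' := by
    rintro x ⟨a, ha, hx⟩
    have hci : c⁻¹ = c := by
      rw [inv_eq_iff_mul_eq_one]
      exact hc
    have hac : c * a⁻¹ = a⁻¹ * c := (hcomm a⁻¹ (inv_mem ha)).symm
    refine ⟨a⁻¹, inv_mem ha, ?_⟩
    rcases hx with rfl | rfl
    · left; rfl
    · right
      rw [mul_inv_rev, hci, hac]

theorem tw_commute {B B' : Finset β} (hB : Disjoint B B') {c : Perm β} {hc : c * c = 1}
    {hcomm : ∀ a ∈ symOn B, Commute a c} {hc' : c * c = 1}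
    {hcomm' : ∀ a ∈ symOn B', Commute a c} {g g' : Perm β} (hg : g ∈ tw B c hc hcomm)
    (hg' : g' ∈ tw B' c hc' hcomm') : Commute g g' := by
  obtain ⟨a, ha, hx⟩ := hg
  obtain ⟨b, hb, hy⟩ := hg'
  have h1 : Commute a b := symOn_commute hB ha hb
  have h2 : Commute a c := hcomm a ha
  have h3 : Commute b c := hcomm' b hb
  rcases hx with rfl | rfl <;> rcases hy with rfl | rfl
  · exact h1
  · exact h1.mul_right h2
  · exact h1.mul_left h3.symm
  · exact (h1.mul_right h2).mul_left (h3.symm.mul_right (Commute.refl c))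

theorem even_mem_tw {B : Finset β} {c : Perm β} {hc : c * c = 1}
    {hcomm : ∀ a ∈ symOn B, Commute a c} (hsc : sign c = -1) {π : Perm β}
    (hπ : π.support ⊆ B) (hs : sign π = 1) :
    π ∈ ⁅tw B c hc hcomm ⊓ alternatingGroup β, tw B c hc hcomm ⊓ alternatingGroup β⁆ := by
  have h1 := even_mem_comm hπ hs
  have h2 : ⁅symOn B, symOn B⁆ ≤
      ⁅tw B c hc hcomm ⊓ alternatingGroup β, tw B c hc hcomm ⊓ alternatingGroup β⁆ := by
    rw [Subgroup.commutator_le]
    intro a ha b hb
    have key : ∀ a ∈ symOn B, ∃ a' ∈ tw B c hc hcomm ⊓ alternatingGroup β, a' = a ∨ a' = a * c := by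
      intro a ha
      rcases Int.units_eq_one_or (sign a) with h | h
      · exact ⟨a, ⟨⟨a, ha, Or.inl rfl⟩, mem_alternatingGroup.2 h⟩, Or.inl rfl⟩
      · refine ⟨a * c, ⟨⟨a, ha, Or.inr rfl⟩, ?_⟩, Or.inr rfl⟩
        show a * c ∈ alternatingGroup β
        rw [mem_alternatingGroup, map_mul, h, hsc]
        decide
    obtain ⟨a', ha', hxa⟩ := key a ha
    obtain ⟨b', hb', hxb⟩ := key b hb
    have hci : c⁻¹ = c := by
      rw [inv_eq_iff_mul_eq_one]
      exact hc
    have hac : c * a = a * c := (hcomm a ha).symm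
    have hbc : c * b = b * c := (hcomm b hb).symm
    have hac' : c * a⁻¹ = a⁻¹ * c := (hcomm a⁻¹ (inv_mem ha)).symm
    have hbc' : c * b⁻¹ = b⁻¹ * c := (hcomm b⁻¹ (inv_mem hb)).symm
    have hcc : ∀ z : Perm β, c * (c * z) = z := by
      intro z
      rw [← mul_assoc, hc, one_mul]
    have e : ⁅a', b'⁆ = ⁅a, b⁆ := by
      simp only [commutatorElement_def]
      rcases hxa with rfl | rfl <;> rcases hxb with rfl | rfl
      · rfl
      · rw [mul_inv_rev, hci]
        calc a' * (b * c) * a'⁻¹ * (c * b⁻¹) = a' * b * (c * a'⁻¹) * (c * b⁻¹) := by group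
          _ = a' * b * a'⁻¹ * (c * (c * b⁻¹)) := by rw [hac']; group
          _ = a' * b * a'⁻¹ * b⁻¹ := by rw [hcc]
      · rw [mul_inv_rev, hci]
        calc a * c * b' * (c * a⁻¹) * b'⁻¹ = a * (c * b') * (c * a⁻¹) * b'⁻¹ := by group
          _ = a * b' * (c * (c * a⁻¹)) * b'⁻¹ := by rw [hbc]; group
          _ = a * b' * a⁻¹ * b'⁻¹ := by rw [hcc]
      · rw [mul_inv_rev, mul_inv_rev, hci]
        calc a * c * (b * c) * (c * a⁻¹) * (c * b⁻¹) = a * (c * b) * (c * (c * a⁻¹)) * (c * b⁻¹) := by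
              group
          _ = a * b * (c * a⁻¹) * (c * b⁻¹) := by rw [hcc, hbc]; group
          _ = a * b * a⁻¹ * (c * (c * b⁻¹)) := by rw [hac']; group
          _ = a * b * a⁻¹ * b⁻¹ := by rw [hcc]
    rw [← e]
    exact Subgroup.commutator_mem_commutator ha' hb'
  exact h2 h1

end tw

/-- coordinate data: every coordinate group is either a (large) alternating group or a perfect group
acting freely -/
structure Data {I : Type} (G : I → Type) [∀ i, Group (G i)]
    (α : I → Type) [∀ i, Fintype (α i)] [∀ i, DecidableEq (α i)] (N : ℕ) where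
  φ : ∀ i, G i →* Perm (α i)
  inj : ∀ i, Function.Injective (φ i)
  S : I → Prop
  base : ∀ i, α i
  alt : ∀ i, S i → (φ i).range = alternatingGroup (α i)
  big : ∀ i, S i → N ≤ Fintype.card (α i)
  perf : ∀ i, ¬ S i → commutator (G i) = ⊤
  free : ∀ i, ¬ S i → ∀ (g : G i) (a : α i), φ i g a = a → g = 1

section data

variable {I : Type} [Fintype I] [DecidableEq I] {G : I → Type} [∀ i, Group (G i)]
  [∀ i, Fintype (G i)] {α : I → Type} [∀ i, Fintype (α i)] [∀ i, DecidableEq (α i)] {N : ℕ}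
  (D : Data G α N)

/-- the permutation action on all sites -/
def Data.Φ : (∀ i, G i) →* Perm (Σ i, α i) :=
  (sigmaCongrRightHom α).comp (MonoidHom.piMap D.φ)

theorem Data.Φ_apply (g : ∀ i, G i) (i : I) (a : α i) :
    D.Φ g ⟨i, a⟩ = ⟨i, D.φ i (g i) a⟩ := rfl

theorem Data.Φ_fst (g : ∀ i, G i) (ω : Σ i, α i) : (D.Φ g ω).1 = ω.1 := rfl

open Classical in
/-- the reduced support -/
noncomputable def Data.rs (g : ∀ i, G i) : Finset (Σ i, α i) :=
  univ.filter (fun ω => D.Φ g ω ≠ ω ∧ (D.S ω.1 ∨ ω.2 = D.base ω.1))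

theorem Data.mem_rs {g : ∀ i, G i} {ω : Σ i, α i} :
    ω ∈ D.rs g ↔ D.Φ g ω ≠ ω ∧ (D.S ω.1 ∨ ω.2 = D.base ω.1) := by
  classical
  unfold Data.rs
  simp

theorem Data.Φ_ne_iff (g : ∀ i, G i) (i : I) (a : α i) :
    D.Φ g ⟨i, a⟩ ≠ ⟨i, a⟩ ↔ D.φ i (g i) a ≠ a := by
  rw [D.Φ_apply]
  simp

theorem Data.mem_rs_S {g : ∀ i, G i} {i : I} (hi : D.S i) {a : α i} :
    (⟨i, a⟩ : Σ i, α i) ∈ D.rs g ↔ D.φ i (g i) a ≠ a := by
  rw [D.mem_rs, D.Φ_ne_iff]
  simp [hi]

theorem Data.mem_rs_L {g : ∀ i, G i} {i : I} (hi : ¬ D.S i) {a : α i} :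
    (⟨i, a⟩ : Σ i, α i) ∈ D.rs g ↔ g i ≠ 1 ∧ a = D.base i := by
  rw [D.mem_rs, D.Φ_ne_iff]
  constructor
  · rintro ⟨h1, h2⟩
    refine ⟨?_, ?_⟩
    · intro h
      apply h1
      rw [h, map_one]
      rfl
    · rcases h2 with h | h
      · exact absurd h hi
      · exact h
  · rintro ⟨h1, h2⟩
    exact ⟨fun h => h1 (D.free i hi _ _ h), Or.inr h2⟩

/-- rank of the matrix `f(x⁻¹ y)` -/
noncomputable def rkG (f : (∀ i, G i) → Bool) : ℕ :=
  (comm (fun x y : ∀ i, G i => f (x⁻¹ * y))).rank

theorem sens_bound_prod (f : (∀ i, G i) → Bool) (σ : ∀ i, G i) {b : ℕ} (π : Fin b → ∀ i, G i)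
    (hd : ∀ j k, j ≠ k → Disjoint (D.rs (π j)) (D.rs (π k)))
    (hcard : (∑ j, (D.rs (π j)).card) + 2 ≤ N) (hf : ∀ j, f (π j * σ) ≠ f σ) :
    b ≤ (Nat.log 2 (rkG f)) ^ 2 := by
  classical
  -- spare points
  have hspare : ∀ i, D.S i → ∃ p q : α i, p ≠ q ∧ (∀ j, (⟨i, p⟩ : Σ i, α i) ∉ D.rs (π j)) ∧
      (∀ j, (⟨i, q⟩ : Σ i, α i) ∉ D.rs (π j)) := by
    intro i hi
    set T : Finset (α i) := univ.filter (fun a => ∃ j, (⟨i, a⟩ : Σ i, α i) ∈ D.rs (π j)) with hT
    have hTc : T.card ≤ ∑ j, (D.rs (π j)).card := by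
      calc T.card = (T.image (fun a => (⟨i, a⟩ : Σ i, α i))).card := by
            rw [Finset.card_image_of_injective]
            exact sigma_mk_injective
        _ ≤ (univ.biUnion (fun j => D.rs (π j))).card := by
            apply Finset.card_le_card
            intro ω hω
            rw [Finset.mem_image] at hω
            obtain ⟨a, ha, rfl⟩ := hω
            rw [hT, Finset.mem_filter] at ha
            obtain ⟨_, j, hj⟩ := ha
            rw [Finset.mem_biUnion]
            exact ⟨j, Finset.mem_univ _, hj⟩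
        _ ≤ ∑ j, (D.rs (π j)).card := Finset.card_biUnion_le
    have hc : 1 < Tᶜ.card := by
      rw [Finset.card_compl]
      have := D.big i hi
      omega
    rw [Finset.one_lt_card] at hc
    obtain ⟨p, hp, q, hq, hpq⟩ := hc
    refine ⟨p, q, hpq, ?_, ?_⟩
    · intro j hj
      rw [Finset.mem_compl, hT, Finset.mem_filter] at hp
      exact hp ⟨Finset.mem_univ _, j, hj⟩
    · intro j hj
      rw [Finset.mem_compl, hT, Finset.mem_filter] at hq
      exact hq ⟨Finset.mem_univ _, j, hj⟩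
  choose p q hpq hp hq using hspare
  -- supports in one coordinate
  let B : Fin b → ∀ i, Finset (α i) := fun j i => (D.φ i (π j i)).support
  have hpB : ∀ j i (hi : D.S i), p i hi ∉ B j i := by
    intro j i hi h
    exact hp i hi j ((D.mem_rs_S hi).2 (mem_support.1 h))
  have hqB : ∀ j i (hi : D.S i), q i hi ∉ B j i := by
    intro j i hi h
    exact hq i hi j ((D.mem_rs_S hi).2 (mem_support.1 h))
  have hcc : ∀ i (hi : D.S i), Equiv.swap (p i hi) (q i hi) * Equiv.swap (p i hi) (q i hi) = 1 :=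
    fun i hi => Equiv.swap_mul_self _ _
  have hcomm : ∀ j i (hi : D.S i), ∀ a ∈ symOn (B j i),
      Commute a (Equiv.swap (p i hi) (q i hi)) := by
    intro j i hi a ha
    apply Equiv.Perm.Disjoint.commute
    intro x
    by_cases hx : x ∈ B j i
    · right
      apply Equiv.swap_apply_of_ne_of_ne
      · rintro rfl
        exact hpB j i hi hx
      · rintro rfl
        exact hqB j i hi hx
    · left
      exact mem_symOn_fix ha hx
  let Hc : Fin b → ∀ i, Subgroup (G i) := fun j i =>
    if hi : D.S i then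
      Subgroup.comap (D.φ i) (tw (B j i) (Equiv.swap (p i hi) (q i hi)) (hcc i hi)
        (hcomm j i hi) ⊓ alternatingGroup (α i))
    else if π j i = 1 then ⊥ else ⊤
  apply bs_bound f σ (fun j => Subgroup.pi Set.univ (Hc j)) π
  · intro j
    rw [Subgroup.commutator_pi_pi_of_finite, Subgroup.mem_pi]
    intro i _
    by_cases hi : D.S i
    · have e : Hc j i = Subgroup.comap (D.φ i) (tw (B j i) (Equiv.swap (p i hi) (q i hi)) (hcc i hi)
        (hcomm j i hi) ⊓ alternatingGroup (α i)) := by simp only [Hc, dif_pos hi]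
      have h1 : D.φ i (π j i) ∈ ⁅tw (B j i) (Equiv.swap (p i hi) (q i hi)) (hcc i hi)
          (hcomm j i hi) ⊓ alternatingGroup (α i), tw (B j i) (Equiv.swap (p i hi) (q i hi))
          (hcc i hi) (hcomm j i hi) ⊓ alternatingGroup (α i)⁆ := by
        apply even_mem_tw
        · exact sign_swap (hpq i hi)
        · exact Finset.Subset.refl _
        · rw [← mem_alternatingGroup, ← D.alt i hi]
          exact ⟨_, rfl⟩
      have h2 : Subgroup.map (D.φ i) (Hc j i) = tw (B j i) (Equiv.swap (p i hi) (q i hi))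
          (hcc i hi) (hcomm j i hi) ⊓ alternatingGroup (α i) := by
        rw [e, Subgroup.map_comap_eq, D.alt i hi]
        exact inf_eq_right.2 inf_le_right
      rw [← h2, ← Subgroup.map_commutator] at h1
      obtain ⟨g, hg, hg2⟩ := h1
      rw [D.inj i hg2] at hg
      exact hg
    · by_cases h1 : π j i = 1
      · rw [h1]
        exact one_mem _
      · have e : Hc j i = ⊤ := by simp only [Hc, dif_neg hi, if_neg h1]
        rw [e, ← commutator_def, D.perf i hi]
        exact Subgroup.mem_top _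
  · intro j k hjk g hg h hh
    rw [Subgroup.mem_pi] at hg hh
    rw [Commute, SemiconjBy]
    funext i
    have hgi := hg i (Set.mem_univ i)
    have hhi := hh i (Set.mem_univ i)
    rw [Pi.mul_apply, Pi.mul_apply]
    by_cases hi : D.S i
    · simp only [Hc, dif_pos hi] at hgi hhi
      apply D.inj i
      rw [map_mul, map_mul]
      have hdisj : Disjoint (B j i) (B k i) := by
        rw [Finset.disjoint_left]
        intro a ha ha'
        exact (Finset.disjoint_left.1 (hd j k hjk)) ((D.mem_rs_S hi).2 (mem_support.1 ha))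
          ((D.mem_rs_S hi).2 (mem_support.1 ha'))
      exact tw_commute hdisj hgi.1 hhi.1
    · simp only [Hc, dif_neg hi] at hgi hhi
      have hone : π j i = 1 ∨ π k i = 1 := by
        by_contra hcon
        rw [not_or] at hcon
        exact (Finset.disjoint_left.1 (hd j k hjk)) ((D.mem_rs_L hi).2 ⟨hcon.1, rfl⟩)
          ((D.mem_rs_L hi).2 ⟨hcon.2, rfl⟩)
      rcases hone with h1 | h1
      · rw [if_pos h1, Subgroup.mem_bot] at hgi
        rw [hgi, one_mul, mul_one]
      · rw [if_pos h1, Subgroup.mem_bot] at hhi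
        rw [hhi, one_mul, mul_one]
  · exact hf

end data

end Pool.Agent.H287R3.LR
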