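import Pool.Agent.H287R3.LR.ProdA

/-!
# Products of alternating groups and quasirandom groups: certificates
-/

set_option autoImplicit false
set_option linter.unusedSectionVars false

namespace Pool.Agent.H287R3.LR

open Finset Pool.Agent.H630R2.LR Equiv Equiv.Perm Module

section data

variable {I : Type} [Fintype I] [DecidableEq I] {G : I → Type} [∀ i, Group (G i)]
  [∀ i, Fintype (G i)] {α : I → Type} [∀ i, Fintype (α i)] [∀ i, DecidableEq (α i)] {N : ℕ}
  (D : Data G α N)

/-- `(log₂ rank)² + 1` -/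
noncomputable def kk (f : (∀ i, G i) → Bool) : ℕ := (Nat.log 2 (rkG f)) ^ 2 + 1

/-- a sensitive permutation of one coordinate, fixing one more point of the support of `π` -/
theorem exists_step (π : ∀ i, G i) (U : Finset (Σ i, α i)) (hU : 12 * U.card < 3 * (D.rs π).card)
    (hUs : U ⊆ D.rs π) :
    ∃ ν : ∀ i, G i, (D.rs ν) ⊆ D.rs π ∧ (D.rs ν).card ≤ 3 ∧ (D.rs ν).Nonempty ∧
      Disjoint (D.rs ν) U ∧ (D.rs (ν * π)).card < (D.rs π).card ∧ D.rs (ν * π) ⊆ D.rs π := by
  classical
  by_cases hL : ∃ ω ∈ D.rs π, ω ∉ U ∧ ¬ D.S ω.1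
  · obtain ⟨⟨i, a⟩, hω, hωU, hi⟩ := hL
    have hi' : ¬ D.S i := hi
    obtain ⟨hne, rfl⟩ := (D.mem_rs_L hi').1 hω
    set ν : ∀ i, G i := Pi.mulSingle i ((π i)⁻¹) with hν
    have hνi : ν i = (π i)⁻¹ := Pi.mulSingle_eq_same i _
    have hνj : ∀ j, j ≠ i → ν j = 1 := fun j hj => Pi.mulSingle_eq_of_ne hj _
    have hrs : ∀ ω' : Σ i, α i, ω' ∈ D.rs ν → ω' = ⟨i, D.base i⟩ := by
      rintro ⟨j, a⟩ h
      by_cases hj : j = i
      · subst hj
        rw [((D.mem_rs_L hi').1 h).2]
      · exfalso
        rw [D.mem_rs, D.Φ_ne_iff, hνj j hj, map_one] at h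
        exact h.1 rfl
    have hmem : (⟨i, D.base i⟩ : Σ i, α i) ∈ D.rs ν := by
      rw [D.mem_rs_L hi']
      refine ⟨?_, rfl⟩
      rw [hνi]
      exact inv_ne_one.2 hne
    have hsub : D.rs (ν * π) ⊆ D.rs π := by
      rintro ⟨j, a⟩ h
      by_cases hj : j = i
      · subst hj
        exfalso
        apply ((D.mem_rs_L hi').1 h).1
        rw [Pi.mul_apply, hνi, inv_mul_cancel]
      · rw [D.mem_rs, D.Φ_ne_iff] at h ⊢
        rw [Pi.mul_apply, hνj j hj, one_mul] at h
        exact h
    refine ⟨ν, ?_, ?_, ⟨_, hmem⟩, ?_, ?_, hsub⟩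
    · intro ω' h
      rw [hrs ω' h]
      exact hω
    · have : D.rs ν ⊆ {⟨i, D.base i⟩} := by
        intro ω' h
        rw [Finset.mem_singleton]
        exact hrs ω' h
      have := Finset.card_le_card this
      rw [Finset.card_singleton] at this
      omega
    · rw [Finset.disjoint_left]
      intro ω' h
      rw [hrs ω' h]
      exact hωU
    · apply Finset.card_lt_card
      refine ⟨hsub, fun h => ?_⟩
      have := h hω
      apply ((D.mem_rs_L hi').1 this).1
      rw [Pi.mul_apply, hνi, inv_mul_cancel]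
  · push Not at hL
    -- all remaining sites are of alternating type
    set R := D.rs π with hR
    set U2 : Finset (Σ i, α i) := U.image (fun x => (D.Φ π)⁻¹ x) with hU2
    have hU2c : U2.card ≤ U.card := Finset.card_image_le
    let E : I → Finset (Σ i, α i) := fun i => (R \ U).filter (fun ω => ω.1 = i)
    set U3 : Finset (Σ i, α i) := U.biUnion (fun u => if (E u.1).card ≤ 2 then E u.1 else ∅) with hU3
    have hU3c : U3.card ≤ 2 * U.card := by
      calc U3.card ≤ ∑ u ∈ U, (if (E u.1).card ≤ 2 then E u.1 else ∅).card := Finset.card_biUnion_le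
        _ ≤ ∑ _u ∈ U, 2 := by
          apply Finset.sum_le_sum
          intro u _
          split_ifs with h
          · exact h
          · simp
        _ = 2 * U.card := by rw [Finset.sum_const, smul_eq_mul, mul_comm]
    have hb : ∃ b ∈ R, b ∉ U ∪ (U2 ∪ U3) := by
      by_contra hcon
      push Not at hcon
      have hle : R ⊆ U ∪ (U2 ∪ U3) := hcon
      have h1 := Finset.card_le_card hle
      have h2 := Finset.card_union_le U (U2 ∪ U3)
      have h3 := Finset.card_union_le U2 U3
      omega
    obtain ⟨⟨i, b⟩, hbR, hbU⟩ := hb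
    rw [Finset.mem_union, Finset.mem_union, not_or, not_or] at hbU
    obtain ⟨hbU1, hbU2, hbU3⟩ := hbU
    have hi : D.S i := hL _ hbR hbU1
    set P' : Perm (α i) := D.φ i (π i) with hP'
    have hbne : P' b ≠ b := (D.mem_rs_S hi).1 hbR
    have hPsign : sign P' = 1 := by
      rw [← mem_alternatingGroup, ← D.alt i hi]
      exact ⟨_, rfl⟩
    have hmemR : ∀ x, (⟨i, x⟩ : Σ i, α i) ∈ R ↔ P' x ≠ x := fun x => D.mem_rs_S hi
    have hπbU : (⟨i, P' b⟩ : Σ i, α i) ∉ U := by
      intro h
      apply hbU2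
      rw [hU2, Finset.mem_image]
      refine ⟨_, h, ?_⟩
      have : D.Φ π ⟨i, b⟩ = ⟨i, P' b⟩ := rfl
      rw [← this]
      simp
    -- at least three unused points in this coordinate
    have hE : 3 ≤ (E i).card := by
      by_cases hUi : ∃ u ∈ U, u.1 = i
      · obtain ⟨u, hu, hui⟩ := hUi
        by_contra hlt
        apply hbU3
        rw [hU3, Finset.mem_biUnion]
        refine ⟨u, hu, ?_⟩
        rw [hui, if_pos (by omega)]
        simp only [E, Finset.mem_filter, Finset.mem_sdiff]
        exact ⟨⟨hbR, hbU1⟩, trivial⟩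
      · push Not at hUi
        have h1 : P'.support.image (fun a => (⟨i, a⟩ : Σ i, α i)) ⊆ E i := by
          intro ω hω
          rw [Finset.mem_image] at hω
          obtain ⟨a, ha, rfl⟩ := hω
          simp only [E, Finset.mem_filter, Finset.mem_sdiff]
          refine ⟨⟨(hmemR a).2 (mem_support.1 ha), ?_⟩, trivial⟩
          intro h
          exact hUi _ h rfl
        have h2 := Finset.card_le_card h1
        rw [Finset.card_image_of_injective _ sigma_mk_injective] at h2
        have h3 : 2 ≤ P'.support.card := by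
          apply two_le_card_support_of_ne_one
          intro h
          apply hbne
          rw [h]
          rfl
        have h4 : P'.support.card ≠ 2 := by
          intro h
          rw [card_support_eq_two] at h
          have := h.sign_eq
          rw [hPsign] at this
          exact absurd this (by decide)
        omega
    have hc : ∃ c : α i, (⟨i, c⟩ : Σ i, α i) ∈ R ∧ (⟨i, c⟩ : Σ i, α i) ∉ U ∧ c ≠ b ∧ c ≠ P' b := by
      by_contra hcon
      push Not at hcon
      have h1 : E i ⊆ {⟨i, b⟩, ⟨i, P' b⟩} := by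
        rintro ⟨j, c⟩ hω
        simp only [E, Finset.mem_filter, Finset.mem_sdiff] at hω
        obtain ⟨⟨h1, h2⟩, rfl⟩ := hω
        rw [Finset.mem_insert, Finset.mem_singleton]
        by_cases hcb : c = b
        · left; rw [hcb]
        · right; rw [hcon c h1 h2 hcb]
      have h2 := Finset.card_le_card h1
      have h3 : ({⟨i, b⟩, ⟨i, P' b⟩} : Finset (Σ i, α i)).card ≤ 2 := Finset.card_le_two
      omega
    obtain ⟨c, hcR, hcU, hcb, hcπb⟩ := hc
    set ν' : Perm (α i) := Equiv.swap b (P' b) * Equiv.swap b c with hν'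
    have hνsign : sign ν' = 1 := by
      rw [hν', map_mul, sign_swap hbne.symm, sign_swap (Ne.symm hcb)]
      decide
    have hνr : ν' ∈ (D.φ i).range := by
      rw [D.alt i hi, mem_alternatingGroup]
      exact hνsign
    obtain ⟨γ, hγ⟩ := hνr
    set ν : ∀ i, G i := Pi.mulSingle i γ with hν
    have hνi : D.φ i (ν i) = ν' := by
      rw [hν, Pi.mulSingle_eq_same]
      exact hγ
    have hνj : ∀ j, j ≠ i → ν j = 1 := fun j hj => Pi.mulSingle_eq_of_ne hj _
    have hνfix : ∀ x, x ≠ b → x ≠ P' b → x ≠ c → ν' x = x := by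
      intro x h1 h2 h3
      rw [hν', Perm.mul_apply, Equiv.swap_apply_of_ne_of_ne h1 h3,
        Equiv.swap_apply_of_ne_of_ne h1 h2]
    have hPbR : (⟨i, P' b⟩ : Σ i, α i) ∈ R := by
      rw [hmemR]
      intro h
      exact hbne (P'.injective h)
    have hrsν : D.rs ν ⊆ {⟨i, b⟩, ⟨i, P' b⟩, ⟨i, c⟩} := by
      rintro ⟨j, x⟩ h
      by_cases hj : j = i
      · subst hj
        rw [D.mem_rs_S hi, hνi] at h
        by_contra hcon
        simp only [Finset.mem_insert, Finset.mem_singleton, not_or] at hcon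
        apply h
        apply hνfix
        · rintro rfl; exact hcon.1 rfl
        · intro h'; apply hcon.2.1; rw [h']
        · rintro rfl; exact hcon.2.2 rfl
      · exfalso
        rw [D.mem_rs, D.Φ_ne_iff, hνj j hj, map_one] at h
        exact h.1 rfl
    have hsub3 : ({⟨i, b⟩, ⟨i, P' b⟩, ⟨i, c⟩} : Finset (Σ i, α i)) ⊆ R := by
      intro ω hω
      simp only [Finset.mem_insert, Finset.mem_singleton] at hω
      rcases hω with rfl | rfl | rfl
      · exact hbR
      · exact hPbR
      · exact hcR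
    have hνπb : (ν' * P') b = b := by
      rw [Perm.mul_apply, hν', Perm.mul_apply,
        Equiv.swap_apply_of_ne_of_ne hbne (fun h => hcπb h.symm), Equiv.swap_apply_right]
    have hφνπ : D.φ i ((ν * π) i) = ν' * P' := by
      rw [Pi.mul_apply, map_mul, hνi]
    have hsub : D.rs (ν * π) ⊆ R := by
      rintro ⟨j, x⟩ h
      by_cases hj : j = i
      · subst hj
        rw [D.mem_rs_S hi, hφνπ] at h
        by_contra hcon
        have hx1 : P' x = x := by
          by_contra h'
          exact hcon ((hmemR x).2 h')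
        apply h
        rw [Perm.mul_apply, hx1]
        apply hνfix
        · rintro rfl; exact hcon hbR
        · intro h'
          apply hcon
          rw [h']
          exact hPbR
        · rintro rfl; exact hcon hcR
      · rw [D.mem_rs, D.Φ_ne_iff, Pi.mul_apply, hνj j hj, one_mul] at h
        rw [hR, D.mem_rs, D.Φ_ne_iff]
        exact h
    refine ⟨ν, hrsν.trans hsub3, (Finset.card_le_card hrsν).trans Finset.card_le_three, ?_, ?_, ?_,
      hsub⟩
    · refine ⟨⟨i, P' b⟩, ?_⟩
      rw [D.mem_rs_S hi, hνi]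
      intro h
      have : ν' (P' b) = b := hνπb
      rw [this] at h
      exact hbne h.symm
    · rw [Finset.disjoint_left]
      intro ω hω
      have := hrsν hω
      simp only [Finset.mem_insert, Finset.mem_singleton] at this
      rcases this with rfl | rfl | rfl
      · exact hbU1
      · exact hπbU
      · exact hcU
    · apply Finset.card_lt_card
      refine ⟨hsub, fun h => ?_⟩
      have h1 := h hbR
      rw [D.mem_rs_S hi, hφνπ] at h1
      exact h1 hνπb

/-- minimal sensitive elements have small support -/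
theorem min_support_prod (f : (∀ i, G i) → Bool) (hN : 12 * (kk f) ^ 2 + 2 ≤ N)
    (σ π : ∀ i, G i) (hf : f (π * σ) ≠ f σ)
    (hmin : ∀ π' : ∀ i, G i, (D.rs π').card < (D.rs π).card →
      D.rs π' ⊆ D.rs π → f (π' * σ) = f σ) :
    (D.rs π).card ≤ 12 * kk f := by
  classical
  by_contra hlt
  have hk1 : 1 ≤ kk f := by unfold kk; omega
  have key : ∀ m : ℕ, m ≤ kk f → ∃ ρ : Fin m → ∀ i, G i,
      (∀ l, D.rs (ρ l) ⊆ D.rs π ∧ (D.rs (ρ l)).card ≤ 3 ∧ f (ρ l * (π * σ)) ≠ f (π * σ)) ∧
      (∀ l l', l ≠ l' → Disjoint (D.rs (ρ l)) (D.rs (ρ l'))) := by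
    intro m
    induction m with
    | zero => intro _; exact ⟨fun i => i.elim0, fun i => i.elim0, fun i => i.elim0⟩
    | succ m ih =>
      intro hm
      obtain ⟨ρ, h1, h2⟩ := ih (by omega)
      set U : Finset (Σ i, α i) := univ.biUnion (fun l => D.rs (ρ l)) with hU
      have hUc : U.card ≤ 3 * m := by
        calc U.card ≤ ∑ l : Fin m, (D.rs (ρ l)).card := Finset.card_biUnion_le
          _ ≤ ∑ _l : Fin m, 3 := Finset.sum_le_sum (fun l _ => (h1 l).2.1)
          _ = 3 * m := by simp [mul_comm]
      have hUs : U ⊆ D.rs π := by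
        intro ω hω
        rw [hU, Finset.mem_biUnion] at hω
        obtain ⟨l, _, hl⟩ := hω
        exact (h1 l).1 hl
      obtain ⟨ν, n1, n2, _, n4, n5, n6⟩ := exists_step D π U (by omega) hUs
      have hval : f (ν * (π * σ)) ≠ f (π * σ) := by
        rw [← mul_assoc, hmin _ n5 n6]
        exact hf.symm
      refine ⟨Fin.cons ν ρ, ?_, ?_⟩
      · intro l
        refine Fin.cases ?_ (fun l => ?_) l
        · simp only [Fin.cons_zero]
          exact ⟨n1, n2, hval⟩
        · simp only [Fin.cons_succ]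
          exact h1 l
      · have hνl : ∀ l, Disjoint (D.rs ν) (D.rs (ρ l)) := by
          intro l
          apply Finset.disjoint_of_subset_right _ n4
          intro ω hω
          rw [hU, Finset.mem_biUnion]
          exact ⟨l, Finset.mem_univ _, hω⟩
        intro l l'
        refine Fin.cases ?_ (fun l => ?_) l
        · refine Fin.cases ?_ (fun l' => ?_) l'
          · intro h; exact absurd rfl h
          · intro _
            simp only [Fin.cons_zero, Fin.cons_succ]
            exact hνl l'
        · refine Fin.cases ?_ (fun l' => ?_) l'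
          · intro _
            simp only [Fin.cons_zero, Fin.cons_succ]
            exact (hνl l).symm
          · intro hij
            simp only [Fin.cons_succ]
            exact h2 l l' (fun h => hij (by rw [h]))
  obtain ⟨ρ, h1, h2⟩ := key (kk f) le_rfl
  have h3 : (∑ j, (D.rs (ρ j)).card) + 2 ≤ N := by
    have : ∑ j, (D.rs (ρ j)).card ≤ 3 * kk f := by
      calc ∑ j, (D.rs (ρ j)).card ≤ ∑ _j : Fin (kk f), 3 := Finset.sum_le_sum (fun l _ => (h1 l).2.1)
        _ = 3 * kk f := by simp [mul_comm]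
    nlinarith
  have := sens_bound_prod D f (π * σ) ρ h2 h3 (fun l => (h1 l).2.2)
  unfold kk at this
  omega

/-- certificates -/
theorem exists_cert_prod (f : (∀ i, G i) → Bool) (hN : 12 * (kk f) ^ 2 + 2 ≤ N) (σ : ∀ i, G i) :
    ∃ B : Finset (Σ i, α i), B.card ≤ 12 * (kk f) ^ 2 ∧ (∀ ω ∈ B, D.S ω.1 ∨ ω.2 = D.base ω.1) ∧
      ∀ ρ : ∀ i, G i, Disjoint (D.rs ρ) B → f (ρ * σ) = f σ := by
  classical
  set s := 12 * kk f with hs
  have key : ∀ j : ℕ, j ≤ kk f → (∃ B : Finset (Σ i, α i), B.card ≤ j * s ∧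
      (∀ ω ∈ B, D.S ω.1 ∨ ω.2 = D.base ω.1) ∧
      ∀ ρ : ∀ i, G i, Disjoint (D.rs ρ) B → f (ρ * σ) = f σ) ∨
      (∃ π : Fin j → ∀ i, G i, (∀ l, (D.rs (π l)).card ≤ s ∧ f (π l * σ) ≠ f σ) ∧
        (∀ l l', l ≠ l' → Disjoint (D.rs (π l)) (D.rs (π l')))) := by
    intro j
    induction j with
    | zero => intro _; right; exact ⟨fun i => i.elim0, fun i => i.elim0, fun i => i.elim0⟩
    | succ j ih =>
      intro hj
      rcases ih (by omega) with ⟨B, hB, hc⟩ | ⟨π, h1, h2⟩
      · left
        exact ⟨B, hB.trans (Nat.mul_le_mul_right _ (Nat.le_succ j)), hc⟩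
      · set B : Finset (Σ i, α i) := univ.biUnion (fun l => D.rs (π l)) with hBdef
        have hBc : B.card ≤ j * s := by
          calc B.card ≤ ∑ l : Fin j, (D.rs (π l)).card := Finset.card_biUnion_le
            _ ≤ ∑ _l : Fin j, s := Finset.sum_le_sum (fun l _ => (h1 l).1)
            _ = j * s := by simp
        have hBt : ∀ ω ∈ B, D.S ω.1 ∨ ω.2 = D.base ω.1 := by
          intro ω hω
          rw [hBdef, Finset.mem_biUnion] at hω
          obtain ⟨l, _, hl⟩ := hω
          exact (D.mem_rs.1 hl).2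
        by_cases hcert : ∀ ρ : ∀ i, G i, Disjoint (D.rs ρ) B → f (ρ * σ) = f σ
        · left
          exact ⟨B, hBc.trans (Nat.mul_le_mul_right _ (Nat.le_succ j)), hBt, hcert⟩
        · right
          have hne : (univ.filter (fun ρ : ∀ i, G i => Disjoint (D.rs ρ) B ∧
              f (ρ * σ) ≠ f σ)).Nonempty := by
            push Not at hcert
            obtain ⟨ρ, b, c⟩ := hcert
            exact ⟨ρ, by simp [b, c]⟩
          obtain ⟨ν, hν, hmin⟩ := Finset.exists_min_image _ (fun ρ : ∀ i, G i => (D.rs ρ).card) hne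
          rw [Finset.mem_filter] at hν
          obtain ⟨-, hν2, hν3⟩ := hν
          have hνc : (D.rs ν).card ≤ s := by
            apply min_support_prod D f hN σ ν hν3
            intro π' hlt hsub
            by_contra hcon
            have := hmin π' (by
              rw [Finset.mem_filter]
              exact ⟨Finset.mem_univ _, Finset.disjoint_of_subset_left hsub hν2, hcon⟩)
            omega
          refine ⟨Fin.cons ν π, ?_, ?_⟩
          · intro l
            refine Fin.cases ?_ (fun l => ?_) l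
            · simp only [Fin.cons_zero]
              exact ⟨hνc, hν3⟩
            · simp only [Fin.cons_succ]
              exact h1 l
          · have hνl : ∀ l, Disjoint (D.rs ν) (D.rs (π l)) := by
              intro l
              apply Finset.disjoint_of_subset_right _ hν2
              intro ω hω
              rw [hBdef, Finset.mem_biUnion]
              exact ⟨l, Finset.mem_univ _, hω⟩
            intro l l'
            refine Fin.cases ?_ (fun l => ?_) l
            · refine Fin.cases ?_ (fun l' => ?_) l'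
              · intro h; exact absurd rfl h
              · intro _
                simp only [Fin.cons_zero, Fin.cons_succ]
                exact hνl l'
            · refine Fin.cases ?_ (fun l' => ?_) l'
              · intro _
                simp only [Fin.cons_zero, Fin.cons_succ]
                exact (hνl l).symm
              · intro hij
                simp only [Fin.cons_succ]
                exact h2 l l' (fun h => hij (by rw [h]))
  rcases key (kk f) le_rfl with ⟨B, h1, h2, h3⟩ | ⟨π, h1, h2⟩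
  · refine ⟨B, ?_, h2, h3⟩
    calc B.card ≤ kk f * s := h1
      _ = 12 * (kk f) ^ 2 := by rw [hs]; ring
  · exfalso
    have h3 : (∑ j, (D.rs (π j)).card) + 2 ≤ N := by
      have : ∑ j, (D.rs (π j)).card ≤ kk f * s := by
        calc ∑ j, (D.rs (π j)).card ≤ ∑ _j : Fin (kk f), s := Finset.sum_le_sum (fun l _ => (h1 l).1)
          _ = kk f * s := by simp
      have e : kk f * s = 12 * (kk f) ^ 2 := by rw [hs]; ring
      omega
    have := sens_bound_prod D f σ π h2 h3 (fun l => (h1 l).2)
    unfold kk at this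
    omega

/-- certificates in the domain -/
theorem exists_cert_prod' (f : (∀ i, G i) → Bool) (hN : 12 * (kk f) ^ 2 + 2 ≤ N) (σ : ∀ i, G i) :
    ∃ A : Finset (Σ i, α i), A.card ≤ 12 * (kk f) ^ 2 ∧ (∀ ω ∈ A, D.S ω.1 ∨ ω.2 = D.base ω.1) ∧
      ∀ τ : ∀ i, G i, (∀ ω ∈ A, D.Φ τ ω = D.Φ σ ω) → f τ = f σ := by
  classical
  obtain ⟨B, hB, hBt, hc⟩ := exists_cert_prod D f hN σ
  refine ⟨B.image (fun ω => if D.S ω.1 then (D.Φ σ)⁻¹ ω else ω),
    le_trans Finset.card_image_le hB, ?_, ?_⟩
  · intro ω hω
    rw [Finset.mem_image] at hω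
    obtain ⟨ω', h1, rfl⟩ := hω
    by_cases hS : D.S ω'.1
    · rw [if_pos hS]
      left
      have : ((D.Φ σ)⁻¹ ω').1 = ω'.1 := by
        rw [← map_inv]
        rfl
      rw [this]
      exact hS
    · rw [if_neg hS]
      exact hBt ω' h1
  · intro τ h
    have h1 := hc (τ * σ⁻¹) ?_
    · rwa [inv_mul_cancel_right] at h1
    · rw [Finset.disjoint_right]
      intro ω hω hωr
      have h2 := h _ (Finset.mem_image_of_mem _ hω)
      by_cases hS : D.S ω.1
      · rw [if_pos hS] at h2
        have h3 : D.Φ (τ * σ⁻¹) ω = ω := by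
          rw [map_mul, map_inv, Perm.mul_apply, h2]
          exact Equiv.apply_symm_apply (D.Φ σ) ω
        exact (D.mem_rs.1 hωr).1 h3
      · rw [if_neg hS] at h2
        obtain ⟨i, a⟩ := ω
        have hS' : ¬ D.S i := hS
        apply ((D.mem_rs_L hS').1 hωr).1
        have h4 : D.φ i (τ i) a = D.φ i (σ i) a := by
          rw [D.Φ_apply, D.Φ_apply] at h2
          exact eq_of_heq (Sigma.mk.inj h2).2
        have h5 : D.φ i ((σ i)⁻¹ * τ i) a = a := by
          rw [map_mul, map_inv, Perm.mul_apply, h4]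
          exact Equiv.symm_apply_apply (D.φ i (σ i)) a
        have h6 := D.free i hS' _ _ h5
        rw [Pi.mul_apply, Pi.inv_apply]
        rw [inv_mul_eq_one] at h6
        rw [← h6, mul_inv_cancel]

/-- common extensions -/
theorem exists_extend_prod (g₀ g₁ : ∀ i, G i) (A₀ A₁ : Finset (Σ i, α i))
    (hcard : A₀.card + A₁.card + 2 ≤ N) (ht₀ : ∀ ω ∈ A₀, D.S ω.1 ∨ ω.2 = D.base ω.1)
    (ht₁ : ∀ ω ∈ A₁, D.S ω.1 ∨ ω.2 = D.base ω.1)
    (h1 : ∀ ω ∈ A₀, ω ∈ A₁ → D.Φ g₀ ω = D.Φ g₁ ω)
    (h2 : ∀ ω ∈ A₀, ∀ ω' ∈ A₁, D.Φ g₀ ω = D.Φ g₁ ω' → ω = ω') :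
    ∃ τ : ∀ i, G i, (∀ ω ∈ A₀, D.Φ τ ω = D.Φ g₀ ω) ∧ (∀ ω ∈ A₁, D.Φ τ ω = D.Φ g₁ ω) := by
  classical
  have key : ∀ i, ∃ t : G i,
      (∀ a : α i, (⟨i, a⟩ : Σ i, α i) ∈ A₀ → D.φ i t a = D.φ i (g₀ i) a) ∧
      (∀ a : α i, (⟨i, a⟩ : Σ i, α i) ∈ A₁ → D.φ i t a = D.φ i (g₁ i) a) := by
    intro i
    by_cases hi : D.S i
    · set B₀ : Finset (α i) := univ.filter (fun a => (⟨i, a⟩ : Σ i, α i) ∈ A₀) with hB₀
      set B₁ : Finset (α i) := univ.filter (fun a => (⟨i, a⟩ : Σ i, α i) ∈ A₁) with hB₁
      have c₀ : B₀.card ≤ A₀.card := by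
        rw [← Finset.card_image_of_injective B₀ (sigma_mk_injective (i := i))]
        apply Finset.card_le_card
        intro ω hω
        rw [Finset.mem_image] at hω
        obtain ⟨a, ha, rfl⟩ := hω
        rw [hB₀, Finset.mem_filter] at ha
        exact ha.2
      have c₁ : B₁.card ≤ A₁.card := by
        rw [← Finset.card_image_of_injective B₁ (sigma_mk_injective (i := i))]
        apply Finset.card_le_card
        intro ω hω
        rw [Finset.mem_image] at hω
        obtain ⟨a, ha, rfl⟩ := hω
        rw [hB₁, Finset.mem_filter] at ha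
        exact ha.2
      have hbig := D.big i hi
      obtain ⟨t', ts, t0, t1⟩ := exists_extend (D.φ i (g₀ i)) (D.φ i (g₁ i)) B₀ B₁ (by omega) (by
          intro a ha ha'
          rw [hB₀, Finset.mem_filter] at ha
          rw [hB₁, Finset.mem_filter] at ha'
          have := h1 _ ha.2 ha'.2
          rw [D.Φ_apply, D.Φ_apply] at this
          exact eq_of_heq (Sigma.mk.inj this).2) (by
          intro a ha a' ha' haa
          rw [hB₀, Finset.mem_filter] at ha
          rw [hB₁, Finset.mem_filter] at ha'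
          have := h2 _ ha.2 _ ha'.2 (by rw [D.Φ_apply, D.Φ_apply, haa])
          exact eq_of_heq (Sigma.mk.inj this).2)
      have hmem : t' ∈ (D.φ i).range := by
        rw [D.alt i hi, mem_alternatingGroup, ts, ← mem_alternatingGroup, ← D.alt i hi]
        exact ⟨_, rfl⟩
      obtain ⟨t, rfl⟩ := hmem
      refine ⟨t, fun a ha => t0 a ?_, fun a ha => t1 a ?_⟩
      · rw [hB₀, Finset.mem_filter]
        exact ⟨Finset.mem_univ _, ha⟩
      · rw [hB₁, Finset.mem_filter]
        exact ⟨Finset.mem_univ _, ha⟩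
    · by_cases hb : (⟨i, D.base i⟩ : Σ i, α i) ∈ A₀
      · refine ⟨g₀ i, fun _ _ => rfl, fun a ha => ?_⟩
        have ha' : a = D.base i := by
          rcases ht₁ _ ha with h | h
          · exact absurd h hi
          · exact h
        subst ha'
        have := h1 _ hb ha
        rw [D.Φ_apply, D.Φ_apply] at this
        exact eq_of_heq (Sigma.mk.inj this).2
      · refine ⟨g₁ i, fun a ha => ?_, fun _ _ => rfl⟩
        have ha' : a = D.base i := by
          rcases ht₀ _ ha with h | h
          · exact absurd h hi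
          · exact h
        subst ha'
        exact absurd ha hb
  choose τ hτ0 hτ1 using key
  refine ⟨τ, ?_, ?_⟩
  · rintro ⟨i, a⟩ h
    rw [D.Φ_apply, D.Φ_apply, hτ0 i a h]
  · rintro ⟨i, a⟩ h
    rw [D.Φ_apply, D.Φ_apply, hτ1 i a h]

end data

end Pool.Agent.H287R3.LR
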