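import Pool.Agent.H287R3.LR.ProdB

/-!
# Products of alternating groups and quasirandom groups: protocol
-/

set_option autoImplicit false
set_option linter.unusedSectionVars false

namespace Pool.Agent.H287R3.LR

open Finset Pool.Agent.H630R2.LR Equiv Equiv.Perm Module

section data

variable {I : Type} [Fintype I] [DecidableEq I] {G : I → Type} [∀ i, Group (G i)]
  [∀ i, Fintype (G i)] {α : I → Type} [∀ i, Fintype (α i)] [∀ i, DecidableEq (α i)] {N : ℕ}
  (D : Data G α N)

theorem reveal1P (A : Finset (Σ i, α i)) (w : ℕ)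
    (hw : Fintype.card ((ω : A) → α ω.1.1) ≤ 2 ^ w)
    (Fd : ((ω : A) → α ω.1.1) → (∀ i, G i) → (∀ i, G i) → Bool) (c : ℕ)
    (h : ∀ d, Proto (Fd d) c) :
    Proto (fun x y => Fd (fun ω => D.φ ω.1.1 ((x⁻¹ * y) ω.1.1) ω.1.2) x y) (c + w + w) := by
  refine Proto.sendY _ (fun (y : ∀ i, G i) (ω : A) => D.φ ω.1.1 (y ω.1.1) ω.1.2) w hw
    (fun p x y => Fd (fun ω => (D.φ ω.1.1 (x ω.1.1))⁻¹ (p ω)) x y) (c + w) (fun p => ?_)
    (fun x y => ?_)
  · exact Proto.sendX _ (fun (x : ∀ i, G i) (ω : A) => (D.φ ω.1.1 (x ω.1.1))⁻¹ (p ω)) w hw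
      (fun q x y => Fd q x y) c (fun q => h q) (fun _ _ => rfl)
  · simp only [Pi.mul_apply, Pi.inv_apply, map_mul, map_inv, Perm.mul_apply]

theorem reveal2P (A : Finset (Σ i, α i)) (w : ℕ)
    (hw : Fintype.card ((ω : A) → α ω.1.1) ≤ 2 ^ w)
    (Fd : ((ω : A) → α ω.1.1) → (∀ i, G i) → (∀ i, G i) → Bool) (c : ℕ)
    (h : ∀ d, Proto (Fd d) c) :
    Proto (fun x y => Fd (fun ω => (D.φ ω.1.1 ((x⁻¹ * y) ω.1.1))⁻¹ ω.1.2) x y) (c + w + w) := by
  refine Proto.sendX _ (fun (x : ∀ i, G i) (ω : A) => D.φ ω.1.1 (x ω.1.1) ω.1.2) w hw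
    (fun p x y => Fd (fun ω => (D.φ ω.1.1 (y ω.1.1))⁻¹ (p ω)) x y) (c + w) (fun p => ?_)
    (fun x y => ?_)
  · exact Proto.sendY _ (fun (y : ∀ i, G i) (ω : A) => (D.φ ω.1.1 (y ω.1.1))⁻¹ (p ω)) w hw
      (fun q x y => Fd q x y) c (fun q => h q) (fun _ _ => rfl)
  · simp only [Pi.mul_apply, Pi.inv_apply, map_mul, map_inv, Perm.mul_apply, mul_inv_rev, inv_inv]

/-- consistency -/
def Data.Cons (K : Finset (Σ i, α i)) (v g : ∀ i, G i) : Prop := ∀ ω ∈ K, D.Φ g ω = D.Φ v ω

theorem round_prod (f : (∀ i, G i) → Bool) (C w : ℕ) (A : (∀ i, G i) → Finset (Σ i, α i))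
    (hA : ∀ g, (A g).card ≤ C) (hAt : ∀ g, ∀ ω ∈ A g, D.S ω.1 ∨ ω.2 = D.base ω.1)
    (hcert : ∀ g g' : ∀ i, G i, (∀ ω ∈ A g, D.Φ g' ω = D.Φ g ω) → f g' = f g)
    (hC : 2 * C + 2 ≤ N) (hw : ∀ B : Finset (Σ i, α i), B.card ≤ C →
      Fintype.card ((ω : B) → α ω.1.1) ≤ 2 ^ w) :
    ∀ (j : ℕ) (K : Finset (Σ i, α i)) (v : ∀ i, G i),
      (∀ g₀, D.Cons K v g₀ → f g₀ = false → (A g₀ \ K).card ≤ j) →
      ∃ F' : (∀ i, G i) → (∀ i, G i) → Bool, Proto F' (j * (4 * w)) ∧
        ∀ x y : ∀ i, G i, D.Cons K v (x⁻¹ * y) → F' x y = f (x⁻¹ * y) := by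
  classical
  intro j
  induction j with
  | zero =>
    intro K v hK
    by_cases h0 : ∃ g₀, D.Cons K v g₀ ∧ f g₀ = false
    · obtain ⟨g₀, hc0, hf0⟩ := h0
      refine ⟨fun _ _ => false, (Proto.const _ false (fun _ _ => rfl)).mono (Nat.zero_le _), ?_⟩
      intro x y hc
      have hsub : A g₀ ⊆ K := by
        have := hK g₀ hc0 hf0
        rw [Nat.le_zero, Finset.card_eq_zero, Finset.sdiff_eq_empty_iff_subset] at this
        exact this
      rw [hcert g₀ (x⁻¹ * y) (fun a ha => by
        rw [hc a (hsub ha), hc0 a (hsub ha)]), hf0]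
    · push Not at h0
      refine ⟨fun _ _ => true, (Proto.const _ true (fun _ _ => rfl)).mono (Nat.zero_le _), ?_⟩
      intro x y hc
      have := h0 _ hc
      simpa using this
  | succ j ih =>
    intro K v hK
    by_cases h1 : ∃ g₁, D.Cons K v g₁ ∧ f g₁ = true
    · obtain ⟨g₁, hc1, hf1⟩ := h1
      set A₁ := A g₁ with hA₁
      set R := A₁.image (D.Φ g₁) with hR
      have hRc : R.card ≤ C := le_trans Finset.card_image_le (hA g₁)
      have hnew : ∀ g : ∀ i, G i, D.Cons K v g → ∃ F' : (∀ i, G i) → (∀ i, G i) → Bool,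
          Proto F' (j * (4 * w)) ∧ ∀ x y : ∀ i, G i,
            D.Cons (K ∪ A₁ ∪ R.image (fun b => (D.Φ g)⁻¹ b)) g (x⁻¹ * y) →
              F' x y = f (x⁻¹ * y) := by
        intro g hg
        apply ih
        intro g₀ hc0 hf0
        by_contra hlt
        have hc0' : D.Cons K v g₀ := by
          intro a ha
          rw [hc0 a (by simp [ha]), hg a ha]
        have hb := hK g₀ hc0' hf0
        set K' := K ∪ A₁ ∪ R.image (fun b => (D.Φ g)⁻¹ b) with hK'
        have hsub : A g₀ \ K' ⊆ A g₀ \ K := by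
          apply Finset.sdiff_subset_sdiff (Finset.Subset.refl _)
          intro x hx
          rw [hK', Finset.mem_union, Finset.mem_union]
          exact Or.inl (Or.inl hx)
        have heq : A g₀ \ K' = A g₀ \ K := by
          apply Finset.eq_of_subset_of_card_le hsub
          omega
        have hin : ∀ a ∈ A g₀, a ∈ K' → a ∈ K := by
          intro a ha haK'
          by_contra haK
          have : a ∈ A g₀ \ K := Finset.mem_sdiff.2 ⟨ha, haK⟩
          rw [← heq] at this
          exact (Finset.mem_sdiff.1 this).2 haK'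
        have hcomm : ∀ a ∈ K, D.Φ g₀ a = D.Φ g₁ a := by
          intro a ha
          rw [hc0' a ha, hc1 a ha]
        obtain ⟨τ, hτ0, hτ1⟩ := exists_extend_prod D g₀ g₁ (A g₀) A₁ (by
            have h5 : (A g₀).card ≤ C := hA g₀
            have h6 : A₁.card ≤ C := hA g₁
            omega) (hAt g₀) (hAt g₁) (by
            intro a ha ha1
            apply hcomm
            apply hin a ha
            rw [hK', Finset.mem_union, Finset.mem_union]
            exact Or.inl (Or.inr ha1)) (by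
            intro a ha b hb hab
            have haK : a ∈ K := by
              apply hin a ha
              rw [hK', Finset.mem_union]
              right
              rw [Finset.mem_image]
              refine ⟨D.Φ g₁ b, Finset.mem_image_of_mem _ hb, ?_⟩
              have hmem : (D.Φ g)⁻¹ (D.Φ g₁ b) ∈ K' := by
                rw [hK', Finset.mem_union]
                right
                exact Finset.mem_image_of_mem _ (Finset.mem_image_of_mem _ hb)
              have h3 := hc0 _ hmem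
              have h4 : D.Φ g ((D.Φ g)⁻¹ (D.Φ g₁ b)) = D.Φ g₁ b :=
                Equiv.apply_symm_apply (D.Φ g) _
              rw [h4] at h3
              exact (D.Φ g₀).injective (h3.trans hab.symm)
            have h5 := hcomm a haK
            rw [hab] at h5
            exact ((D.Φ g₁).injective h5).symm)
        have e0 := hcert g₀ τ hτ0
        have e1 := hcert g₁ τ hτ1
        rw [e0, hf0, hf1] at e1
        exact absurd e1 (by simp)
      have hdd : ∀ (d1 : (ω : A₁) → α ω.1.1) (d2 : (ω : R) → α ω.1.1),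
          ∃ F' : (∀ i, G i) → (∀ i, G i) → Bool,
          Proto F' (j * (4 * w)) ∧ ∀ x y : ∀ i, G i, D.Cons K v (x⁻¹ * y) →
            (fun ω : A₁ => D.φ ω.1.1 ((x⁻¹ * y) ω.1.1) ω.1.2) = d1 →
            (fun ω : R => (D.φ ω.1.1 ((x⁻¹ * y) ω.1.1))⁻¹ ω.1.2) = d2 →
            F' x y = f (x⁻¹ * y) := by
        intro d1 d2
        by_cases hex : ∃ g : ∀ i, G i, D.Cons K v g ∧
            (fun ω : A₁ => D.φ ω.1.1 (g ω.1.1) ω.1.2) = d1 ∧
            (fun ω : R => (D.φ ω.1.1 (g ω.1.1))⁻¹ ω.1.2) = d2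
        · obtain ⟨g, hg, hg1, hg2⟩ := hex
          obtain ⟨F', hF', hF⟩ := hnew g hg
          refine ⟨F', hF', ?_⟩
          intro x y hc hd1 hd2
          apply hF
          intro a ha
          rw [Finset.mem_union, Finset.mem_union] at ha
          rcases ha with (ha | ha) | ha
          · rw [hc a ha, hg a ha]
          · have := congrFun (hd1.trans hg1.symm) ⟨a, ha⟩
            obtain ⟨i, a⟩ := a
            rw [D.Φ_apply, D.Φ_apply]
            exact congrArg (fun z => (⟨i, z⟩ : Σ i, α i)) this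
          · rw [Finset.mem_image] at ha
            obtain ⟨b, hb, rfl⟩ := ha
            have := congrFun (hd2.trans hg2.symm) ⟨b, hb⟩
            have e3 : (D.Φ (x⁻¹ * y))⁻¹ b = (D.Φ g)⁻¹ b := by
              obtain ⟨i, b⟩ := b
              rw [← map_inv, ← map_inv, D.Φ_apply, D.Φ_apply]
              have e4 : D.φ i ((x⁻¹ * y)⁻¹ i) b = D.φ i (g⁻¹ i) b := by
                rw [Pi.inv_apply, Pi.inv_apply, map_inv, map_inv]
                exact this
              rw [e4]
            have e1 : D.Φ (x⁻¹ * y) ((D.Φ (x⁻¹ * y))⁻¹ b) = b :=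
              Equiv.apply_symm_apply (D.Φ (x⁻¹ * y)) b
            have e2 : D.Φ g ((D.Φ g)⁻¹ b) = b := Equiv.apply_symm_apply (D.Φ g) b
            show D.Φ (x⁻¹ * y) ((D.Φ g)⁻¹ b) = D.Φ g ((D.Φ g)⁻¹ b)
            rw [e2, ← e3]
            exact e1
        · refine ⟨fun _ _ => false, (Proto.const _ false (fun _ _ => rfl)).mono (Nat.zero_le _), ?_⟩
          intro x y hc hd1 hd2
          exact absurd ⟨x⁻¹ * y, hc, hd1, hd2⟩ hex
      choose F'' hF''1 hF''2 using hdd
      have p1 : ∀ d1, Proto (fun x y => F'' d1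
          (fun ω : R => (D.φ ω.1.1 ((x⁻¹ * y) ω.1.1))⁻¹ ω.1.2) x y) (j * (4 * w) + w + w) :=
        fun d1 => reveal2P D R w (hw R hRc) (fun d2 => F'' d1 d2) _ (fun d2 => hF''1 d1 d2)
      have p2 := reveal1P D A₁ w (hw A₁ (hA g₁))
        (fun d1 x y => F'' d1 (fun ω : R => (D.φ ω.1.1 ((x⁻¹ * y) ω.1.1))⁻¹ ω.1.2) x y) _ p1
      refine ⟨_, p2.mono (by ring_nf; omega), ?_⟩
      intro x y hc
      exact hF''2 _ _ x y hc rfl rfl
    · push Not at h1
      refine ⟨fun _ _ => false, (Proto.const _ false (fun _ _ => rfl)).mono (Nat.zero_le _), ?_⟩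
      intro x y hc
      have := h1 _ hc
      simpa using this.symm

theorem card_pi_le (w₀ C : ℕ) (hα : ∀ i, Fintype.card (α i) ≤ 2 ^ w₀)
    (B : Finset (Σ i, α i)) (hB : B.card ≤ C) :
    Fintype.card ((ω : B) → α ω.1.1) ≤ 2 ^ (w₀ * C) := by
  rw [Fintype.card_pi]
  calc ∏ ω : B, Fintype.card (α ω.1.1) ≤ ∏ _ω : B, 2 ^ w₀ :=
        Finset.prod_le_prod' (fun ω _ => hα ω.1.1)
    _ = (2 ^ w₀) ^ B.card := by rw [Finset.prod_const, Finset.card_univ, Fintype.card_coe]
    _ = 2 ^ (w₀ * B.card) := by rw [← pow_mul]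
    _ ≤ _ := Nat.pow_le_pow_right (by norm_num) (Nat.mul_le_mul_left _ hB)

include D in
/-- protocol for functions on a product with coordinate data -/
theorem proto_data (f : (∀ i, G i) → Bool) (hN : 24 * (kk f) ^ 2 + 2 ≤ N) (w₀ : ℕ)
    (hα : ∀ i, Fintype.card (α i) ≤ 2 ^ w₀) :
    Proto (fun x y : ∀ i, G i => f (x⁻¹ * y))
      ((12 * (kk f) ^ 2) * (4 * (w₀ * (12 * (kk f) ^ 2)))) := by
  classical
  choose A hA hAt hcert using exists_cert_prod' D f (by omega)
  obtain ⟨F', h1, h2⟩ := round_prod D f (12 * (kk f) ^ 2) (w₀ * (12 * (kk f) ^ 2)) A hA hAt hcert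
    (by omega) (fun B hB => card_pi_le w₀ _ hα B hB) (12 * (kk f) ^ 2) ∅ 1
    (fun g₀ _ _ => by
      rw [Finset.sdiff_empty]
      exact hA g₀)
  have e : (fun x y : ∀ i, G i => f (x⁻¹ * y)) = F' := by
    funext x y
    rw [h2 x y (fun ω hω => absurd hω (Finset.notMem_empty ω))]
  rw [e]
  exact h1

end data

theorem rank_add_le' {m n : Type} [Fintype m] [Fintype n] (A B : Matrix m n ℝ) :
    (A + B).rank ≤ A.rank + B.rank := by
  unfold Matrix.rank
  have h1 : LinearMap.range (A + B).mulVecLin ≤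
      LinearMap.range A.mulVecLin ⊔ LinearMap.range B.mulVecLin := by
    rintro _ ⟨v, rfl⟩
    rw [Matrix.mulVecLin_add, LinearMap.add_apply]
    exact Submodule.add_mem_sup ⟨v, rfl⟩ ⟨v, rfl⟩
  exact (Submodule.finrank_mono h1).trans (Submodule.finrank_add_le_finrank_add_finrank _ _)

/-- the degree of a relevant alternating coordinate is bounded by the rank -/
theorem card_alt_le {I : Type} [Fintype I] [DecidableEq I] {G : I → Type} [∀ i, Group (G i)]
    [∀ i, Fintype (G i)] (f : (∀ i, G i) → Bool) (i : I) (m : ℕ) (hm : 2 ≤ m)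
    (e : G i ≃* alternatingGroup (Fin m)) (hrel : Rel f i) : m ≤ 12 * rkG f + 2 := by
  classical
  obtain ⟨u, g, hne⟩ := hrel
  -- the retraction onto the alternating group
  let ret : Perm (Fin m) → G i := fun a =>
    if h : a ∈ alternatingGroup (Fin m) then e.symm ⟨a, h⟩ else 1
  let fu : Perm (Fin m) → Bool := fun a =>
    if sign a = 1 then f (Pi.mulSingle i (ret a) * u) else false
  have hret_mul : ∀ a b : Perm (Fin m), sign a = 1 → sign b = 1 →
      ret (a⁻¹ * b) = (ret a)⁻¹ * ret b := by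
    intro a b ha hb
    have ha' : a ∈ alternatingGroup (Fin m) := mem_alternatingGroup.2 ha
    have hb' : b ∈ alternatingGroup (Fin m) := mem_alternatingGroup.2 hb
    have hab : a⁻¹ * b ∈ alternatingGroup (Fin m) := mul_mem (inv_mem ha') hb'
    simp only [ret, dif_pos ha', dif_pos hb', dif_pos hab]
    rw [← map_inv, ← map_mul]
    rfl
  have hm0 : 0 < m := by omega
  let t : Perm (Fin m) := Equiv.swap ⟨0, by omega⟩ ⟨1, by omega⟩
  have ht : sign t = -1 := sign_swap (by
    intro h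
    have := congrArg Fin.val h
    simp at this)
  set M := comm (fun x y : ∀ i, G i => f (x⁻¹ * y)) with hM
  -- the two diagonal blocks
  let X1 : Perm (Fin m) → ∀ i, G i := fun a => Pi.mulSingle i (ret a)
  let Y1 : Perm (Fin m) → ∀ i, G i := fun a => Pi.mulSingle i (ret a) * u
  let D1 : Matrix (Perm (Fin m)) (Perm (Fin m)) ℝ :=
    Matrix.diagonal (fun a => if sign a = 1 then 1 else 0)
  let D2 : Matrix (Perm (Fin m)) (Perm (Fin m)) ℝ :=
    Matrix.diagonal (fun a => if sign a = 1 then 0 else 1)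
  let M1 := D1 * (M.submatrix X1 Y1) * D1
  let M2 := D2 * (M.submatrix (fun a => X1 (t * a)) (fun a => Y1 (t * a))) * D2
  have hMval : ∀ a b : Perm (Fin m), sign a = 1 → sign b = 1 →
      M (X1 a) (Y1 b) = if f (Pi.mulSingle i (ret (a⁻¹ * b)) * u) then (1 : ℝ) else 0 := by
    intro a b ha hb
    show (if f ((X1 a)⁻¹ * Y1 b) then (1 : ℝ) else 0) = _
    rw [hret_mul a b ha hb]
    have : (X1 a)⁻¹ * Y1 b = Pi.mulSingle i ((ret a)⁻¹ * ret b) * u := by
      show (Pi.mulSingle i (ret a))⁻¹ * (Pi.mulSingle i (ret b) * u) = _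
      rw [Pi.mulSingle_mul, Pi.mulSingle_inv, mul_assoc]
    rw [this]
  have hsum : comm (fun σ τ : Perm (Fin m) => fu (σ⁻¹ * τ)) = M1 + M2 := by
    ext a b
    rw [Matrix.add_apply]
    simp only [M1, M2, D1, D2, Matrix.mul_diagonal, Matrix.diagonal_mul, Matrix.submatrix_apply]
    show (if fu (a⁻¹ * b) then (1 : ℝ) else 0) = _
    have hsab : sign (a⁻¹ * b) = sign a * sign b := by
      rw [map_mul, sign_inv]
    rcases Int.units_eq_one_or (sign a) with ha | ha <;>
      rcases Int.units_eq_one_or (sign b) with hb | hb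
    · rw [hMval a b ha hb]
      simp only [fu, hsab, ha, hb]
      simp
    · simp only [fu, hsab, ha, hb]
      norm_num
    · simp only [fu, hsab, ha, hb]
      norm_num
    · have hta : sign (t * a) = 1 := by rw [map_mul, ht, ha]; decide
      have htb : sign (t * b) = 1 := by rw [map_mul, ht, hb]; decide
      rw [hMval (t * a) (t * b) hta htb]
      have e1 : (t * a)⁻¹ * (t * b) = a⁻¹ * b := by group
      rw [e1]
      simp only [fu, hsab, ha, hb]
      norm_num
  have hrank : rk fu ≤ 2 * rkG f := by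
    unfold rk
    rw [hsum]
    refine (rank_add_le' _ _).trans ?_
    have r1 : M1.rank ≤ M.rank :=
      (Matrix.rank_mul_le_left _ _).trans ((Matrix.rank_mul_le_right _ _).trans
        (Matrix.rank_submatrix_le _ _ _))
    have r2 : M2.rank ≤ M.rank :=
      (Matrix.rank_mul_le_left _ _).trans ((Matrix.rank_mul_le_right _ _).trans
        (Matrix.rank_submatrix_le _ _ _))
    have e : M.rank = rkG f := rfl
    omega
  have hsens : fu (((e g : alternatingGroup (Fin m)) : Perm (Fin m)) * 1) ≠ fu 1 := by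
    have h1 : sign ((e g : alternatingGroup (Fin m)) : Perm (Fin m)) = 1 :=
      mem_alternatingGroup.1 (e g).2
    have h2 : ret ((e g : alternatingGroup (Fin m)) : Perm (Fin m)) = g := by
      simp only [ret, dif_pos (e g).2]
      exact e.symm_apply_apply g
    have h3 : ret 1 = 1 := by
      simp only [ret, dif_pos (one_mem (alternatingGroup (Fin m)))]
      exact map_one e.symm
    rw [mul_one]
    simp only [fu, h1, h2, h3, map_one, if_true, Pi.mulSingle_one, one_mul]
    exact hne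
  have := card_le fu 1 _ (mem_alternatingGroup.1 (e g).2) hsens
  rw [Fintype.card_fin] at this
  omega

end Pool.Agent.H287R3.LR
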