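import Pool.Agent.H287R3.LR.ProdC
import Pool.Agent.H287R3.LR.Graph

/-!
# Products of alternating groups and quasirandom groups: final form
-/

set_option autoImplicit false
set_option linter.unusedSectionVars false

namespace Pool.Agent.H287R3.LR

open Finset Pool.Agent.H630R2.LR Equiv Equiv.Perm Module

theorem perf_of_equiv {A B : Type} [Group A] [Group B] (e : A ≃* B) (h : commutator B = ⊤) :
    commutator A = ⊤ := by
  have h1 : Subgroup.map e.toMonoidHom (commutator A) = ⊤ := by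
    rw [commutator_def, Subgroup.map_commutator,
      Subgroup.map_top_of_surjective e.toMonoidHom e.surjective, ← commutator_def, h]
  rw [eq_top_iff]
  intro x _
  have h2 : e.toMonoidHom x ∈ Subgroup.map e.toMonoidHom (commutator A) := by
    rw [h1]
    exact Subgroup.mem_top _
  obtain ⟨y, hy, hxy⟩ := h2
  have : y = x := e.injective hxy
  rwa [this] at hy

/-- coordinate data for one factor -/
theorem coord_data (A : Type) [Group A] [Fintype A] (N w₀ R : ℕ)
    (h : (∃ m, 5 ≤ m ∧ m ≤ R ∧ Nonempty (A ≃* alternatingGroup (Fin m))) ∨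
      (commutator A = ⊤ ∧ Fintype.card A ≤ 2 ^ w₀)) (hw1 : R ≤ 2 ^ w₀) (hw2 : N ^ N ≤ 2 ^ w₀) :
    ∃ (β : Type) (_ : Fintype β) (_ : DecidableEq β) (φ : A →* Perm β) (S : Prop) (_ : β),
      Function.Injective φ ∧ (S → φ.range = alternatingGroup β) ∧ (S → N ≤ Fintype.card β) ∧
      (¬ S → commutator A = ⊤) ∧ (¬ S → ∀ (g : A) (a : β), φ g a = a → g = 1) ∧
      Fintype.card β ≤ 2 ^ w₀ := by
  classical
  have hfree : commutator A = ⊤ → Fintype.card A ≤ 2 ^ w₀ →
      ∃ (β : Type) (_ : Fintype β) (_ : DecidableEq β) (φ : A →* Perm β) (S : Prop) (_ : β),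
      Function.Injective φ ∧ (S → φ.range = alternatingGroup β) ∧ (S → N ≤ Fintype.card β) ∧
      (¬ S → commutator A = ⊤) ∧ (¬ S → ∀ (g : A) (a : β), φ g a = a → g = 1) ∧
      Fintype.card β ≤ 2 ^ w₀ := by
    intro hp hc
    refine ⟨A, inferInstance, inferInstance, MulAction.toPermHom A A, False, 1, ?_, ?_, ?_, ?_, ?_,
      hc⟩
    · exact MulAction.toPerm_injective
    · intro h; exact h.elim
    · intro h; exact h.elim
    · intro _; exact hp
    · intro _ g a hga
      have : g * a = a := hga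
      exact mul_eq_right.1 this
  rcases h with ⟨m, hm5, hmR, ⟨e⟩⟩ | ⟨hp, hc⟩
  · by_cases hmN : N ≤ m
    · refine ⟨Fin m, inferInstance, inferInstance,
        (alternatingGroup (Fin m)).subtype.comp e.toMonoidHom, True, ⟨0, by omega⟩, ?_, ?_, ?_, ?_,
        ?_, ?_⟩
      · intro x y hxy
        apply e.injective
        exact Subtype.ext hxy
      · intro _
        rw [MonoidHom.range_comp, MonoidHom.range_eq_top.2 e.surjective,
          ← MonoidHom.range_eq_map, Subgroup.range_subtype]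
      · intro _
        rw [Fintype.card_fin]
        exact hmN
      · intro h; exact absurd trivial h
      · intro h; exact absurd trivial h
      · rw [Fintype.card_fin]
        exact hmR.trans hw1
    · apply hfree
      · apply perf_of_equiv e
        apply commutator_alternatingGroup_eq_top
        rw [Nat.card_eq_fintype_card, Fintype.card_fin]
        exact hm5
      · calc Fintype.card A = Fintype.card (alternatingGroup (Fin m)) :=
              Fintype.card_congr e.toEquiv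
          _ ≤ Fintype.card (Perm (Fin m)) :=
              Fintype.card_le_of_injective _ Subtype.val_injective
          _ ≤ Fintype.card (Fin m → Fin m) :=
              Fintype.card_le_of_injective (fun (σ : Perm (Fin m)) => (σ : Fin m → Fin m))
                DFunLike.coe_injective
          _ = m ^ m := by rw [Fintype.card_fun, Fintype.card_fin]
          _ ≤ N ^ m := Nat.pow_le_pow_left (by omega) _
          _ ≤ N ^ N := Nat.pow_le_pow_right (by omega) (by omega)
          _ ≤ 2 ^ w₀ := hw2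
  · exact hfree hp hc

/-- `(log₂ r)² + 1` -/
def kr (r : ℕ) : ℕ := (Nat.log 2 r) ^ 2 + 1

/-- size of large alternating groups -/
def nr (r : ℕ) : ℕ := 24 * (kr r) ^ 2 + 2

/-- bits per site -/
noncomputable def wr (B : ℝ) (r : ℕ) : ℕ :=
  Nat.clog 2 (12 * r + 2) + (⌊B⌋₊ + 1) + nr r * Nat.clog 2 (nr r)

/-- total number of bits -/
noncomputable def cr (B : ℝ) (r : ℕ) : ℕ :=
  (12 * (kr r) ^ 2) * (4 * (wr B r * (12 * (kr r) ^ 2)))

theorem kr_mono {r r' : ℕ} (h : r ≤ r') : kr r ≤ kr r' := by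
  unfold kr
  have := Nat.log_mono_right (b := 2) h
  gcongr

section main

variable {I : Type} [Fintype I] [DecidableEq I] {G : I → Type} [∀ i, Group (G i)]
  [∀ i, Fintype (G i)]

/-- the restriction to the relevant coordinates -/
noncomputable def ext0 (f : (∀ i, G i) → Bool) (z : ∀ j : {i : I // Rel f i}, G j.1) : ∀ i, G i :=
  open Classical in fun i => if h : Rel f i then z ⟨i, h⟩ else 1

theorem ext0_mul (f : (∀ i, G i) → Bool) (x y : ∀ j : {i : I // Rel f i}, G j.1) :
    ext0 f (x⁻¹ * y) = (ext0 f x)⁻¹ * ext0 f y := by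
  funext i
  by_cases h : Rel f i
  · simp [ext0, h]
  · simp [ext0, h]


theorem proto_main (κB : ℝ) (hB : 0 ≤ κB) (r : ℕ) (f : (∀ i, G i) → Bool) (hr : rkG f ≤ r)
    (hG : ∀ i, Rel f i → (∃ m, 5 ≤ m ∧ Nonempty (G i ≃* alternatingGroup (Fin m))) ∨
      (commutator (G i) = ⊤ ∧ Fintype.card (G i) ≤ 2 ^ (⌊κB⌋₊ + 1))) :
    Proto (fun x y : ∀ i, G i => f (x⁻¹ * y)) (cr κB r) := by
  classical
  let J := {i : I // Rel f i}
  let f' : (∀ j : J, G j.1) → Bool := fun z => f (ext0 f z)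
  have hrk : rkG f' ≤ r := by
    have e : comm (fun x y : ∀ j : J, G j.1 => f' (x⁻¹ * y)) =
        (comm (fun x y : ∀ i, G i => f (x⁻¹ * y))).submatrix (ext0 f) (ext0 f) := by
      ext x y
      show (if f (ext0 f (x⁻¹ * y)) then (1 : ℝ) else 0) =
        if f ((ext0 f x)⁻¹ * ext0 f y) then (1 : ℝ) else 0
      rw [ext0_mul]
    unfold rkG
    rw [e]
    exact (Matrix.rank_submatrix_le _ _ _).trans hr
  have hkk : kk f' ≤ kr r := kr_mono hrk
  have hw1 : 12 * r + 2 ≤ 2 ^ wr κB r := by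
    calc 12 * r + 2 ≤ 2 ^ Nat.clog 2 (12 * r + 2) := Nat.le_pow_clog (by norm_num) _
      _ ≤ _ := Nat.pow_le_pow_right (by norm_num) (by unfold wr; omega)
  have hw2 : nr r ^ nr r ≤ 2 ^ wr κB r := by
    calc nr r ^ nr r ≤ (2 ^ Nat.clog 2 (nr r)) ^ nr r :=
          Nat.pow_le_pow_left (Nat.le_pow_clog (by norm_num) _) _
      _ = 2 ^ (nr r * Nat.clog 2 (nr r)) := by rw [← pow_mul, mul_comm]
      _ ≤ _ := Nat.pow_le_pow_right (by norm_num) (by unfold wr; omega)
  have hw3 : 2 ^ (⌊κB⌋₊ + 1) ≤ 2 ^ wr κB r :=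
    Nat.pow_le_pow_right (by norm_num) (by unfold wr; omega)
  have hdat : ∀ j : J, ∃ (β : Type) (_ : Fintype β) (_ : DecidableEq β) (φ : G j.1 →* Perm β)
      (S : Prop) (_ : β),
      Function.Injective φ ∧ (S → φ.range = alternatingGroup β) ∧ (S → nr r ≤ Fintype.card β) ∧
      (¬ S → commutator (G j.1) = ⊤) ∧ (¬ S → ∀ (g : G j.1) (a : β), φ g a = a → g = 1) ∧
      Fintype.card β ≤ 2 ^ wr κB r := by
    intro j
    apply coord_data (G j.1) (nr r) (wr κB r) (12 * r + 2) _ hw1 hw2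
    rcases hG j.1 j.2 with ⟨m, hm, ⟨e⟩⟩ | ⟨hp, hc⟩
    · left
      refine ⟨m, hm, ?_, ⟨e⟩⟩
      have := card_alt_le f j.1 m (by omega) e j.2
      omega
    · right
      exact ⟨hp, hc.trans hw3⟩
  choose β instF instD φ S base hinj halt hbig hperf hfree hcard using hdat
  let D : Data (fun j : J => G j.1) β (nr r) :=
    { φ := φ, inj := hinj, S := S, base := base, alt := halt, big := hbig, perf := hperf,
      free := hfree }
  have hN : 24 * (kk f') ^ 2 + 2 ≤ nr r := by
    unfold nr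
    gcongr
  have h1 := proto_data D f' hN (wr κB r) hcard
  have h2 : Proto (fun x y : ∀ j : J, G j.1 => f' (x⁻¹ * y)) (cr κB r) := by
    refine h1.mono ?_
    unfold cr
    gcongr
  have h3 := h2.comap (fun (x : ∀ i, G i) (j : J) => x j.1) (fun (y : ∀ i, G i) (j : J) => y j.1)
  have e : (fun x y : ∀ i, G i => f (x⁻¹ * y)) = fun (x y : ∀ i, G i) =>
      f' ((fun j : J => x j.1)⁻¹ * (fun j : J => y j.1)) := by
    funext x y
    apply eq_of_agree
    intro i hi
    simp [ext0, hi]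
  rw [e]
  exact h3

end main

theorem cr_le (B : ℝ) (hB : 0 ≤ B) (r : ℕ) : (cr B r : ℝ) ≤
    576 * (Real.logb 2 r + 1) ^ 8 * (B + 214 * (Real.logb 2 r + 1) ^ 5) := by
  have hl := logb_nonneg r
  set L : ℝ := Real.logb 2 r + 1 with hL
  have hL1 : 1 ≤ L := by linarith
  have hd : (Nat.log 2 r : ℝ) ≤ L - 1 := by
    have := log_le r
    linarith
  have hd0 : (0 : ℝ) ≤ (Nat.log 2 r : ℝ) := Nat.cast_nonneg _
  have hk : (kr r : ℝ) ≤ L ^ 2 := by
    unfold kr
    push_cast
    nlinarith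
  have hk0 : (0 : ℝ) ≤ (kr r : ℝ) := Nat.cast_nonneg _
  have hk2 : (kr r : ℝ) ^ 2 ≤ L ^ 4 := by
    calc (kr r : ℝ) ^ 2 ≤ (L ^ 2) ^ 2 := by gcongr
      _ = L ^ 4 := by ring
  have hL4 : 1 ≤ L ^ 4 := one_le_pow₀ hL1
  have hn : (nr r : ℝ) ≤ 26 * L ^ 4 := by
    unfold nr
    push_cast
    linarith
  have hn0 : (0 : ℝ) < (nr r : ℝ) := by
    have : 0 < nr r := by unfold nr; omega
    exact_mod_cast this
  -- logarithm of `nr r`
  have hlogL : Real.logb 2 L ≤ 2 * (L - 1) := by
    have h1 : Real.log L ≤ L - 1 := Real.log_le_sub_one_of_pos (by linarith)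
    have h2 : (0.6931471803 : ℝ) < Real.log 2 := Real.log_two_gt_d9
    rw [Real.logb, div_le_iff₀ (by linarith)]
    nlinarith
  have hclogn : (Nat.clog 2 (nr r) : ℝ) ≤ 8 * L := by
    have h1 := clog_le (nr r)
    have h2 : Real.logb 2 (nr r : ℝ) ≤ Real.logb 2 (26 * L ^ 4) :=
      Real.logb_le_logb_of_le (by norm_num) hn0 hn
    have h3 : Real.logb 2 (26 * L ^ 4) = Real.logb 2 26 + 4 * Real.logb 2 L := by
      rw [Real.logb_mul (by norm_num) (by positivity), Real.logb_pow]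
      norm_num
    have h4 : Real.logb 2 26 ≤ 5 := by
      rw [Real.logb_le_iff_le_rpow (by norm_num) (by norm_num)]
      norm_num
    rw [h3] at h2
    linarith
  have hclog : (Nat.clog 2 (12 * r + 2) : ℝ) ≤ 5 * L := by
    have h1 := clog_le (12 * r + 2)
    have h2 : Real.logb 2 ((12 * r + 2 : ℕ) : ℝ) ≤ 4 + Real.logb 2 r := by
      rcases Nat.eq_zero_or_pos r with h0 | h0
      · rw [h0]
        simp only [mul_zero, zero_add, Nat.cast_ofNat, CharP.cast_eq_zero, Real.logb_zero,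
          add_zero]
        rw [Real.logb_self_eq_one (by norm_num)]
        norm_num
      · have h3 : (0 : ℝ) < r := by exact_mod_cast h0
        have h4 : (4 : ℝ) + Real.logb 2 r = Real.logb 2 (16 * r) := by
          rw [Real.logb_mul (by norm_num) (by positivity)]
          congr 1
          rw [show (16 : ℝ) = 2 ^ (4 : ℕ) by norm_num, Real.logb_pow]
          simp
        rw [h4]
        refine Real.logb_le_logb_of_le (by norm_num) (by positivity) ?_
        push_cast
        have : (1 : ℝ) ≤ r := by exact_mod_cast h0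
        linarith
    linarith
  have hfl : ((⌊B⌋₊ : ℕ) : ℝ) ≤ B := Nat.floor_le hB
  have hL5 : L ≤ L ^ 5 := by
    calc L = L ^ 1 := (pow_one L).symm
      _ ≤ L ^ 5 := pow_le_pow_right₀ hL1 (by norm_num)
  have hw : (wr B r : ℝ) ≤ B + 214 * L ^ 5 := by
    unfold wr
    push_cast
    have h0 : (0 : ℝ) ≤ (Nat.clog 2 (nr r) : ℝ) := Nat.cast_nonneg _
    have h1 : (nr r : ℝ) * (Nat.clog 2 (nr r) : ℝ) ≤ (26 * L ^ 4) * (8 * L) :=
      mul_le_mul hn hclogn h0 (by positivity)
    have h2 : (26 * L ^ 4) * (8 * L) = 208 * L ^ 5 := by ring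
    linarith
  have hw0 : (0 : ℝ) ≤ (wr B r : ℝ) := Nat.cast_nonneg _
  have hfin : ∀ a w : ℝ, 0 ≤ a → 0 ≤ w → a ^ 2 ≤ L ^ 4 → w ≤ B + 214 * L ^ 5 →
      (12 * a ^ 2) * (4 * (w * (12 * a ^ 2))) ≤ 576 * L ^ 8 * (B + 214 * L ^ 5) := by
    intro a w ha hw' h1 h2
    calc (12 * a ^ 2) * (4 * (w * (12 * a ^ 2)))
        ≤ (12 * L ^ 4) * (4 * ((B + 214 * L ^ 5) * (12 * L ^ 4))) := by gcongr
      _ = 576 * L ^ 8 * (B + 214 * L ^ 5) := by ring
  unfold cr
  push_cast
  exact hfin _ _ hk0 hw0 hk2 hw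

section final

variable {I : Type} [Fintype I] [DecidableEq I] {G : I → Type} [∀ i, Group (G i)]
  [∀ i, Fintype (G i)]

/-- **Products of alternating groups and quasirandom perfect groups.** -/
theorem final_simple (κ : ℝ) (hκ : 0 ≤ κ) (s : ℕ)
    (hG : ∀ i, (∃ m, 5 ≤ m ∧ Nonempty (G i ≃* alternatingGroup (Fin m))) ∨
      (commutator (G i) = ⊤ ∧
        ∀ (d : ℕ) (ρ : G i →* Matrix.GeneralLinearGroup (Fin d) ℂ), ρ ≠ 1 →
          Real.logb 2 (Nat.card (G i)) ≤ κ * (Real.logb 2 d) ^ s))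
    {X Y : Type} [Fintype X] [Fintype Y]
    [MulAction (∀ i, G i) X] [MulAction (∀ i, G i) Y] (F : X → Y → Bool)
    (hF : ∀ (g : ∀ i, G i) (x : X) (y : Y), F (g • x) (g • y) = F x y) (t : ℕ)
    (hX : Nat.card (MulAction.orbitRel.Quotient (∀ i, G i) X) ≤ t)
    (hY : Nat.card (MulAction.orbitRel.Quotient (∀ i, G i) Y) ≤ t) :
    ∃ c : ℕ, Proto F c ∧
      (c : ℝ) ≤ 576 * (Real.logb 2 ((comm F).rank : ℝ) + 1) ^ 8 *
        (κ * (Real.logb 2 ((comm F).rank : ℝ)) ^ s +
          214 * (Real.logb 2 ((comm F).rank : ℝ) + 1) ^ 5) + 2 * (Real.logb 2 t + 1) := by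
  classical
  set r := (comm F).rank with hr
  have hlr := logb_nonneg r
  set B : ℝ := κ * (Real.logb 2 (r : ℝ)) ^ s with hB
  have hB0 : 0 ≤ B := by positivity
  refine ⟨_, orbit_reduction F hF t hX hY (cr B r) (fun f hf => ?_), ?_⟩
  · apply proto_main B hB0 r f hf
    intro i hi
    rcases hG i with h | ⟨hp, hrep⟩
    · left; exact h
    · right
      refine ⟨hp, ?_⟩
      obtain ⟨u, g, hne⟩ := hi
      obtain ⟨ρ, hρ⟩ := exists_rep (MonoidHom.mulSingle G i) f u g hne
      have h1 := hrep _ ρ hρ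
      have hd : finrank ℂ (rowSpace f) ≤ r := (finrank_rowSpace_le f).trans hf
      have h2 : Real.logb 2 (finrank ℂ (rowSpace f) : ℝ) ≤ Real.logb 2 (r : ℝ) := by
        rcases Nat.eq_zero_or_pos (finrank ℂ (rowSpace f)) with h0 | h0
        · rw [h0]
          simpa using hlr
        · exact Real.logb_le_logb_of_le (by norm_num) (by exact_mod_cast h0) (by exact_mod_cast hd)
      have h3 : Real.logb 2 (Nat.card (G i)) ≤ ((⌊B⌋₊ + 1 : ℕ) : ℝ) := by
        have h4 : B ≤ ((⌊B⌋₊ + 1 : ℕ) : ℝ) := by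
          push_cast
          exact (Nat.lt_floor_add_one B).le
        refine le_trans h1 (le_trans ?_ h4)
        rw [hB]
        have := logb_nonneg (finrank ℂ (rowSpace f))
        gcongr
      have hcard : (0 : ℝ) < Nat.card (G i) := by exact_mod_cast Nat.card_pos
      rw [Real.logb_le_iff_le_rpow (by norm_num) hcard, Real.rpow_natCast] at h3
      rw [← Nat.card_eq_fintype_card]
      exact_mod_cast h3
  · have h1 := cr_le B hB0 r
    have h2 := clog_le t
    push_cast
    linarith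

/-- graph form -/
theorem graph_simple (κ : ℝ) (hκ : 0 ≤ κ) (s : ℕ)
    (hG : ∀ i, (∃ m, 5 ≤ m ∧ Nonempty (G i ≃* alternatingGroup (Fin m))) ∨
      (commutator (G i) = ⊤ ∧
        ∀ (d : ℕ) (ρ : G i →* Matrix.GeneralLinearGroup (Fin d) ℂ), ρ ≠ 1 →
          Real.logb 2 (Nat.card (G i)) ≤ κ * (Real.logb 2 d) ^ s))
    {V : Type} [Fintype V] [MulAction (∀ i, G i) V] (A : SimpleGraph V)
    [DecidableRel A.Adj] (hA : ∀ (g : ∀ i, G i) (u v : V), A.Adj (g • u) (g • v) ↔ A.Adj u v)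
    (t : ℕ) (ht : Nat.card (MulAction.orbitRel.Quotient (∀ i, G i) V) ≤ t) :
    Real.logb 2 (A.chromaticNumber.toNat : ℝ) ≤
      576 * (Real.logb 2 ((A.adjMatrix ℝ).rank : ℝ) + 1) ^ 8 *
        (κ * (Real.logb 2 ((A.adjMatrix ℝ).rank : ℝ)) ^ s +
          214 * (Real.logb 2 ((A.adjMatrix ℝ).rank : ℝ) + 1) ^ 5) + 2 * (Real.logb 2 t + 1) := by
  obtain ⟨c, h1, h2⟩ := final_simple κ hκ s hG (fun u v : V => decide (A.Adj u v))
    (fun g u v => by simp only [hA]) t ht ht
  rw [comm_adj] at h2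
  exact (logb_chromatic_le A h1).trans h2

end final

end Pool.Agent.H287R3.LR
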