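import Pool.Agent.H287R3.LR.Fin

/-!
# Products of perfect groups without small representations
-/

set_option autoImplicit false
set_option linter.unusedSectionVars false

namespace Pool.Agent.H287R3.LR

open Finset Pool.Agent.H630R2.LR Equiv Equiv.Perm Module

section rep

variable {Γ : Type} [Group Γ] [Fintype Γ]

/-- the representation on the row space -/
noncomputable def repW (f : Γ → Bool) : Γ →* Module.End ℂ (rowSpace f) where
  toFun g := (lreg Γ g).restrict (fun w hw => rowSpace_inv f g w hw)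
  map_one' := by
    ext w y
    simp [LinearMap.restrict_apply]
  map_mul' g h := by
    ext w y
    simp [LinearMap.restrict_apply, map_mul]

theorem repW_apply (f : Γ → Bool) (g : Γ) (w : rowSpace f) :
    ((repW f g w : rowSpace f) : Γ → ℂ) = lreg Γ g (w : Γ → ℂ) := rfl

/-- a subgroup (given by a homomorphism) acting nontrivially on the row space has a nontrivial
matrix representation of that degree -/
theorem exists_rep {H : Type} [Group H] (φ : H →* Γ) (f : Γ → Bool) (u : Γ) (g : H)
    (hne : f (φ g * u) ≠ f u) :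
    ∃ ρ : H →* Matrix.GeneralLinearGroup (Fin (finrank ℂ (rowSpace f))) ℂ, ρ ≠ 1 := by
  classical
  set b := Module.finBasis ℂ (rowSpace f) with hb
  let ψ : H →* Matrix (Fin (finrank ℂ (rowSpace f))) (Fin (finrank ℂ (rowSpace f))) ℂ :=
    ((LinearMap.toMatrixAlgEquiv b : Module.End ℂ (rowSpace f) ≃ₐ[ℂ] _) :
      Module.End ℂ (rowSpace f) →* _).comp ((repW f).comp φ)
  refine ⟨MonoidHom.toHomUnits ψ, ?_⟩
  intro h1
  have h2 : ∀ x : H, ψ x = 1 := by
    intro x
    have h3 : ((MonoidHom.toHomUnits ψ x : Matrix.GeneralLinearGroup _ ℂ) : Matrix _ _ ℂ) = ψ x :=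
      MonoidHom.coe_toHomUnits ψ x
    rw [← h3, h1]
    rfl
  have h4 : repW f (φ g⁻¹) = 1 := by
    apply (LinearMap.toMatrixAlgEquiv b).injective
    rw [map_one]
    exact h2 g⁻¹
  have h5 := congrArg (fun T : Module.End ℂ (rowSpace f) =>
    (((T ⟨chi f, chi_mem f⟩ : rowSpace f) : Γ → ℂ) u)) h4
  simp only [Module.End.one_apply] at h5
  rw [repW_apply, lreg_apply, map_inv, inv_inv] at h5
  apply hne
  simp only [chi] at h5
  by_cases ha : f (φ g * u) = true <;> by_cases hb : f u = true <;> simp_all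

end rep

section quasi

variable {I : Type} [Fintype I] [DecidableEq I] {G : I → Type} [∀ i, Group (G i)]

/-- the function depends on coordinate `i` -/
def Rel (f : (∀ i, G i) → Bool) (i : I) : Prop :=
  ∃ (u : ∀ i, G i) (g : G i), f (Pi.mulSingle i g * u) ≠ f u

theorem update_eq (u : ∀ i, G i) (i : I) (a : G i) :
    Function.update u i a = Pi.mulSingle i (a * (u i)⁻¹) * u := by
  funext j
  rw [Pi.mul_apply]
  by_cases hj : j = i
  · subst hj
    simp
  · rw [Function.update_of_ne hj, Pi.mulSingle_eq_of_ne hj, one_mul]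

theorem eq_of_agree (f : (∀ i, G i) → Bool) (x y : ∀ i, G i) (h : ∀ i, Rel f i → x i = y i) :
    f x = f y := by
  classical
  have key : ∀ T : Finset I, (∀ i ∈ T, ¬ Rel f i) → f (T.piecewise x y) = f y := by
    intro T
    induction T using Finset.induction_on with
    | empty => intro _; rw [Finset.piecewise_empty]
    | insert i T hi ih =>
      intro hT
      have h1 := ih (fun j hj => hT j (Finset.mem_insert_of_mem hj))
      have h2 : ¬ Rel f i := hT i (Finset.mem_insert_self _ _)
      rw [Finset.piecewise_insert, update_eq]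
      have h3 : f (Pi.mulSingle i (x i * ((T.piecewise x y) i)⁻¹) * T.piecewise x y) =
          f (T.piecewise x y) := by
        by_contra hne
        exact h2 ⟨_, _, hne⟩
      rw [h3, h1]
  have h1 := key (univ.filter (fun i => ¬ Rel f i)) (fun i hi => (Finset.mem_filter.1 hi).2)
  rw [← h1]
  congr 1
  funext j
  by_cases hj : Rel f j
  · rw [Finset.piecewise_eq_of_notMem _ _ _ (by simp [hj]), h j hj]
  · rw [Finset.piecewise_eq_of_mem _ _ _ (by simp [hj])]

theorem proto_quasi [∀ i, Fintype (G i)] (hperf : ∀ i, commutator (G i) = ⊤) (w r : ℕ)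
    (f : (∀ i, G i) → Bool) (hw : ∀ i, Rel f i → Fintype.card (G i) ≤ 2 ^ w)
    (hr : (comm (fun x y : ∀ i, G i => f (x⁻¹ * y))).rank ≤ r) :
    Proto (fun x y : ∀ i, G i => f (x⁻¹ * y)) (pcost (2 ^ w) r) := by
  classical
  let J := {i : I // Rel f i}
  let ext : (∀ j : J, G j.1) → (∀ i, G i) := fun z i => if h : Rel f i then z ⟨i, h⟩ else 1
  have hext : ∀ x y : ∀ j : J, G j.1, ext (x⁻¹ * y) = (ext x)⁻¹ * ext y := by
    intro x y
    funext i
    by_cases h : Rel f i
    · simp [ext, h]
    · simp [ext, h]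
  set f' : (∀ j : J, G j.1) → Bool := fun z => f (ext z) with hf'
  have h1 : (comm (fun x y : ∀ j : J, G j.1 => f' (x⁻¹ * y))).rank ≤ r := by
    have e : comm (fun x y : ∀ j : J, G j.1 => f' (x⁻¹ * y)) =
        (comm (fun x y : ∀ i, G i => f (x⁻¹ * y))).submatrix ext ext := by
      ext x y
      show (if f (ext (x⁻¹ * y)) then (1 : ℝ) else 0) =
        if f ((ext x)⁻¹ * ext y) then (1 : ℝ) else 0
      rw [hext]
    rw [e]
    exact (Matrix.rank_submatrix_le _ _ _).trans hr
  have h2 := proto_prod (G := fun j : J => G j.1) (fun j => hperf j.1) (2 ^ w) r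
    (fun j => hw j.1 j.2) f' h1
  have h3 := h2.comap (fun (x : ∀ i, G i) (j : J) => x j.1) (fun (y : ∀ i, G i) (j : J) => y j.1)
  have e : (fun x y : ∀ i, G i => f (x⁻¹ * y)) = fun (x y : ∀ i, G i) =>
      f' ((fun j : J => x j.1)⁻¹ * (fun j : J => y j.1)) := by
    funext x y
    apply eq_of_agree
    intro i hi
    simp [ext, hi]
  rw [e]
  exact h3

/-- **Products of perfect groups without small representations.** -/
theorem final_quasi [∀ i, Fintype (G i)] (hperf : ∀ i, commutator (G i) = ⊤) (κ : ℝ) (hκ : 0 ≤ κ)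
    (s : ℕ) (hrep : ∀ (i : I) (d : ℕ) (ρ : G i →* Matrix.GeneralLinearGroup (Fin d) ℂ), ρ ≠ 1 →
      Real.logb 2 (Nat.card (G i)) ≤ κ * (Real.logb 2 d) ^ s) {X Y : Type} [Fintype X] [Fintype Y]
    [MulAction (∀ i, G i) X] [MulAction (∀ i, G i) Y] (F : X → Y → Bool)
    (hF : ∀ (g : ∀ i, G i) (x : X) (y : Y), F (g • x) (g • y) = F x y) (t : ℕ)
    (hX : Nat.card (MulAction.orbitRel.Quotient (∀ i, G i) X) ≤ t)
    (hY : Nat.card (MulAction.orbitRel.Quotient (∀ i, G i) Y) ≤ t) :
    ∃ c : ℕ, Proto F c ∧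
      (c : ℝ) ≤ 2 * (κ * (Real.logb 2 ((comm F).rank : ℝ)) ^ s + 1) *
        (Real.logb 2 ((comm F).rank : ℝ)) ^ 4 + 2 * (Real.logb 2 t + 1) := by
  classical
  set r := (comm F).rank with hr
  have hlr := logb_nonneg r
  set B : ℝ := κ * (Real.logb 2 (r : ℝ)) ^ s with hB
  have hB0 : 0 ≤ B := by positivity
  set w : ℕ := ⌊B⌋₊ + 1 with hw
  have hw1 : B ≤ w := by
    rw [hw]
    push_cast
    exact (Nat.lt_floor_add_one B).le
  have hw2 : (w : ℝ) ≤ B + 1 := by
    rw [hw]
    push_cast
    have := Nat.floor_le hB0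
    linarith
  refine ⟨_, orbit_reduction F hF t hX hY (pcost (2 ^ w) r) (fun f hf => ?_), ?_⟩
  · apply proto_quasi hperf w r f _ hf
    rintro i ⟨u, g, hne⟩
    obtain ⟨ρ, hρ⟩ := exists_rep (MonoidHom.mulSingle G i) f u g hne
    have h1 := hrep i _ ρ hρ
    have hd : finrank ℂ (rowSpace f) ≤ r := (finrank_rowSpace_le f).trans hf
    have h2 : Real.logb 2 (finrank ℂ (rowSpace f) : ℝ) ≤ Real.logb 2 (r : ℝ) := by
      rcases Nat.eq_zero_or_pos (finrank ℂ (rowSpace f)) with h0 | h0
      · rw [h0]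
        simpa using hlr
      · exact Real.logb_le_logb_of_le (by norm_num) (by exact_mod_cast h0) (by exact_mod_cast hd)
    have h3 : Real.logb 2 (Nat.card (G i)) ≤ w := by
      refine le_trans h1 (le_trans ?_ hw1)
      rw [hB]
      have := logb_nonneg (finrank ℂ (rowSpace f))
      gcongr
    have hcard : (0 : ℝ) < Nat.card (G i) := by exact_mod_cast Nat.card_pos
    rw [Real.logb_le_iff_le_rpow (by norm_num) hcard, Real.rpow_natCast] at h3
    rw [← Nat.card_eq_fintype_card]
    exact_mod_cast h3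
  · have h1 := pcost_le (2 ^ w) r
    have h2 := clog_le t
    -- sharper: `clog 2 (2^w) = w`
    have h3 : (pcost (2 ^ w) r : ℝ) ≤ 2 * (B + 1) * (Real.logb 2 (r : ℝ)) ^ 4 := by
      have h4 : ((∑ j ∈ range (Nat.log 2 r + 1), j ^ 3 : ℕ) : ℝ) ≤ (Real.logb 2 r) ^ 4 := by
        have h5 : (∑ j ∈ range (Nat.log 2 r + 1), j ^ 3 : ℕ) ≤ (Nat.log 2 r) ^ 4 := by
          rw [Finset.sum_range_succ']
          simp only [ne_eq, OfNat.ofNat_ne_zero, not_false_eq_true, zero_pow, add_zero]
          calc ∑ k ∈ range (Nat.log 2 r), (k + 1) ^ 3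
              ≤ ∑ k ∈ range (Nat.log 2 r), (Nat.log 2 r) ^ 3 := by
                refine Finset.sum_le_sum fun k hk => ?_
                have := Finset.mem_range.1 hk
                exact Nat.pow_le_pow_left (by omega) 3
            _ = (Nat.log 2 r) ^ 4 := by
                rw [Finset.sum_const, Finset.card_range, smul_eq_mul]; ring
        have h6 : ((∑ j ∈ range (Nat.log 2 r + 1), j ^ 3 : ℕ) : ℝ) ≤ ((Nat.log 2 r : ℝ)) ^ 4 := by
          exact_mod_cast h5
        refine h6.trans ?_
        have := log_le r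
        gcongr
      unfold pcost
      rw [Nat.clog_pow 2 w (by norm_num), Nat.cast_mul]
      push_cast at h4 ⊢
      gcongr
    push_cast
    linarith

end quasi

end Pool.Agent.H287R3.LR
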