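import Mathlib

/-!
# Commuting groups without one-dimensional constituents force exponential dimension
-/

set_option autoImplicit false

namespace Pool.Agent.H287R3.LR

open Module Module.End
open scoped commutatorElement

variable {Γ : Type*} [Group Γ] {V : Type*} [AddCommGroup V] [Module ℂ V]

/-- the product of the operators `1 - ρ π` over a list of group elements -/
noncomputable def prodOp (ρ : Γ →* Module.End ℂ V) : List Γ → Module.End ℂ V
  | [] => 1
  | π :: L => (1 - ρ π) * prodOp ρ L

theorem prodOp_comm (ρ : Γ →* Module.End ℂ V) (g : Γ) :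
    ∀ L : List Γ, (∀ π ∈ L, Commute g π) → Commute (ρ g) (prodOp ρ L)
  | [], _ => Commute.one_right _
  | π :: L, h => by
    have h1 : Commute (ρ g) (ρ π) := (h π (by simp)).map ρ
    have h2 := prodOp_comm ρ g L (fun π' hπ' => h π' (by simp [hπ']))
    exact ((Commute.one_right _).sub_right h1).mul_right h2

variable [FiniteDimensional ℂ V]

theorem iSup_eigenspace [Finite Γ] (ρ : Γ →* Module.End ℂ V) (g : Γ) :
    ⨆ μ : ℂ, (ρ g).eigenspace μ = ⊤ := by
  apply IsSemisimple.iSup_eigenspace_eq_top
  have hN : (ρ g) ^ Nat.card Γ = 1 := by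
    rw [← map_pow, pow_card_eq_one', map_one]
  have hpos : 0 < Nat.card Γ := Nat.card_pos
  apply Module.End.isSemisimple_of_squarefree_aeval_eq_zero
    (p := (Polynomial.X ^ (Nat.card Γ) - 1 : Polynomial ℂ))
  · apply Polynomial.Separable.squarefree
    rw [Polynomial.X_pow_sub_one_separable_iff]
    exact_mod_cast hpos.ne'
  · simp [hN]

theorem splitting [Finite Γ] (ρ : Γ →* Module.End ℂ V) : ∀ (L : List (Subgroup Γ × Γ))
    (W : Submodule ℂ V), (∀ p ∈ L, p.2 ∈ ⁅p.1, p.1⁆) →
    L.Pairwise (fun p q => ∀ g ∈ p.1, ∀ h ∈ q.1, Commute g h) →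
    (∀ p ∈ L, ∀ g ∈ p.1, ∀ w ∈ W, ρ g w ∈ W) →
    (∃ w ∈ W, prodOp ρ (L.map Prod.snd) w ≠ 0) → 2 ^ L.length ≤ finrank ℂ W := by
  intro L
  induction L with
  | nil =>
    intro W _ _ _ hw
    obtain ⟨w, hw, hne⟩ := hw
    simp only [List.length_nil, pow_zero]
    have hW : W ≠ ⊥ := by
      intro h
      rw [h, Submodule.mem_bot] at hw
      apply hne
      rw [hw, map_zero]
    exact Nat.one_le_iff_ne_zero.2 (fun h => hW (Submodule.finrank_eq_zero.1 h))
  | cons p L ih =>
    intro W hcomm hpw hinv hw
    obtain ⟨G, π⟩ := p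
    set Q := prodOp ρ (L.map Prod.snd) with hQ
    have hπ : π ∈ ⁅G, G⁆ := hcomm (G, π) (by simp)
    rw [List.pairwise_cons] at hpw
    have hGQ : ∀ g ∈ G, ∀ v, ρ g (Q v) = Q (ρ g v) := by
      intro g hg v
      have h1 : Commute (ρ g) Q := by
        apply prodOp_comm
        intro π' hπ'
        rw [List.mem_map] at hπ'
        obtain ⟨q, hq, rfl⟩ := hπ'
        have h2 : q.2 ∈ q.1 := by
          have h3 : ⁅q.1, q.1⁆ ≤ q.1 := by
            rw [Subgroup.commutator_le]
            intro x hx y hy
            exact q.1.mul_mem (q.1.mul_mem (q.1.mul_mem hx hy) (q.1.inv_mem hx)) (q.1.inv_mem hy)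
          exact h3 (hcomm q (by simp [hq]))
        exact hpw.1 q hq g hg _ h2
      exact LinearMap.congr_fun h1 v
    have hWG : ∀ g ∈ G, ∀ w ∈ W, ρ g w ∈ W := hinv (G, π) (by simp)
    have key : ∃ g ∈ G, ∃ a b : ℂ, a ≠ b ∧ (∃ w ∈ W ⊓ (ρ g).eigenspace a, Q w ≠ 0) ∧
        (∃ w ∈ W ⊓ (ρ g).eigenspace b, Q w ≠ 0) := by
      by_contra hcon
      push Not at hcon
      have hsc : ∀ g ∈ G, ∃ c : ℂ, ∀ w ∈ W, ρ g (Q w) = c • Q w := by
        intro g hg
        have hdec : W = ⨆ μ : ℂ, W ⊓ (ρ g).eigenspace μ := by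
          have := Submodule.eq_iSup_inf_genEigenspace (p := W) (f := ρ g) 1 (hWG g hg)
            (iSup_eigenspace ρ g)
          exact this
        by_cases hex : ∃ a : ℂ, ∃ w ∈ W ⊓ (ρ g).eigenspace a, Q w ≠ 0
        · obtain ⟨a, w0, hw0, hne0⟩ := hex
          refine ⟨a, fun w hw => ?_⟩
          rw [hdec] at hw
          refine Submodule.iSup_induction _ (motive := fun w => ρ g (Q w) = a • Q w) hw ?_ ?_ ?_
          · intro μ x hx
            by_cases hμ : a = μ
            · subst hμ
              have hx2 : x ∈ (ρ g).eigenspace a := hx.2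
              rw [Module.End.mem_eigenspace_iff] at hx2
              rw [hGQ g hg, hx2, map_smul]
            · have := hcon g hg a μ hμ ⟨w0, hw0, hne0⟩ x hx
              rw [this, map_zero, smul_zero]
          · simp
          · intro x y hx hy
            rw [map_add, map_add, hx, hy, smul_add]
        · push Not at hex
          refine ⟨0, fun w hw => ?_⟩
          rw [hdec] at hw
          refine Submodule.iSup_induction _ (motive := fun w => ρ g (Q w) = (0 : ℂ) • Q w) hw ?_ ?_ ?_
          · intro μ x hx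
            rw [hex μ x hx, map_zero, smul_zero]
          · simp
          · intro x y hx hy
            rw [map_add, map_add, hx, hy, smul_add]
      -- the subgroup acting trivially
      let S : Subgroup Γ :=
        { carrier := {γ | ∀ w ∈ W, ρ γ (Q w) = Q w}
          one_mem' := by intro w _; simp
          mul_mem' := by
            intro x y hx hy w hw
            rw [map_mul, Module.End.mul_apply, hy w hw, hx w hw]
          inv_mem' := by
            intro x hx w hw
            have h1 := hx w hw
            conv_lhs => rw [← h1]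
            rw [← Module.End.mul_apply, ← map_mul, inv_mul_cancel, map_one, Module.End.one_apply] }
      have hle : ⁅G, G⁆ ≤ S := by
        rw [Subgroup.commutator_le]
        intro g hg h hh w hw
        obtain ⟨a, ha⟩ := hsc g hg
        obtain ⟨a', ha'⟩ := hsc g⁻¹ (G.inv_mem hg)
        obtain ⟨b, hb⟩ := hsc h hh
        obtain ⟨b', hb'⟩ := hsc h⁻¹ (G.inv_mem hh)
        have ha := ha w hw
        have ha' := ha' w hw
        have hb := hb w hw
        have hb' := hb' w hw
        have e1 : (a * a') • Q w = Q w := by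
          have : ρ g (ρ g⁻¹ (Q w)) = Q w := by
            rw [← Module.End.mul_apply, ← map_mul, mul_inv_cancel, map_one, Module.End.one_apply]
          rw [ha', map_smul, ha, smul_smul, mul_comm] at this
          exact this
        have e2 : (b * b') • Q w = Q w := by
          have : ρ h (ρ h⁻¹ (Q w)) = Q w := by
            rw [← Module.End.mul_apply, ← map_mul, mul_inv_cancel, map_one, Module.End.one_apply]
          rw [hb', map_smul, hb, smul_smul, mul_comm] at this
          exact this
        have e3 : b' * a' * b * a = (a * a') * (b * b') := by ring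
        calc ρ ⁅g, h⁆ (Q w) = ρ g (ρ h (ρ g⁻¹ (ρ h⁻¹ (Q w)))) := by
              rw [commutatorElement_def, map_mul, map_mul, map_mul, Module.End.mul_apply,
                Module.End.mul_apply, Module.End.mul_apply]
          _ = (b' * a' * b * a) • Q w := by
              simp only [hb', ha', hb, ha, map_smul, smul_smul]
          _ = Q w := by rw [e3, mul_smul, e2, e1]
      obtain ⟨w, hw, hne⟩ := hw
      apply hne
      have := hle hπ w hw
      show ((1 - ρ π) * Q) w = 0
      rw [Module.End.mul_apply, LinearMap.sub_apply, Module.End.one_apply, this, sub_self]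
    obtain ⟨g, hg, a, b, hab, ha, hb⟩ := key
    have hsub : ∀ c : ℂ, (∃ w ∈ W ⊓ (ρ g).eigenspace c, Q w ≠ 0) →
        2 ^ L.length ≤ finrank ℂ (W ⊓ (ρ g).eigenspace c : Submodule ℂ V) := by
      intro c hc
      apply ih (W ⊓ (ρ g).eigenspace c) (fun q hq => hcomm q (by simp [hq])) hpw.2 ?_ hc
      intro q hq h hh w hw
      refine ⟨hinv q (by simp [hq]) h hh w hw.1, ?_⟩
      have hw2 : w ∈ (ρ g).eigenspace c := hw.2
      show ρ h w ∈ (ρ g).eigenspace c
      rw [Module.End.mem_eigenspace_iff] at hw2 ⊢
      have hc1 : Commute (ρ g) (ρ h) := (hpw.1 q hq g hg h hh).map ρ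
      have := LinearMap.congr_fun hc1 w
      rw [Module.End.mul_apply, Module.End.mul_apply] at this
      rw [this, hw2, map_smul]
    have hA := hsub a ha
    have hB := hsub b hb
    have hdisj : (W ⊓ (ρ g).eigenspace a) ⊓ (W ⊓ (ρ g).eigenspace b) = ⊥ := by
      rw [eq_bot_iff]
      intro x hx
      have h1 : x ∈ (ρ g).eigenspace a := hx.1.2
      have h2 : x ∈ (ρ g).eigenspace b := hx.2.2
      rw [Module.End.mem_eigenspace_iff] at h1 h2
      rw [Submodule.mem_bot]
      rw [h1] at h2
      have h3 : (a - b) • x = 0 := by rw [sub_smul, h2, sub_self]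
      exact (smul_eq_zero.1 h3).resolve_left (sub_ne_zero.2 hab)
    have h1 := Submodule.finrank_sup_add_finrank_inf_eq (W ⊓ (ρ g).eigenspace a)
      (W ⊓ (ρ g).eigenspace b)
    rw [hdisj, finrank_bot, add_zero] at h1
    have h2 : finrank ℂ ((W ⊓ (ρ g).eigenspace a) ⊔ (W ⊓ (ρ g).eigenspace b) : Submodule ℂ V) ≤
        finrank ℂ W := Submodule.finrank_mono (sup_le inf_le_left inf_le_left)
    rw [List.length_cons, pow_succ]
    omega

end Pool.Agent.H287R3.LR
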