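import Pool.Agent.H287R3.LR.Alt

/-!
# Functions on the symmetric group: block sensitivity and certificates
-/

set_option autoImplicit false
set_option linter.unusedSectionVars false

namespace Pool.Agent.H287R3.LR

open Finset Pool.Agent.H630R2.LR Equiv Equiv.Perm
open scoped commutatorElement

/-- even permutations are products of commutators -/
theorem alt_le_comm (β : Type*) [Fintype β] [DecidableEq β] :
    alternatingGroup β ≤ ⁅(⊤ : Subgroup (Perm β)), ⊤⁆ := by
  rw [← closure_three_cycles_eq_alternating, Subgroup.closure_le]
  intro τ hτ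
  have hτ3 : τ.IsThreeCycle := hτ
  have h1 : IsConj τ τ⁻¹ := by
    rw [isConj_iff_cycleType_eq, cycleType_inv]
  rw [isConj_iff] at h1
  obtain ⟨g, hg⟩ := h1
  have h2 : ⁅g, τ⁆ = τ := by
    rw [commutatorElement_def, hg]
    have h3 : τ ^ 3 = 1 := by
      rw [← hτ3.orderOf]
      exact pow_orderOf_eq_one τ
    have h4 : τ * τ * τ = 1 := by
      rw [← h3]
      rfl
    calc τ⁻¹ * τ⁻¹ = (τ * τ)⁻¹ := by rw [mul_inv_rev]
      _ = τ := by
        rw [inv_eq_iff_mul_eq_one]
        exact h4
  rw [SetLike.mem_coe, ← h2]
  exact Subgroup.commutator_mem_commutator (Subgroup.mem_top _) (Subgroup.mem_top _)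

variable {α : Type} [Fintype α] [DecidableEq α]

/-- permutations supported in `B` -/
def symOn (B : Finset α) : Subgroup (Perm α) := (ofSubtype (p := fun x => x ∈ B)).range

theorem mem_symOn_fix {B : Finset α} {g : Perm α} (hg : g ∈ symOn B) {x : α} (hx : x ∉ B) :
    g x = x := by
  obtain ⟨g', rfl⟩ := hg
  exact ofSubtype_apply_of_not_mem _ hx

theorem even_mem_comm_aux (p : α → Prop) [DecidablePred p] {π : Perm α}
    (hne : ∀ x, π x ≠ x → p x) (hs : sign π = 1) :
    π ∈ ⁅(ofSubtype (p := p)).range, (ofSubtype (p := p)).range⁆ := by
  have h1 : ∀ x, p (π x) ↔ p x := by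
    intro x
    by_cases hx : π x = x
    · rw [hx]
    · have h2 : p x := hne x hx
      have h3 : p (π x) := hne (π x) (fun h => hx (π.injective h))
      exact ⟨fun _ => h2, fun _ => h3⟩
  have h2 : ofSubtype (π.subtypePerm h1) = π := ofSubtype_subtypePerm h1 hne
  have h3 : sign (π.subtypePerm h1) = 1 := by rw [sign_subtypePerm π h1 hne, hs]
  have h4 : π.subtypePerm h1 ∈ ⁅(⊤ : Subgroup (Perm {x // p x})), (⊤ : Subgroup _)⁆ := by
    apply alt_le_comm
    rw [mem_alternatingGroup]
    exact h3
  rw [MonoidHom.range_eq_map, ← Subgroup.map_commutator]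
  exact ⟨_, h4, h2⟩

theorem even_mem_comm {B : Finset α} {π : Perm α} (hπ : π.support ⊆ B) (hs : sign π = 1) :
    π ∈ ⁅symOn B, symOn B⁆ :=
  even_mem_comm_aux (fun x => x ∈ B) (fun x hx => hπ (mem_support.2 hx)) hs

theorem symOn_commute {B B' : Finset α} (h : Disjoint B B') {g g' : Perm α} (hg : g ∈ symOn B)
    (hg' : g' ∈ symOn B') : Commute g g' := by
  apply Equiv.Perm.Disjoint.commute
  intro x
  by_cases hx : x ∈ B
  · right
    exact mem_symOn_fix hg' (Finset.disjoint_left.1 h hx)
  · left
    exact mem_symOn_fix hg hx

/-- the communication matrix of `f(σ⁻¹τ)` has this rank -/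
noncomputable def rk (f : Perm α → Bool) : ℕ := (comm (fun σ τ : Perm α => f (σ⁻¹ * τ))).rank

/-- Step A -/
theorem sens_bound (f : Perm α → Bool) (σ : Perm α) {b : ℕ} (π : Fin b → Perm α)
    (hs : ∀ i, sign (π i) = 1) (hd : ∀ i j, i ≠ j → Disjoint (π i).support (π j).support)
    (hf : ∀ i, f (π i * σ) ≠ f σ) : b ≤ (Nat.log 2 (rk f)) ^ 2 := by
  apply bs_bound f σ (fun i => symOn (π i).support) π
  · intro i
    exact even_mem_comm (Finset.Subset.refl _) (hs i)
  · intro i j hij g hg h hh
    exact symOn_commute (hd i j hij) hg hh
  · exact hf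

/-- Step B -/
theorem min_support (f : Perm α → Bool) (σ π : Perm α) (hs : sign π = 1)
    (hf : f (π * σ) ≠ f σ)
    (hmin : ∀ π' : Perm α, sign π' = 1 → π'.support.card < π.support.card →
      π'.support ⊆ π.support → f (π' * σ) = f σ) :
    π.support.card ≤ 6 * (Nat.log 2 (rk f)) ^ 2 + 5 := by
  classical
  by_contra hlt
  have key : ∀ m : ℕ, 6 * m ≤ π.support.card → ∃ ρ : Fin m → Perm α,
      (∀ i, sign (ρ i) = 1 ∧ (ρ i).support ⊆ π.support ∧ (ρ i).support.card ≤ 3 ∧
        f (ρ i * (π * σ)) ≠ f (π * σ)) ∧
      (∀ i j, i ≠ j → Disjoint (ρ i).support (ρ j).support) := by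
    intro m
    induction m with
    | zero => intro _; exact ⟨fun i => i.elim0, fun i => i.elim0, fun i => i.elim0⟩
    | succ m ih =>
      intro hm
      obtain ⟨ρ, h1, h2⟩ := ih (by omega)
      set U : Finset α := univ.biUnion (fun i => (ρ i).support) with hU
      have hUc : U.card ≤ 3 * m := by
        calc U.card ≤ ∑ i : Fin m, (ρ i).support.card := Finset.card_biUnion_le
          _ ≤ ∑ _i : Fin m, 3 := Finset.sum_le_sum (fun i _ => (h1 i).2.2.1)
          _ = 3 * m := by simp [mul_comm]
      set U2 : Finset α := U.image (fun x => π⁻¹ x) with hU2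
      have hU2c : U2.card ≤ 3 * m := le_trans Finset.card_image_le hUc
      have hb : ∃ b ∈ π.support, b ∉ U ∪ U2 := by
        by_contra hcon
        push Not at hcon
        have hle : π.support ⊆ U ∪ U2 := hcon
        have := Finset.card_le_card hle
        have := Finset.card_union_le U U2
        omega
      obtain ⟨b, hbπ, hbU⟩ := hb
      rw [Finset.mem_union, not_or] at hbU
      have hπb : π b ∉ U := by
        intro h
        apply hbU.2
        rw [hU2, Finset.mem_image]
        exact ⟨π b, h, by simp⟩
      have hc : ∃ c ∈ π.support, c ∉ U ∪ {b, π b} := by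
        by_contra hcon
        push Not at hcon
        have hle : π.support ⊆ U ∪ {b, π b} := hcon
        have h3 := Finset.card_le_card hle
        have h4 := Finset.card_union_le U {b, π b}
        have h5 : ({b, π b} : Finset α).card ≤ 2 := Finset.card_le_two
        omega
      obtain ⟨c, hcπ, hcU⟩ := hc
      simp only [Finset.mem_union, Finset.mem_insert, Finset.mem_singleton, not_or] at hcU
      obtain ⟨hcU, hcb, hcπb⟩ := hcU
      have hbne : π b ≠ b := mem_support.1 hbπ
      have hπbπ : π b ∈ π.support := by
        rw [mem_support]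
        intro h
        exact hbne (π.injective h)
      set ν : Perm α := Equiv.swap b (π b) * Equiv.swap b c with hν
      have hνsign : sign ν = 1 := by
        rw [hν, map_mul, sign_swap hbne.symm, sign_swap (Ne.symm hcb)]
        decide
      have hνfix : ∀ x, x ≠ b → x ≠ π b → x ≠ c → ν x = x := by
        intro x h1 h2 h3
        rw [hν, Perm.mul_apply, Equiv.swap_apply_of_ne_of_ne h1 h3,
          Equiv.swap_apply_of_ne_of_ne h1 h2]
      have hνsupp : ν.support ⊆ {b, π b, c} := by
        intro x hx
        rw [mem_support] at hx
        by_contra hcon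
        simp only [Finset.mem_insert, Finset.mem_singleton, not_or] at hcon
        exact hx (hνfix x hcon.1 hcon.2.1 hcon.2.2)
      have hνπ : ν.support ⊆ π.support := by
        intro x hx
        have := hνsupp hx
        simp only [Finset.mem_insert, Finset.mem_singleton] at this
        rcases this with rfl | rfl | rfl
        · exact hbπ
        · exact hπbπ
        · exact hcπ
      have hνU : Disjoint ν.support U := by
        rw [Finset.disjoint_left]
        intro x hx
        have := hνsupp hx
        simp only [Finset.mem_insert, Finset.mem_singleton] at this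
        rcases this with rfl | rfl | rfl
        · exact hbU.1
        · exact hπb
        · exact hcU
      have hνπb : (ν * π) b = b := by
        rw [Perm.mul_apply, hν, Perm.mul_apply,
          Equiv.swap_apply_of_ne_of_ne hbne (fun h => hcπb h.symm), Equiv.swap_apply_right]
      have hνπs : (ν * π).support ⊆ π.support := by
        intro x hx
        by_contra hcon
        have hx1 : π x = x := by
          rw [mem_support, not_not] at hcon
          exact hcon
        have hx2 : ν x = x := by
          by_contra h
          exact hcon (hνπ (mem_support.2 h))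
        rw [mem_support] at hx
        apply hx
        rw [Perm.mul_apply, hx1, hx2]
      have hνπc : (ν * π).support.card < π.support.card := by
        apply Finset.card_lt_card
        refine ⟨hνπs, fun h => ?_⟩
        have := h hbπ
        rw [mem_support] at this
        exact this hνπb
      have hval : f (ν * (π * σ)) = f σ := by
        rw [← mul_assoc]
        exact hmin _ (by rw [map_mul, hνsign, hs, one_mul]) hνπc hνπs
      refine ⟨Fin.cons ν ρ, ?_, ?_⟩
      · intro i
        refine Fin.cases ?_ ?_ i
        · simp only [Fin.cons_zero]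
          refine ⟨hνsign, hνπ, le_trans (Finset.card_le_card hνsupp) Finset.card_le_three, ?_⟩
          rw [hval]
          exact hf.symm
        · intro i
          simp only [Fin.cons_succ]
          exact h1 i
      · intro i j
        refine Fin.cases ?_ (fun i => ?_) i
        · refine Fin.cases ?_ (fun j => ?_) j
          · intro h; exact absurd rfl h
          · intro _
            simp only [Fin.cons_zero, Fin.cons_succ]
            apply Finset.disjoint_of_subset_right _ hνU
            intro x hx
            rw [hU, Finset.mem_biUnion]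
            exact ⟨j, Finset.mem_univ _, hx⟩
        · refine Fin.cases ?_ (fun j => ?_) j
          · intro _
            simp only [Fin.cons_zero, Fin.cons_succ]
            apply Disjoint.symm
            apply Finset.disjoint_of_subset_right _ hνU
            intro x hx
            rw [hU, Finset.mem_biUnion]
            exact ⟨i, Finset.mem_univ _, hx⟩
          · intro hij
            simp only [Fin.cons_succ]
            exact h2 i j (fun h => hij (by rw [h]))
  obtain ⟨ρ, h1, h2⟩ := key ((Nat.log 2 (rk f)) ^ 2 + 1) (by omega)
  have := sens_bound f (π * σ) ρ (fun i => (h1 i).1) h2 (fun i => (h1 i).2.2.2)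
  omega

/-- bound on certificate sizes -/
noncomputable def cb (f : Perm α → Bool) : ℕ :=
  ((Nat.log 2 (rk f)) ^ 2 + 1) * (6 * (Nat.log 2 (rk f)) ^ 2 + 5)

/-- Step C -/
theorem exists_cert (f : Perm α → Bool) (σ : Perm α) : ∃ B : Finset α, B.card ≤ cb f ∧
    ∀ ρ : Perm α, sign ρ = 1 → Disjoint ρ.support B → f (ρ * σ) = f σ := by
  classical
  set s := 6 * (Nat.log 2 (rk f)) ^ 2 + 5 with hs
  have key : ∀ j : ℕ, (∃ B : Finset α, B.card ≤ j * s ∧
      ∀ ρ : Perm α, sign ρ = 1 → Disjoint ρ.support B → f (ρ * σ) = f σ) ∨
      (∃ π : Fin j → Perm α, (∀ i, sign (π i) = 1 ∧ (π i).support.card ≤ s ∧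
        f (π i * σ) ≠ f σ) ∧ (∀ i j, i ≠ j → Disjoint (π i).support (π j).support)) := by
    intro j
    induction j with
    | zero => right; exact ⟨fun i => i.elim0, fun i => i.elim0, fun i => i.elim0⟩
    | succ j ih =>
      rcases ih with ⟨B, hB, hc⟩ | ⟨π, h1, h2⟩
      · left
        exact ⟨B, hB.trans (Nat.mul_le_mul_right _ (Nat.le_succ j)), hc⟩
      · set B : Finset α := univ.biUnion (fun i => (π i).support) with hBdef
        have hBc : B.card ≤ j * s := by
          calc B.card ≤ ∑ i : Fin j, (π i).support.card := Finset.card_biUnion_le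
            _ ≤ ∑ _i : Fin j, s := Finset.sum_le_sum (fun i _ => (h1 i).2.1)
            _ = j * s := by simp
        by_cases hcert : ∀ ρ : Perm α, sign ρ = 1 → Disjoint ρ.support B → f (ρ * σ) = f σ
        · left
          exact ⟨B, hBc.trans (Nat.mul_le_mul_right _ (Nat.le_succ j)), hcert⟩
        · right
          -- choose a counterexample with the smallest support
          have hne : (univ.filter (fun ρ : Perm α => sign ρ = 1 ∧ Disjoint ρ.support B ∧
              f (ρ * σ) ≠ f σ)).Nonempty := by
            push Not at hcert
            obtain ⟨ρ, a, b, c⟩ := hcert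
            exact ⟨ρ, by simp [a, b, c]⟩
          obtain ⟨ν, hν, hmin⟩ := Finset.exists_min_image _ (fun ρ : Perm α => ρ.support.card) hne
          rw [Finset.mem_filter] at hν
          obtain ⟨-, hν1, hν2, hν3⟩ := hν
          have hνc : ν.support.card ≤ s := by
            apply min_support f σ ν hν1 hν3
            intro π' hπ' hlt hsub
            by_contra hcon
            have := hmin π' (by
              rw [Finset.mem_filter]
              exact ⟨Finset.mem_univ _, hπ', Finset.disjoint_of_subset_left hsub hν2, hcon⟩)
            omega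
          refine ⟨Fin.cons ν π, ?_, ?_⟩
          · intro i
            refine Fin.cases ?_ (fun i => ?_) i
            · simp only [Fin.cons_zero]
              exact ⟨hν1, hνc, hν3⟩
            · simp only [Fin.cons_succ]
              exact h1 i
          · intro i j
            refine Fin.cases ?_ (fun i => ?_) i
            · refine Fin.cases ?_ (fun j => ?_) j
              · intro h; exact absurd rfl h
              · intro _
                simp only [Fin.cons_zero, Fin.cons_succ]
                apply Finset.disjoint_of_subset_right _ hν2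
                intro x hx
                rw [hBdef, Finset.mem_biUnion]
                exact ⟨j, Finset.mem_univ _, hx⟩
            · refine Fin.cases ?_ (fun j => ?_) j
              · intro _
                simp only [Fin.cons_zero, Fin.cons_succ]
                apply Disjoint.symm
                apply Finset.disjoint_of_subset_right _ hν2
                intro x hx
                rw [hBdef, Finset.mem_biUnion]
                exact ⟨i, Finset.mem_univ _, hx⟩
              · intro hij
                simp only [Fin.cons_succ]
                exact h2 i j (fun h => hij (by rw [h]))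
  rcases key ((Nat.log 2 (rk f)) ^ 2 + 1) with h | ⟨π, h1, h2⟩
  · exact h
  · exfalso
    have := sens_bound f σ π (fun i => (h1 i).1) h2 (fun i => (h1 i).2.2)
    omega

/-- Step D -/
theorem exists_cert' (f : Perm α → Bool) (σ : Perm α) : ∃ A : Finset α, A.card ≤ cb f ∧
    ∀ τ : Perm α, sign τ = sign σ → (∀ a ∈ A, τ a = σ a) → f τ = f σ := by
  classical
  obtain ⟨B, hB, hc⟩ := exists_cert f σ
  refine ⟨B.image (fun x => σ⁻¹ x), le_trans Finset.card_image_le hB, ?_⟩
  intro τ hτ h
  have h1 := hc (τ * σ⁻¹) ?_ ?_
  · rwa [inv_mul_cancel_right] at h1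
  · rw [map_mul, hτ, ← map_mul, mul_inv_cancel, map_one]
  · rw [Finset.disjoint_right]
    intro b hb
    rw [mem_support, not_not, Perm.mul_apply, h (σ⁻¹ b) (Finset.mem_image_of_mem _ hb)]
    simp

end Pool.Agent.H287R3.LR
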