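import Pool.Agent.H287R3.LR.SymA

/-!
# Functions on the symmetric group: the protocol
-/

set_option autoImplicit false
set_option linter.unusedSectionVars false

namespace Pool.Agent.H287R3.LR

open Finset Pool.Agent.H630R2.LR Equiv Equiv.Perm

variable {α : Type} [Fintype α] [DecidableEq α]

/-- Step E: common extension with prescribed sign -/
theorem exists_extend (g₀ g₁ : Perm α) (A₀ A₁ : Finset α)
    (hcard : A₀.card + A₁.card + 2 ≤ Fintype.card α)
    (h1 : ∀ a ∈ A₀, a ∈ A₁ → g₀ a = g₁ a)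
    (h2 : ∀ a ∈ A₀, ∀ b ∈ A₁, g₀ a = g₁ b → a = b) :
    ∃ τ : Perm α, sign τ = sign g₀ ∧ (∀ a ∈ A₀, τ a = g₀ a) ∧ (∀ a ∈ A₁, τ a = g₁ a) := by
  classical
  set w : α → α := fun a => if a ∈ A₀ then g₀ a else g₁ a with hw
  have hinj : Set.InjOn w (↑(A₀ ∪ A₁) : Set α) := by
    intro a ha b hb hab
    rw [Finset.coe_union] at ha hb
    simp only [hw] at hab
    by_cases ha0 : a ∈ A₀ <;> by_cases hb0 : b ∈ A₀
    · rw [if_pos ha0, if_pos hb0] at hab
      exact g₀.injective hab
    · rw [if_pos ha0, if_neg hb0] at hab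
      have hb1 : b ∈ A₁ := by
        rcases hb with h | h
        · exact absurd h hb0
        · exact h
      exact h2 a ha0 b hb1 hab
    · rw [if_neg ha0, if_pos hb0] at hab
      have ha1 : a ∈ A₁ := by
        rcases ha with h | h
        · exact absurd h ha0
        · exact h
      exact (h2 b hb0 a ha1 hab.symm).symm
    · rw [if_neg ha0, if_neg hb0] at hab
      exact g₁.injective hab
  obtain ⟨g, hg⟩ := Finset.exists_equiv_extend_of_card_eq (t := (Finset.univ : Finset α))
    (by rw [Finset.card_univ]) (Finset.subset_univ _) hinj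
  set τ₀ : Perm α := g.trans (Equiv.subtypeUnivEquiv (fun x => Finset.mem_univ x)) with hτ₀
  have hτa : ∀ a ∈ A₀ ∪ A₁, τ₀ a = w a := fun a ha => hg a ha
  have hτ0 : ∀ a ∈ A₀, τ₀ a = g₀ a := by
    intro a ha
    rw [hτa a (Finset.mem_union_left _ ha)]
    simp only [hw, if_pos ha]
  have hτ1 : ∀ a ∈ A₁, τ₀ a = g₁ a := by
    intro a ha
    rw [hτa a (Finset.mem_union_right _ ha)]
    by_cases h0 : a ∈ A₀
    · simp only [hw, if_pos h0]
      exact h1 a h0 ha
    · simp only [hw, if_neg h0]
  by_cases hs : sign τ₀ = sign g₀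
  · exact ⟨τ₀, hs, hτ0, hτ1⟩
  · have hc : 1 < (A₀ ∪ A₁)ᶜ.card := by
      rw [Finset.card_compl]
      have := Finset.card_union_le A₀ A₁
      omega
    rw [Finset.one_lt_card] at hc
    obtain ⟨x, hx, y, hy, hxy⟩ := hc
    rw [Finset.mem_compl, Finset.mem_union, not_or] at hx hy
    have hfix : ∀ a, (a ∈ A₀ ∨ a ∈ A₁) → Equiv.swap x y a = a := by
      intro a ha
      apply Equiv.swap_apply_of_ne_of_ne
      · rintro rfl
        rcases ha with h | h
        · exact hx.1 h
        · exact hx.2 h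
      · rintro rfl
        rcases ha with h | h
        · exact hy.1 h
        · exact hy.2 h
    refine ⟨τ₀ * Equiv.swap x y, ?_, ?_, ?_⟩
    · rw [map_mul, sign_swap hxy]
      rcases Int.units_eq_one_or (sign τ₀) with h3 | h3 <;>
        rcases Int.units_eq_one_or (sign g₀) with h4 | h4 <;> simp [h3, h4] at hs ⊢
    · intro a ha
      rw [Perm.mul_apply, hfix a (Or.inl ha), hτ0 a ha]
    · intro a ha
      rw [Perm.mul_apply, hfix a (Or.inr ha), hτ1 a ha]

theorem reveal1 (A : Finset α) (w : ℕ) (hw : Fintype.card (A → α) ≤ 2 ^ w)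
    (Fd : (A → α) → Perm α → Perm α → Bool) (c : ℕ) (h : ∀ d, Proto (Fd d) c) :
    Proto (fun σ τ => Fd (fun a => (σ⁻¹ * τ) a) σ τ) (c + w + w) := by
  refine Proto.sendY _ (fun (τ : Perm α) (a : A) => τ a) w hw
    (fun p σ τ => Fd (fun a => σ⁻¹ (p a)) σ τ) (c + w) (fun p => ?_) (fun σ τ => rfl)
  exact Proto.sendX _ (fun (σ : Perm α) (a : A) => σ⁻¹ (p a)) w hw
    (fun q σ τ => Fd q σ τ) c (fun q => h q) (fun _ _ => rfl)

theorem reveal2 (A : Finset α) (w : ℕ) (hw : Fintype.card (A → α) ≤ 2 ^ w)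
    (Fd : (A → α) → Perm α → Perm α → Bool) (c : ℕ) (h : ∀ d, Proto (Fd d) c) :
    Proto (fun σ τ => Fd (fun a => (σ⁻¹ * τ)⁻¹ a) σ τ) (c + w + w) := by
  refine Proto.sendX _ (fun (σ : Perm α) (a : A) => σ a) w hw
    (fun p σ τ => Fd (fun a => τ⁻¹ (p a)) σ τ) (c + w) (fun p => ?_) (fun σ τ => ?_)
  · exact Proto.sendY _ (fun (τ : Perm α) (a : A) => τ⁻¹ (p a)) w hw
      (fun q σ τ => Fd q σ τ) c (fun q => h q) (fun _ _ => rfl)
  · simp only [mul_inv_rev, inv_inv, Perm.mul_apply]

/-- consistency with the knowledge `v` on `K` -/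
def Cons (K : Finset α) (v g : Perm α) : Prop := sign g = sign v ∧ ∀ a ∈ K, g a = v a

theorem round (f : Perm α → Bool) (C w : ℕ) (A : Perm α → Finset α)
    (hA : ∀ g, (A g).card ≤ C)
    (hcert : ∀ g g' : Perm α, sign g' = sign g → (∀ a ∈ A g, g' a = g a) → f g' = f g)
    (hC : 2 * C + 2 ≤ Fintype.card α) (hw : ∀ B : Finset α, B.card ≤ C →
      Fintype.card (B → α) ≤ 2 ^ w) :
    ∀ (j : ℕ) (K : Finset α) (v : Perm α),
      (∀ g₀, Cons K v g₀ → f g₀ = false → (A g₀ \ K).card ≤ j) →
      ∃ F' : Perm α → Perm α → Bool, Proto F' (j * (4 * w)) ∧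
        ∀ σ τ : Perm α, Cons K v (σ⁻¹ * τ) → F' σ τ = f (σ⁻¹ * τ) := by
  classical
  intro j
  induction j with
  | zero =>
    intro K v hK
    by_cases h0 : ∃ g₀, Cons K v g₀ ∧ f g₀ = false
    · obtain ⟨g₀, hc0, hf0⟩ := h0
      refine ⟨fun _ _ => false, (Proto.const _ false (fun _ _ => rfl)).mono (Nat.zero_le _), ?_⟩
      intro σ τ hc
      have hsub : A g₀ ⊆ K := by
        have := hK g₀ hc0 hf0
        rw [Nat.le_zero, Finset.card_eq_zero, Finset.sdiff_eq_empty_iff_subset] at this
        exact this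
      rw [hcert g₀ (σ⁻¹ * τ) (by rw [hc.1, hc0.1]) (fun a ha => by
        rw [hc.2 a (hsub ha), hc0.2 a (hsub ha)]), hf0]
    · push Not at h0
      refine ⟨fun _ _ => true, (Proto.const _ true (fun _ _ => rfl)).mono (Nat.zero_le _), ?_⟩
      intro σ τ hc
      have := h0 _ hc
      simpa using this
  | succ j ih =>
    intro K v hK
    by_cases h1 : ∃ g₁, Cons K v g₁ ∧ f g₁ = true
    · obtain ⟨g₁, hc1, hf1⟩ := h1
      set A₁ := A g₁ with hA₁
      set R := A₁.image g₁ with hR
      have hRc : R.card ≤ C := le_trans Finset.card_image_le (hA g₁)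
      -- the new state
      have hnew : ∀ g : Perm α, Cons K v g → ∃ F' : Perm α → Perm α → Bool,
          Proto F' (j * (4 * w)) ∧ ∀ σ τ : Perm α,
            Cons (K ∪ A₁ ∪ R.image (fun b => g⁻¹ b)) g (σ⁻¹ * τ) → F' σ τ = f (σ⁻¹ * τ) := by
        intro g hg
        apply ih
        intro g₀ hc0 hf0
        by_contra hlt
        have hc0' : Cons K v g₀ := by
          refine ⟨by rw [hc0.1, hg.1], fun a ha => ?_⟩
          rw [hc0.2 a (by simp [ha]), hg.2 a ha]
        have hb := hK g₀ hc0' hf0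
        set K' := K ∪ A₁ ∪ R.image (fun b => g⁻¹ b) with hK'
        -- no progress
        have hsub : A g₀ \ K' ⊆ A g₀ \ K := by
          apply Finset.sdiff_subset_sdiff (Finset.Subset.refl _)
          intro x hx
          simp [hK', hx]
        have heq : A g₀ \ K' = A g₀ \ K := by
          apply Finset.eq_of_subset_of_card_le hsub
          omega
        have hin : ∀ a ∈ A g₀, a ∈ K' → a ∈ K := by
          intro a ha haK'
          by_contra haK
          have : a ∈ A g₀ \ K := Finset.mem_sdiff.2 ⟨ha, haK⟩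
          rw [← heq] at this
          exact (Finset.mem_sdiff.1 this).2 haK'
        have hcomm : ∀ a ∈ K, g₀ a = g₁ a := by
          intro a ha
          rw [hc0'.2 a ha, hc1.2 a ha]
        obtain ⟨τ, hτs, hτ0, hτ1⟩ := exists_extend g₀ g₁ (A g₀) A₁ (by
            have h5 : (A g₀).card ≤ C := hA g₀
            have h6 : A₁.card ≤ C := hA g₁
            omega) (by
            intro a ha ha1
            apply hcomm
            apply hin a ha
            simp [hK', ha1]) (by
            intro a ha b hb hab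
            have haK : a ∈ K := by
              apply hin a ha
              rw [hK', Finset.mem_union]
              right
              rw [Finset.mem_image]
              refine ⟨g₁ b, Finset.mem_image_of_mem _ hb, ?_⟩
              -- g⁻¹ (g₁ b) ∈ K', and g₀ agrees with g there
              have hmem : g⁻¹ (g₁ b) ∈ K' := by
                rw [hK', Finset.mem_union]
                right
                exact Finset.mem_image_of_mem _ (Finset.mem_image_of_mem _ hb)
              have h3 := hc0.2 _ hmem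
              have h4 : g (g⁻¹ (g₁ b)) = g₁ b := by simp
              rw [h4] at h3
              exact g₀.injective (h3.trans hab.symm)
            have h5 := hcomm a haK
            rw [hab] at h5
            exact (g₁.injective h5).symm)
        have e0 := hcert g₀ τ hτs hτ0
        have e1 := hcert g₁ τ (by rw [hτs, hc0'.1, hc1.1]) hτ1
        rw [e0, hf0, hf1] at e1
        exact absurd e1 (by simp)
      -- protocols for the answers of the queries
      have hdd : ∀ (d1 : A₁ → α) (d2 : R → α), ∃ F' : Perm α → Perm α → Bool,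
          Proto F' (j * (4 * w)) ∧ ∀ σ τ : Perm α, Cons K v (σ⁻¹ * τ) →
            (fun a : A₁ => (σ⁻¹ * τ) a) = d1 → (fun a : R => (σ⁻¹ * τ)⁻¹ a) = d2 →
            F' σ τ = f (σ⁻¹ * τ) := by
        intro d1 d2
        by_cases hex : ∃ g : Perm α, Cons K v g ∧ (fun a : A₁ => g a) = d1 ∧
            (fun a : R => g⁻¹ a) = d2
        · obtain ⟨g, hg, hg1, hg2⟩ := hex
          obtain ⟨F', hF', hF⟩ := hnew g hg
          refine ⟨F', hF', ?_⟩
          intro σ τ hc hd1 hd2
          apply hF
          refine ⟨by rw [hc.1, hg.1], ?_⟩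
          intro a ha
          rw [Finset.mem_union, Finset.mem_union] at ha
          rcases ha with (ha | ha) | ha
          · rw [hc.2 a ha, hg.2 a ha]
          · have := congrFun (hd1.trans hg1.symm) ⟨a, ha⟩
            exact this
          · rw [Finset.mem_image] at ha
            obtain ⟨b, hb, rfl⟩ := ha
            have := congrFun (hd2.trans hg2.symm) ⟨b, hb⟩
            have e3 : (σ⁻¹ * τ)⁻¹ b = g⁻¹ b := this
            have e1 : (σ⁻¹ * τ) ((σ⁻¹ * τ)⁻¹ b) = b := Equiv.apply_symm_apply (σ⁻¹ * τ) b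
            have e2 : g (g⁻¹ b) = b := Equiv.apply_symm_apply g b
            show (σ⁻¹ * τ) (g⁻¹ b) = g (g⁻¹ b)
            rw [e2, ← e3]
            exact e1
        · refine ⟨fun _ _ => false, (Proto.const _ false (fun _ _ => rfl)).mono (Nat.zero_le _), ?_⟩
          intro σ τ hc hd1 hd2
          exact absurd ⟨σ⁻¹ * τ, hc, hd1, hd2⟩ hex
      choose F'' hF''1 hF''2 using hdd
      have p1 : ∀ d1, Proto (fun σ τ => F'' d1 (fun a => (σ⁻¹ * τ)⁻¹ a) σ τ)
          (j * (4 * w) + w + w) := fun d1 =>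
        reveal2 R w (hw R hRc) (fun d2 => F'' d1 d2) _ (fun d2 => hF''1 d1 d2)
      have p2 := reveal1 A₁ w (hw A₁ (hA g₁))
        (fun d1 σ τ => F'' d1 (fun a => (σ⁻¹ * τ)⁻¹ a) σ τ) _ p1
      refine ⟨_, p2.mono (by ring_nf; omega), ?_⟩
      intro σ τ hc
      exact hF''2 _ _ σ τ hc rfl rfl
    · push Not at h1
      refine ⟨fun _ _ => false, (Proto.const _ false (fun _ _ => rfl)).mono (Nat.zero_le _), ?_⟩
      intro σ τ hc
      have := h1 _ hc
      simpa using this.symm

/-- the cost of the protocol -/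
noncomputable def pc (f : Perm α → Bool) : ℕ :=
  (cb f * (4 * (Nat.clog 2 (Fintype.card α) * (2 * cb f + 2)))) + 3

theorem card_fun_le (B : Finset α) (C : ℕ) (hB : B.card ≤ C) :
    Fintype.card (B → α) ≤ 2 ^ (Nat.clog 2 (Fintype.card α) * C) := by
  rw [Fintype.card_fun, Fintype.card_coe]
  calc Fintype.card α ^ B.card ≤ (2 ^ Nat.clog 2 (Fintype.card α)) ^ B.card :=
        Nat.pow_le_pow_left (Nat.le_pow_clog (by norm_num) _) _
    _ = 2 ^ (Nat.clog 2 (Fintype.card α) * B.card) := by rw [← pow_mul]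
    _ ≤ _ := Nat.pow_le_pow_right (by norm_num) (Nat.mul_le_mul_left _ hB)

/-- upper bound in terms of the rank and the degree of the symmetric group -/
theorem proto_perm (f : Perm α → Bool) : Proto (fun σ τ : Perm α => f (σ⁻¹ * τ)) (pc f) := by
  classical
  by_cases hC : 2 * cb f + 2 ≤ Fintype.card α
  · choose A hA hcert using exists_cert' f
    have hr := round f (cb f) (Nat.clog 2 (Fintype.card α) * cb f) A hA hcert hC
      (fun B hB => card_fun_le B _ hB) (cb f)
    have hε : ∀ ε : ℤˣ, ∃ F' : Perm α → Perm α → Bool,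
        Proto F' (cb f * (4 * (Nat.clog 2 (Fintype.card α) * cb f))) ∧
        ∀ σ τ : Perm α, sign (σ⁻¹ * τ) = ε → F' σ τ = f (σ⁻¹ * τ) := by
      intro ε
      by_cases hex : ∃ v : Perm α, sign v = ε
      · obtain ⟨v, hv⟩ := hex
        obtain ⟨F', h1, h2⟩ := hr ∅ v (fun g₀ _ _ => by
          rw [Finset.sdiff_empty]
          exact hA g₀)
        refine ⟨F', h1, ?_⟩
        intro σ τ hs
        exact h2 σ τ ⟨by rw [hs, hv], by simp⟩
      · refine ⟨fun _ _ => false, (Proto.const _ false (fun _ _ => rfl)).mono (Nat.zero_le _), ?_⟩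
        intro σ τ hs
        exact absurd ⟨_, hs⟩ hex
    choose F' h1 h2 using hε
    have hcard : Fintype.card ℤˣ ≤ 2 ^ 1 := by decide
    have p1 : ∀ e, Proto (fun σ τ : Perm α => F' (e⁻¹ * sign τ) σ τ)
        (cb f * (4 * (Nat.clog 2 (Fintype.card α) * cb f)) + 1) := fun e =>
      Proto.sendY _ (fun τ : Perm α => sign τ) 1 hcard (fun e' σ τ => F' (e⁻¹ * e') σ τ) _
        (fun e' => h1 _) (fun _ _ => rfl)
    have p2 : Proto (fun σ τ : Perm α => F' ((sign σ)⁻¹ * sign τ) σ τ)
        (cb f * (4 * (Nat.clog 2 (Fintype.card α) * cb f)) + 1 + 1) :=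
      Proto.sendX _ (fun σ : Perm α => sign σ) 1 hcard (fun e σ τ => F' (e⁻¹ * sign τ) σ τ) _
        p1 (fun _ _ => rfl)
    have e : (fun σ τ : Perm α => f (σ⁻¹ * τ)) =
        fun σ τ : Perm α => F' ((sign σ)⁻¹ * sign τ) σ τ := by
      funext σ τ
      rw [h2]
      rw [map_mul, sign_inv]
      rcases Int.units_eq_one_or (sign σ) with h | h <;> rw [h] <;> rfl
    rw [e]
    refine p2.mono ?_
    unfold pc
    have : cb f * (4 * (Nat.clog 2 (Fintype.card α) * cb f)) ≤
        cb f * (4 * (Nat.clog 2 (Fintype.card α) * (2 * cb f + 2))) := by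
      gcongr
      omega
    omega
  · -- the symmetric group is small
    have hsmall : Fintype.card (Perm α) ≤ 2 ^ (Nat.clog 2 (Fintype.card α) * (2 * cb f + 2)) := by
      calc Fintype.card (Perm α) ≤ Fintype.card (α → α) :=
            Fintype.card_le_of_injective (fun (σ : Perm α) => (σ : α → α)) DFunLike.coe_injective
        _ = Fintype.card α ^ Fintype.card α := Fintype.card_fun
        _ ≤ (2 ^ Nat.clog 2 (Fintype.card α)) ^ Fintype.card α :=
          Nat.pow_le_pow_left (Nat.le_pow_clog (by norm_num) _) _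
        _ = 2 ^ (Nat.clog 2 (Fintype.card α) * Fintype.card α) := by rw [← pow_mul]
        _ ≤ _ := Nat.pow_le_pow_right (by norm_num) (Nat.mul_le_mul_left _ (by omega))
    have p1 : ∀ σ' : Perm α, Proto (fun (_ : Perm α) τ => f (σ'⁻¹ * τ)) 1 := fun σ' =>
      Proto.sendY _ (fun τ => f (σ'⁻¹ * τ)) 1 (by simp) (fun b _ _ => b) 0
        (fun b => Proto.const _ b (fun _ _ => rfl)) (fun _ _ => rfl)
    have p2 : Proto (fun σ τ : Perm α => f (σ⁻¹ * τ))
        (1 + Nat.clog 2 (Fintype.card α) * (2 * cb f + 2)) :=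
      Proto.sendX _ (fun σ : Perm α => σ) _ hsmall (fun σ' _ τ => f (σ'⁻¹ * τ)) 1 p1
        (fun _ _ => rfl)
    refine p2.mono ?_
    unfold pc
    have hcb : 1 ≤ cb f := by
      unfold cb
      exact Nat.mul_pos (by omega) (by omega)
    have : Nat.clog 2 (Fintype.card α) * (2 * cb f + 2) ≤
        cb f * (4 * (Nat.clog 2 (Fintype.card α) * (2 * cb f + 2))) := by
      calc Nat.clog 2 (Fintype.card α) * (2 * cb f + 2)
          = 1 * (1 * (Nat.clog 2 (Fintype.card α) * (2 * cb f + 2))) := by ring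
        _ ≤ _ := by gcongr; norm_num
    omega

end Pool.Agent.H287R3.LR
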