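import Pool.Agent.H287R3.LR.SymB

/-!
# Functions on the symmetric group: the rank is at least linear in the degree
-/

set_option autoImplicit false
set_option linter.unusedSectionVars false

namespace Pool.Agent.H287R3.LR

open Finset Pool.Agent.H630R2.LR Equiv Equiv.Perm Module

variable {α : Type} [Fintype α] [DecidableEq α]

/-- a list of disjoint three-cycles whose difference operator is nonzero on the row space -/
def Good (f : Perm α → Bool) (L : List (Perm α)) : Prop :=
  (∀ c ∈ L, c.IsThreeCycle) ∧ L.Pairwise Equiv.Perm.Disjoint ∧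
    ∃ w ∈ rowSpace f, prodOp (lreg (Perm α)) L w ≠ 0

theorem good_length {f : Perm α → Bool} {L : List (Perm α)} (h : Good f L) :
    2 ^ L.length ≤ finrank ℂ (rowSpace f) := by
  obtain ⟨h1, h2, h3⟩ := h
  have key := splitting (lreg (Perm α)) (L.map (fun c => (symOn c.support, c))) (rowSpace f)
    ?_ ?_ ?_ ?_
  · simpa using key
  · intro p hp
    rw [List.mem_map] at hp
    obtain ⟨c, hc, rfl⟩ := hp
    exact even_mem_comm (Finset.Subset.refl _) (h1 c hc).sign
  · rw [List.pairwise_map]
    refine h2.imp ?_
    intro c d hcd g hg h hh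
    exact symOn_commute (disjoint_iff_disjoint_support.1 hcd) hg hh
  · intro p _ g _ w hw
    exact rowSpace_inv f g w hw
  · have e : (L.map (fun c => (symOn c.support, c))).map Prod.snd = L := by
      rw [List.map_map]
      exact List.map_id L
    rw [e]
    exact h3

theorem exists_conj (U : α → Prop) [DecidablePred U] (c c' : Perm α) (hc : c.IsThreeCycle)
    (hc' : c'.IsThreeCycle) (hU : ∀ x, c x ≠ x → U x) (hU' : ∀ x, c' x ≠ x → U x) :
    ∃ g : Perm α, (∀ x, ¬ U x → g x = x) ∧ g * c * g⁻¹ = c' := by
  have aux : ∀ d : Perm α, (∀ x, d x ≠ x → U x) → ∀ x, U (d x) ↔ U x := by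
    intro d hd x
    by_cases hx : d x = x
    · rw [hx]
    · exact ⟨fun _ => hd x hx, fun _ => hd (d x) (fun h => hx (d.injective h))⟩
  have e1 : ofSubtype (c.subtypePerm (aux c hU)) = c := ofSubtype_subtypePerm _ hU
  have e2 : ofSubtype (c'.subtypePerm (aux c' hU')) = c' := ofSubtype_subtypePerm _ hU'
  have h1 : IsConj (c.subtypePerm (aux c hU)) (c'.subtypePerm (aux c' hU')) := by
    rw [isConj_iff_cycleType_eq, ← cycleType_ofSubtype, ← cycleType_ofSubtype, e1, e2]
    exact hc.cycleType.trans hc'.cycleType.symm
  rw [isConj_iff] at h1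
  obtain ⟨g, hg⟩ := h1
  refine ⟨ofSubtype g, fun x hx => ofSubtype_apply_of_not_mem g hx, ?_⟩
  have := congrArg (ofSubtype (p := U)) hg
  rw [map_mul, map_mul, map_inv, e1, e2] at this
  exact this

theorem good_conj {f : Perm α → Bool} {c c' : Perm α} {L : List (Perm α)} (h : Good f (c :: L))
    (hc' : c'.IsThreeCycle) (hd : ∀ d ∈ L, Equiv.Perm.Disjoint c' d) : Good f (c' :: L) := by
  classical
  obtain ⟨h1, h2, w, hw, hne⟩ := h
  rw [List.pairwise_cons] at h2
  obtain ⟨g, hg1, hg2⟩ := exists_conj (fun x => ∀ d ∈ L, d x = x) c c' (h1 c (by simp)) hc'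
    (fun x hx d hd' => ((h2.1 d hd') x).resolve_left hx)
    (fun x hx d hd' => ((hd d hd') x).resolve_left hx)
  have hgL : ∀ d ∈ L, Commute g d := by
    intro d hd'
    apply Equiv.Perm.Disjoint.commute
    intro x
    by_cases hx : d x = x
    · right; exact hx
    · left
      exact hg1 x (fun h => hx (h d hd'))
  refine ⟨?_, ?_, lreg (Perm α) g w, rowSpace_inv f g w hw, ?_⟩
  · intro d hd'
    rw [List.mem_cons] at hd'
    rcases hd' with rfl | hd'
    · exact hc'
    · exact h1 d (by simp [hd'])
  · rw [List.pairwise_cons]
    exact ⟨hd, h2.2⟩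
  · intro h0
    apply hne
    set Q := prodOp (lreg (Perm α)) L with hQ
    have hcomm := LinearMap.congr_fun (prodOp_comm (lreg (Perm α)) g L hgL) w
    rw [Module.End.mul_apply, Module.End.mul_apply] at hcomm
    have h3 : ((1 - lreg (Perm α) c') * Q) (lreg (Perm α) g w) = 0 := h0
    rw [Module.End.mul_apply, ← hcomm] at h3
    have h4 : (1 - lreg (Perm α) c') (lreg (Perm α) g (Q w)) =
        lreg (Perm α) g ((1 - lreg (Perm α) c) (Q w)) := by
      have h5 : c' * g = g * c := by
        rw [← hg2]
        group
      have hmul : ∀ (x y : Perm α) (u : Perm α → ℂ), lreg (Perm α) x (lreg (Perm α) y u) =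
          lreg (Perm α) (x * y) u := by
        intro x y u
        rw [map_mul]
        rfl
      rw [LinearMap.sub_apply, LinearMap.sub_apply, Module.End.one_apply, Module.End.one_apply,
        map_sub, hmul, hmul, h5]
    rw [h4] at h3
    have h6 := congrArg (lreg (Perm α) g⁻¹) h3
    rw [← Module.End.mul_apply, ← map_mul, inv_mul_cancel, map_one, Module.End.one_apply,
      map_zero] at h6
    exact h6

theorem exists_family (m : ℕ) : ∀ (B : Finset α), B.card + 3 * m ≤ Fintype.card α →
    ∃ c : Fin m → Perm α, (∀ i, (c i).IsThreeCycle) ∧ (∀ i, Disjoint (c i).support B) ∧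
      (∀ i j, i ≠ j → Disjoint (c i).support (c j).support) := by
  induction m with
  | zero => intro B _; exact ⟨fun i => i.elim0, fun i => i.elim0, fun i => i.elim0, fun i => i.elim0⟩
  | succ m ih =>
    intro B hB
    have h3 : 3 ≤ Bᶜ.card := by
      rw [Finset.card_compl]
      omega
    obtain ⟨T, hT, hTc⟩ := Finset.exists_subset_card_eq h3
    obtain ⟨c, hc1, hc2, hc3⟩ := ih (B ∪ T) (by
      have := Finset.card_union_le B T
      omega)
    rw [Finset.card_eq_three] at hTc
    obtain ⟨x, y, z, hxy, hxz, hyz, rfl⟩ := hTc
    set d := Equiv.swap x y * Equiv.swap x z with hd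
    have hd3 : d.IsThreeCycle := isThreeCycle_swap_mul_swap_same hxy hxz hyz
    have hds : d.support ⊆ {x, y, z} := by
      intro t ht
      rw [mem_support] at ht
      by_contra hcon
      simp only [Finset.mem_insert, Finset.mem_singleton, not_or] at hcon
      apply ht
      rw [hd, Perm.mul_apply, Equiv.swap_apply_of_ne_of_ne hcon.1 hcon.2.2,
        Equiv.swap_apply_of_ne_of_ne hcon.1 hcon.2.1]
    have hdB : Disjoint d.support B := by
      rw [Finset.disjoint_left]
      intro t ht htB
      have := hT (hds ht)
      rw [Finset.mem_compl] at this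
      exact this htB
    have hdc : ∀ i, Disjoint (c i).support d.support := by
      intro i
      apply Finset.disjoint_of_subset_right hds
      apply Finset.disjoint_of_subset_right _ (hc2 i)
      exact Finset.subset_union_right
    refine ⟨Fin.cons d c, ?_, ?_, ?_⟩
    · intro i
      refine Fin.cases ?_ (fun i => ?_) i
      · exact hd3
      · exact hc1 i
    · intro i
      refine Fin.cases ?_ (fun i => ?_) i
      · exact hdB
      · simp only [Fin.cons_succ]
        apply Finset.disjoint_of_subset_right _ (hc2 i)
        exact Finset.subset_union_left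
    · intro i j
      refine Fin.cases ?_ (fun i => ?_) i
      · refine Fin.cases ?_ (fun j => ?_) j
        · intro h; exact absurd rfl h
        · intro _
          simp only [Fin.cons_zero, Fin.cons_succ]
          exact (hdc j).symm
      · refine Fin.cases ?_ (fun j => ?_) j
        · intro _
          simp only [Fin.cons_zero, Fin.cons_succ]
          exact hdc i
        · intro hij
          simp only [Fin.cons_succ]
          exact hc3 i j (fun h => hij (by rw [h]))

theorem good_extend {f : Perm α → Bool} {c : Perm α} {L : List (Perm α)} (h : Good f (c :: L))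
    (hcard : 3 * L.length + 3 * (finrank ℂ (rowSpace f) + 1) ≤ Fintype.card α) :
    ∃ c1 c2, Good f (c1 :: c2 :: L) := by
  classical
  by_contra hcon
  push Not at hcon
  -- the union of the supports
  set B : Finset α := L.toFinset.biUnion (fun d => d.support) with hB
  have hBc : B.card ≤ 3 * L.length := by
    calc B.card ≤ ∑ d ∈ L.toFinset, d.support.card := Finset.card_biUnion_le
      _ ≤ ∑ _d ∈ L.toFinset, 3 := by
        apply Finset.sum_le_sum
        intro d hd
        rw [List.mem_toFinset] at hd
        exact (h.1 d (by simp [hd])).card_support.le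
      _ = 3 * L.toFinset.card := by rw [Finset.sum_const, smul_eq_mul, mul_comm]
      _ ≤ 3 * L.length := Nat.mul_le_mul_left _ (List.toFinset_card_le L)
  obtain ⟨d, hd1, hd2, hd3⟩ := exists_family (finrank ℂ (rowSpace f) + 1) B (by omega)
  have hdL : ∀ i, ∀ e ∈ L, Equiv.Perm.Disjoint (d i) e := by
    intro i e he
    rw [disjoint_iff_disjoint_support]
    apply Finset.disjoint_of_subset_right _ (hd2 i)
    intro x hx
    rw [hB, Finset.mem_biUnion]
    exact ⟨e, by simpa using he, hx⟩
  have hgood : ∀ i, Good f (d i :: L) := fun i => good_conj h (hd1 i) (hdL i)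
  have hex : ∀ i, ∃ w ∈ rowSpace f, prodOp (lreg (Perm α)) (d i :: L) w ≠ 0 :=
    fun i => (hgood i).2.2
  choose w hw hne using hex
  set Q := prodOp (lreg (Perm α)) L with hQ
  set v : Fin (finrank ℂ (rowSpace f) + 1) → (Perm α → ℂ) :=
    fun i => prodOp (lreg (Perm α)) (d i :: L) (w i) with hv
  have hvv : ∀ i, v i = (1 - lreg (Perm α) (d i)) (Q (w i)) := fun i => rfl
  have hQmem : ∀ (L' : List (Perm α)) (u : Perm α → ℂ), u ∈ rowSpace f →
      prodOp (lreg (Perm α)) L' u ∈ rowSpace f := by
    intro L'
    induction L' with
    | nil => intro u hu; exact hu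
    | cons e L' ih =>
      intro u hu
      show ((1 - lreg (Perm α) e) * prodOp (lreg (Perm α)) L') u ∈ rowSpace f
      rw [Module.End.mul_apply, LinearMap.sub_apply, Module.End.one_apply]
      exact Submodule.sub_mem _ (ih u hu) (rowSpace_inv f e _ (ih u hu))
  have hvmem : ∀ i, v i ∈ rowSpace f := fun i => hQmem _ _ (hw i)
  -- the other differences kill `v i`
  have hkill : ∀ i j, i ≠ j → (1 - lreg (Perm α) (d j)) (v i) = 0 := by
    intro i j hij
    by_contra h0
    apply hcon (d j) (d i)
    refine ⟨?_, ?_, w i, hw i, ?_⟩
    · intro e he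
      rw [List.mem_cons, List.mem_cons] at he
      rcases he with rfl | rfl | he
      · exact hd1 j
      · exact hd1 i
      · exact h.1 e (by simp [he])
    · rw [List.pairwise_cons]
      refine ⟨?_, (hgood i).2.1⟩
      intro e he
      rw [List.mem_cons] at he
      rcases he with rfl | he
      · rw [disjoint_iff_disjoint_support]
        exact hd3 j i (Ne.symm hij)
      · exact hdL j e he
    · exact h0
  have hself : ∀ i, (1 - lreg (Perm α) (d i)) (v i) ≠ 0 := by
    intro i h0
    apply hne i
    set T := lreg (Perm α) (d i) with hT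
    have hT3 : ∀ u, T (T (T u)) = u := by
      intro u
      rw [hT, ← Module.End.mul_apply, ← Module.End.mul_apply, ← map_mul, ← map_mul]
      have h3 : d i * (d i * d i) = 1 := by
        have := pow_orderOf_eq_one (d i)
        rw [(hd1 i).orderOf] at this
        rw [← this]
        rfl
      have h4 : d i * d i * d i = 1 := by rw [mul_assoc]; exact h3
      first
        | rw [h3, map_one, Module.End.one_apply]
        | rw [h4, map_one, Module.End.one_apply]
    have h1 : T (v i) = v i := by
      rw [LinearMap.sub_apply, Module.End.one_apply, sub_eq_zero] at h0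
      exact h0.symm
    set u := Q (w i) with hu
    have h2 : v i = u - T u := by
      rw [hvv, LinearMap.sub_apply, Module.End.one_apply]
    have h5 : v i + T (v i) + T (T (v i)) = 0 := by
      rw [h2, map_sub, map_sub, hT3]
      abel
    rw [h1, h1] at h5
    have h6 : (3 : ℂ) • v i = 0 := by
      rw [← h5]
      module
    have h7 := (smul_eq_zero.1 h6).resolve_left (by norm_num)
    exact h7
  have hli : LinearIndependent ℂ v := by
    rw [Fintype.linearIndependent_iff]
    intro a ha j
    have h1 : (1 - lreg (Perm α) (d j)) (∑ i, a i • v i) = 0 := by rw [ha, map_zero]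
    rw [map_sum, Finset.sum_eq_single j] at h1
    · rw [map_smul] at h1
      exact (smul_eq_zero.1 h1).resolve_right (hself j)
    · intro i _ hij
      rw [map_smul, hkill i j hij, smul_zero]
    · intro hj
      exact absurd (Finset.mem_univ j) hj
  have h1 := finrank_span_eq_card hli
  rw [Fintype.card_fin] at h1
  have h2 : finrank ℂ (Submodule.span ℂ (Set.range v)) ≤ finrank ℂ (rowSpace f) := by
    apply Submodule.finrank_mono
    rw [Submodule.span_le]
    rintro _ ⟨i, rfl⟩
    exact hvmem i
  omega

/-- The rank of a function which is not constant on a coset of the alternating group is at least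
linear in the degree. -/
theorem card_le (f : Perm α → Bool) (σ π : Perm α) (hπ : sign π = 1) (hf : f (π * σ) ≠ f σ) :
    Fintype.card α ≤ 6 * rk f + 2 := by
  classical
  have hR : finrank ℂ (rowSpace f) ≤ rk f := finrank_rowSpace_le f
  set R := finrank ℂ (rowSpace f) with hRdef
  by_contra hlt
  -- some three-cycle acts nontrivially
  have h0 : ∃ c : Perm α, Good f [c] := by
    by_contra hcon
    push Not at hcon
    have htriv : ∀ c : Perm α, c.IsThreeCycle → ∀ w ∈ rowSpace f, lreg (Perm α) c w = w := by
      intro c hc w hw
      by_contra hne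
      apply hcon c
      refine ⟨by simpa using hc, by simp, w, hw, ?_⟩
      show ((1 - lreg (Perm α) c) * 1) w ≠ 0
      rw [mul_one, LinearMap.sub_apply, Module.End.one_apply, sub_ne_zero]
      exact fun h => hne h.symm
    let S : Subgroup (Perm α) :=
      { carrier := {γ | ∀ w ∈ rowSpace f, lreg (Perm α) γ w = w}
        one_mem' := by intro w _; simp
        mul_mem' := by
          intro x y hx hy w hw
          rw [map_mul, Module.End.mul_apply, hy w hw, hx w hw]
        inv_mem' := by
          intro x hx w hw
          have h1 := hx w hw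
          conv_lhs => rw [← h1]
          rw [← Module.End.mul_apply, ← map_mul, inv_mul_cancel, map_one, Module.End.one_apply] }
    have hle : alternatingGroup α ≤ S := by
      rw [← closure_three_cycles_eq_alternating, Subgroup.closure_le]
      intro c hc
      exact htriv c hc
    have hmem : π⁻¹ ∈ S := hle (by rw [mem_alternatingGroup, sign_inv, hπ])
    have h1 := congrFun (hmem (chi f) (chi_mem f)) σ
    rw [lreg_apply, inv_inv] at h1
    apply hf
    simp only [chi] at h1
    by_cases ha : f (π * σ) = true <;> by_cases hb : f σ = true <;> simp_all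
  have key : ∀ s : ℕ, ∃ (c : Perm α) (L : List (Perm α)), L.length = s ∧ Good f (c :: L) := by
    intro s
    induction s with
    | zero =>
      obtain ⟨c, hc⟩ := h0
      exact ⟨c, [], rfl, hc⟩
    | succ s ih =>
      obtain ⟨c, L, hL, hg⟩ := ih
      have h1 := good_length hg
      rw [List.length_cons, hL] at h1
      have h2 : s + 1 < 2 ^ (s + 1) := Nat.lt_two_pow_self
      obtain ⟨c1, c2, hg'⟩ := good_extend hg (by rw [hL]; omega)
      exact ⟨c1, c2 :: L, by rw [List.length_cons, hL], hg'⟩
  obtain ⟨c, L, hL, hg⟩ := key R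
  have h1 := good_length hg
  rw [List.length_cons, hL] at h1
  have h2 : R + 1 < 2 ^ (R + 1) := Nat.lt_two_pow_self
  omega

end Pool.Agent.H287R3.LR
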